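import Pool.Agent.Work.MP_78fef3_co.X.Red

-- merged part: Pool.Agent.Work.MP_78fef3_co.X.Peel
section
/-! Marginals of the Gibbs weight. -/

namespace Pool.Agent.Work.MP_78fef3_co.X

open Finset

variable {E I : Type} [DecidableEq E] [Fintype E] [Fintype I] [DecidableEq I]
  {lev : I → ℕ} {K : ℕ → E → E → ℝ} {ν : ℝ}

theorem wt_nonneg (hK : DS K) (hν : 0 ≤ ν) (s : (I → E) × Finset (I × I)) :
    0 ≤ wt lev K ν s := by
  unfold wt
  split_ifs
  · exact prod_nonneg fun l _ => mul_nonneg hν (hK.nonneg _ _ _)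
  · exact le_rfl

omit [DecidableEq E] in
theorem Pe_upd (x : I) (F : (I → E) → ℝ) :
    (Fintype.card E : ℝ) * ∑ q, F q = ∑ q, ∑ e, F (Function.update q x e) := by
  have hi : Function.Involutive fun p : (I → E) × E => (Function.update p.1 x p.2, p.1 x) :=
    fun p => by simp
  have h := Equiv.sum_comp hi.toPerm fun p => F p.1
  rw [Fintype.sum_prod_type, Fintype.sum_prod_type] at h
  simp only [Function.Involutive.coe_toPerm, sum_const, card_univ, nsmul_eq_mul] at h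
  rw [h, mul_sum]

omit [DecidableEq E] in
theorem Pe_two {x y : I} (hxy : x ≠ y) (H : E → E → ℝ) :
    (Fintype.card E : ℝ) ^ 2 * ∑ q : I → E, H (q x) (q y) =
      (Fintype.card E : ℝ) ^ Fintype.card I * ∑ e, ∑ e', H e e' := by
  rw [sq, mul_assoc, Pe_upd y, Pe_upd x]
  simp [Function.update_of_ne hxy]

omit [Fintype I] [DecidableEq I] in
theorem Pe_free (j : ℕ) (T : Finset I) (hT : ∀ x ∈ T, lev x = j ∨ lev x = j + 1)
    {lam : Finset (I × I)} (hM : IsM lev lam) (hl : ∀ l ∈ lam, ¬ (l.1 ∈ T ∧ l.2 ∈ T))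
    (hn : lam.Nonempty) : ∃ a ∈ lam, (a.2 ∉ T ∧ ∀ l ∈ lam, l.1 ≠ a.2) ∨
      (a.1 ∉ T ∧ ∀ l ∈ lam, l.2 ≠ a.1) := by
  obtain ⟨a, ha, ha'⟩ := exists_max_image lam (fun l => lev l.1) hn
  obtain ⟨b, hb, hb'⟩ := exists_min_image lam (fun l => lev l.1) hn
  have a1 := hM.1 a ha
  by_cases h1 : a.2 ∈ T
  · by_cases h2 : b.1 ∈ T
    · refine ⟨a, ha, Or.inr ⟨fun h => hl a ha ⟨h, h1⟩, fun l hl' h => ?_⟩⟩
      have := hM.1 l hl'
      have := hb' l hl'
      have := hT _ h1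
      have := hT _ h2
      have := congrArg lev h
      omega
    · refine ⟨b, hb, Or.inr ⟨h2, fun l hl' h => ?_⟩⟩
      have := hM.1 l hl'
      have := hb' l hl'
      have := congrArg lev h
      omega
  · refine ⟨a, ha, Or.inl ⟨h1, fun l hl' h => ?_⟩⟩
    have := ha' l hl'
    have := congrArg lev h
    omega

omit [Fintype I] [DecidableEq I] in
theorem Pe_sub {lam lam' : Finset (I × I)} (hM : IsM lev lam) (h : lam' ⊆ lam) : IsM lev lam' :=
  ⟨fun l a => hM.1 l (h a), fun l a l' b => hM.2.1 l (h a) l' (h b),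
    fun l a l' b => hM.2.2 l (h a) l' (h b)⟩

/-- Induction on the number of links. If a link starts above level `j` take one with the highest
start and sum over its end; else if a link starts below `j` take one with the lowest start and
sum over its start; else any link has an end point outside `T` that lies on no other link. -/
theorem peel (hK : DS K) (j : ℕ) (T : Finset I) (hT : ∀ x ∈ T, lev x = j ∨ lev x = j + 1)
    (H : (I → E) → ℝ) (hH : ∀ q q', (∀ x ∈ T, q x = q' x) → H q = H q')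
    (lam : Finset (I × I)) (hM : IsM lev lam) (hl : ∀ l ∈ lam, ¬ (l.1 ∈ T ∧ l.2 ∈ T)) :
    (Fintype.card E : ℝ) ^ lam.card * ∑ q, (∏ l ∈ lam, K (lev l.1) (q l.1) (q l.2)) * H q =
      ∑ q, H q := by
  induction' hc : lam.card with c ih generalizing lam
  · rw [card_eq_zero.1 hc]
    simp
  obtain ⟨a, ha, h⟩ := Pe_free j T hT hM hl (card_pos.1 (by omega))
  have a1 := hM.1 a ha
  have key : ∀ x ∉ T, (∀ l ∈ lam.erase a, l.1 ≠ x ∧ l.2 ≠ x) →
      (∀ q : I → E, ∑ e, K (lev a.1) (Function.update q x e a.1) (Function.update q x e a.2) = 1) →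
      (Fintype.card E : ℝ) * ∑ q, (∏ l ∈ lam, K (lev l.1) (q l.1) (q l.2)) * H q =
        ∑ q, (∏ l ∈ lam.erase a, K (lev l.1) (q l.1) (q l.2)) * H q := by
    intro x hx h1 h2
    rw [Pe_upd x]
    refine sum_congr rfl fun q _ => ?_
    rw [← one_mul (_ * H q), ← h2 q, sum_mul]
    refine sum_congr rfl fun e _ => ?_
    rw [← mul_prod_erase lam _ ha, mul_assoc, hH (Function.update q x e) q fun y hy =>
      Function.update_of_ne (fun h : y = x => hx (h ▸ hy)) _ _]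
    congr 2
    refine prod_congr rfl fun l hl' => ?_
    rw [Function.update_of_ne (h1 l hl').1, Function.update_of_ne (h1 l hl').2]
  have hne : a.1 ≠ a.2 := fun h => by
    have := congrArg lev h
    omega
  rw [← ih (lam.erase a) (Pe_sub hM (erase_subset _ _)) (fun l h => hl l (mem_of_mem_erase h))
    (by rw [card_erase_of_mem ha, hc, Nat.add_sub_cancel]), pow_succ, mul_assoc]
  congr 1
  rcases h with h | h
  · refine key a.2 h.1 (fun l hl' => ⟨h.2 l (mem_of_mem_erase hl'), fun h' =>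
      ne_of_mem_erase hl' (hM.2.2 l (mem_of_mem_erase hl') a ha h')⟩) fun q => ?_
    simp only [Function.update_of_ne hne, Function.update_self]
    exact hK.row _ _
  · refine key a.1 h.1 (fun l hl' => ⟨fun h' =>
      ne_of_mem_erase hl' (hM.2.1 l (mem_of_mem_erase hl') a ha h'),
      h.2 l (mem_of_mem_erase hl')⟩) fun q => ?_
    simp only [Function.update_of_ne hne.symm, Function.update_self]
    exact hK.col _ _

omit [DecidableEq E] [Fintype E] [Fintype I] [DecidableEq I] in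
theorem Pe_wt {lam : Finset (I × I)} (hM : IsM lev lam) (q : I → E) :
    wt lev K ν (q, lam) = ν ^ lam.card * ∏ l ∈ lam, K (lev l.1) (q l.1) (q l.2) := by
  unfold wt
  rw [if_pos hM, prod_mul_distrib, prod_const]

/-- Total weight of a shape. -/
theorem shape (hK : DS K) (lam : Finset (I × I)) (hM : IsM lev lam) :
    (Fintype.card E : ℝ) ^ lam.card * ∑ q, wt lev K ν (q, lam) =
      ν ^ lam.card * (Fintype.card E : ℝ) ^ Fintype.card I := by
  have h := peel hK 0 ∅ (by simp) (fun _ => 1) (fun _ _ _ => rfl) lam hM (by simp)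
  simp only [mul_one, sum_const, card_univ, Fintype.card_fun, nsmul_eq_mul, Nat.cast_pow] at h
  simp only [Pe_wt hM]
  rw [← mul_sum, mul_left_comm, h]

theorem Pe_pair (hK : DS K) {x y : I} (hxy : x ≠ y) (hl : lev y = lev x ∨ lev y = lev x + 1)
    (H : E → E → ℝ) {lam : Finset (I × I)} (hM : IsM lev lam) (h : (x, y) ∉ lam) :
    (Fintype.card E : ℝ) ^ lam.card * ((Fintype.card E : ℝ) ^ 2 *
      ∑ q : I → E, (∏ l ∈ lam, K (lev l.1) (q l.1) (q l.2)) * H (q x) (q y)) =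
      (Fintype.card E : ℝ) ^ Fintype.card I * ∑ e, ∑ e', H e e' := by
  rw [mul_left_comm, peel hK (lev x) {x, y} (by simpa using hl) (fun q => H (q x) (q y))
    (fun q q' h => by rw [h x (by simp), h y (by simp)]) lam hM, Pe_two hxy]
  rintro ⟨a, b⟩ hab ⟨h1, h2⟩
  have h3 := hM.1 _ hab
  simp only [mem_insert, mem_singleton] at h1 h2 h3
  rcases h1 with rfl | rfl <;> rcases h2 with rfl | rfl
  · omega
  · exact h hab
  · omega
  · omega

/-- Two unlinked slots are independent and uniform. -/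
theorem law_pair (hK : DS K) (hν : 0 ≤ ν) {x y : I} (hxy : x ≠ y)
    (hl : lev y = lev x ∨ lev y = lev x + 1) (H : E → E → ℝ) (h0 : ∀ e e', 0 ≤ H e e') :
    (Fintype.card E : ℝ) ^ 2 *
        ∑ s, wt lev K ν s * (if (x, y) ∈ s.2 then 0 else H (s.1 x) (s.1 y)) ≤
      (∑ s, wt lev K ν s) * ∑ e, ∑ e', H e e' := by
  rcases isEmpty_or_nonempty E with hE | hE
  · simp
  have hn : (0 : ℝ) < Fintype.card E := by exact_mod_cast Fintype.card_pos
  rw [Fintype.sum_prod_type_right, Fintype.sum_prod_type_right, mul_sum, sum_mul]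
  refine sum_le_sum fun lam _ => ?_
  by_cases hM : IsM lev lam
  · by_cases h : (x, y) ∈ lam
    · simp only [h, if_true, mul_zero, sum_const_zero]
      exact mul_nonneg (sum_nonneg fun q _ => wt_nonneg hK hν _)
        (sum_nonneg fun e _ => sum_nonneg fun e' _ => h0 e e')
    · refine le_of_eq (mul_left_cancel₀ (pow_pos hn lam.card).ne' ?_)
      rw [← mul_assoc _ _ (∑ e, ∑ e', H e e'), shape hK lam hM, mul_assoc,
        ← Pe_pair hK hxy hl H hM h]
      simp only [h, if_false, Pe_wt hM, mul_assoc]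
      rw [← mul_sum]
      ring
  · simp [wt, hM]

/-- A linked pair has law `K / n`, and a slot has at most one link to the next level. -/
theorem law_link (hK : DS K) (hν : 0 ≤ ν) (x : I) (H : E → E → ℝ) (h0 : ∀ e e', 0 ≤ H e e') :
    (Fintype.card E : ℝ) *
        ∑ s, wt lev K ν s * ∑ y, (if (x, y) ∈ s.2 then H (s.1 x) (s.1 y) else 0) ≤
      (∑ s, wt lev K ν s) * ∑ e, ∑ e', K (lev x) e e' * H e e' := by
  rcases isEmpty_or_nonempty E with hE | hE
  · simp
  have hn : (0 : ℝ) < Fintype.card E := by exact_mod_cast Fintype.card_pos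
  rw [Fintype.sum_prod_type_right, Fintype.sum_prod_type_right, mul_sum, sum_mul]
  refine sum_le_sum fun lam _ => ?_
  by_cases hM : IsM lev lam
  · by_cases h : ∃ y, (x, y) ∈ lam
    · obtain ⟨y, hy⟩ := h
      have h1 : lev y = lev x + 1 := hM.1 _ hy
      have hxy : x ≠ y := fun h => by
        have := congrArg lev h
        omega
      have h2 : ∀ q : I → E, ∑ z, (if (x, z) ∈ lam then H (q x) (q z) else 0) = H (q x) (q y) :=
        fun q => by
          rw [sum_eq_single y (fun z _ hz => if_neg fun h =>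
            hz (congrArg Prod.snd (hM.2.1 (x, z) h (x, y) hy rfl))) (by simp), if_pos hy]
      refine le_of_eq (mul_left_cancel₀ (pow_pos hn lam.card).ne' ?_)
      rw [← mul_assoc _ _ (∑ e, ∑ e', K (lev x) e e' * H e e'), shape hK lam hM, mul_assoc,
        ← Pe_pair hK hxy (Or.inr h1) (fun e e' => K (lev x) e e' * H e e')
          (Pe_sub hM (erase_subset (x, y) lam)) (notMem_erase _ _)]
      simp only [h2, Pe_wt hM, mul_assoc, ← mul_prod_erase lam _ hy]
      rw [← mul_sum, ← card_erase_add_one hy, sum_congr rfl fun (q : I → E) _ =>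
        mul_left_comm (K (lev x) (q x) (q y)) _ (H (q x) (q y))]
      ring
    · simp only [not_exists] at h
      simp only [h, if_false, mul_zero, sum_const_zero]
      exact mul_nonneg (sum_nonneg fun q _ => wt_nonneg hK hν _)
        (sum_nonneg fun e _ => sum_nonneg fun e' _ => mul_nonneg (hK.nonneg _ _ _) (h0 e e'))
  · simp [wt, hM]

end Pool.Agent.Work.MP_78fef3_co.X
end

-- merged part: Pool.Agent.Work.MP_78fef3_co.X.Honey1
section
/-! Deterministic facts on walks of states, and coincidences. -/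

namespace Pool.Agent.Work.MP_78fef3_co.X

open Finset Pool.Agent.Work.MP_78fef3_co.S

variable {E B I : Type} [DecidableEq E] [DecidableEq B] [Fintype E] [Fintype I] [DecidableEq I]
  {lev : I → ℕ} {u w : E → B} {ν : ℝ} {M t l : ℕ}

/-- All edges of a walk. -/
def allE (x : Fin (l + 1) → (I → E) × Finset (I × I)) : Finset E :=
  univ.image fun o : Fin (l + 1) × I => (x o.1).1 o.2

omit [DecidableEq E] [Fintype E] [Fintype I] [DecidableEq I] in
private theorem H1_wt {K : ℕ → E → E → ℝ} {s : (I → E) × Finset (I × I)}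
    (h : wt lev K ν s ≠ 0) :
    IsM lev s.2 ∧ ∀ z ∈ s.2, K (lev z.1) (s.1 z.1) (s.1 z.2) ≠ 0 := by
  unfold wt at h
  by_cases hM : IsM lev s.2
  · rw [if_pos hM] at h
    exact ⟨hM, fun z hz => right_ne_zero_of_mul (prod_ne_zero_iff.1 h z hz)⟩
  · exact absurd (if_neg hM) h

omit [DecidableEq I] in
private theorem H1_lev {J : ℕ} (hL : Lv lev J t) (j : ℕ) :
    (univ.filter fun x => lev x = j).card ≤ t := by
  by_cases h : j ≤ J
  · exact (hL.card j h).le
  · rw [(filter_eq_empty_iff (p := fun x => lev x = j)).2 fun x _ hx => h (hx ▸ hL.le x)]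
    simp

private theorem H1_two {J : ℕ} (hL : Lv lev J t) (j k : ℕ) :
    (univ.filter fun x => lev x = j ∨ lev x = k).card ≤ 2 * t := by
  rw [filter_or]
  have h1 := H1_lev hL j
  have h2 := H1_lev hL k
  exact (card_union_le _ _).trans (by omega)

omit [DecidableEq I] in
private theorem H1_card {J : ℕ} (hL : Lv lev J t) : Fintype.card I = (J + 1) * t := by
  rw [← card_univ, card_eq_sum_card_fiberwise (f := lev) (t := range (J + 1))
    fun x _ => by simpa [Nat.lt_succ_iff] using hL.le x,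
    sum_congr rfl fun j hj => hL.card j (Nat.lt_succ_iff.1 (mem_range.1 hj))]
  simp

private theorem H1_cnt {D : Finset B} (g : Fin (l + 1) → I → B) (T : Finset I) (A : Finset ℕ)
    (P Q : Fin (l + 1) → ℕ → Finset I) (C : Fin l → Finset ℕ) (S : Fin l → ℕ → Finset I)
    (h : ∀ v ∈ D, (∃ τ a, g τ a = v ∧
        (τ = 0 ∨ τ = Fin.last l ∨ a ∈ T ∨ ∃ j ∈ A, a ∈ P τ j ∨ a ∈ Q τ j)) ∨
      ∃ σ : Fin l, ∃ a, g σ.castSucc a = v ∧ ∃ j ∈ C σ, a ∈ S σ j) :
    D.card ≤ 2 * Fintype.card I + (l + 1) * T.card +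
      ∑ τ, ∑ j ∈ A, ((P τ j).card + (Q τ j).card) + ∑ σ, ∑ j ∈ C σ, (S σ j).card := by
  have hs : D ⊆ (univ.image (g 0) ∪ univ.image (g (Fin.last l))) ∪
      (univ.biUnion fun τ => T.image (g τ)) ∪
      (univ.biUnion fun τ => A.biUnion fun j => (P τ j ∪ Q τ j).image (g τ)) ∪
      (univ.biUnion fun σ : Fin l => (C σ).biUnion fun j => (S σ j).image (g σ.castSucc)) := by
    intro v hv
    simp only [mem_union, mem_image, mem_biUnion, mem_univ, true_and]
    rcases h v hv with ⟨τ, a, h1, rfl | rfl | h2 | ⟨j, h2, h3⟩⟩ | ⟨σ, a, h1, j, h2, h3⟩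
    · exact .inl (.inl (.inl (.inl ⟨a, h1⟩)))
    · exact .inl (.inl (.inl (.inr ⟨a, h1⟩)))
    · exact .inl (.inl (.inr ⟨τ, a, h2, h1⟩))
    · exact .inl (.inr ⟨τ, j, h2, a, h3, h1⟩)
    · exact .inr ⟨σ, j, h2, a, h3, h1⟩
  refine (card_le_card hs).trans ((card_union_le _ _).trans (add_le_add
    ((card_union_le _ _).trans (add_le_add ((card_union_le _ _).trans (add_le_add ?_ ?_)) ?_)) ?_))
  · rw [two_mul]
    exact (card_union_le _ _).trans (add_le_add card_image_le card_image_le)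
  · refine card_biUnion_le.trans ((sum_le_sum fun τ _ => card_image_le).trans ?_)
    simp
  · exact card_biUnion_le.trans (sum_le_sum fun τ _ => card_biUnion_le.trans
      (sum_le_sum fun j _ => card_image_le.trans (card_union_le _ _)))
  · exact card_biUnion_le.trans (sum_le_sum fun τ _ => card_biUnion_le.trans
      (sum_le_sum fun j _ => card_image_le))

omit [DecidableEq I] in
private theorem H1_gen (g : E → B) (x : Fin (l + 1) → (I → E) × Finset (I × I))
    (R : Fin (l + 1) → I → I → Prop)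
    (hR : ∀ τ a b, lev a % 2 = 0 → R τ a b →
      g ((x τ).1 a) = g ((x τ).1 b) ∧ (x τ).1 a ≠ (x τ).1 b)
    (hf : ∀ τ : Fin l, fx lev τ (x τ.succ) = fx lev τ (x τ.castSucc)) {v : B}
    (hv : v ∈ defi g (allE x)) :
    (∃ τ a, g ((x τ).1 a) = v ∧ (τ = 0 ∨ τ = Fin.last l ∨
        (lev a % 2 = 1 ∧ ∀ b, lev b % 2 = 0 → ¬ R τ b a) ∨ (lev a % 2 = 0 ∧ ∀ b, ¬ R τ a b))) ∨
      ∃ σ : Fin l, ∃ a, g ((x σ.castSucc).1 a) = v ∧ lev a % 4 = 2 * (σ : ℕ) % 4 ∧
        ∃ b b', R σ.castSucc a b ∧ R σ.succ a b' ∧ (x σ.castSucc).1 b = (x σ.succ).1 b' := by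
  obtain ⟨h1, h2⟩ := mem_filter.1 hv
  obtain ⟨e, he, rfl⟩ := mem_image.1 h1
  obtain ⟨⟨τ, a₀⟩, -, rfl⟩ := mem_image.1 he
  simp only at h2 ⊢
  have hm : ∀ τ a, (x τ).1 a ∈ allE x := fun τ a => mem_image.2 ⟨(τ, a), mem_univ _, rfl⟩
  by_contra hc
  rw [not_or] at hc
  obtain ⟨c1, c2⟩ := hc
  have hk : ∀ (σ : Fin l) a, lev a % 4 = 2 * (σ : ℕ) % 4 →
      (x σ.succ).1 a = (x σ.castSucc).1 a := fun σ a h => by
    have := congrFun (hf σ) a
    simpa only [fx, if_pos h, Option.some.injEq] using this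
  have step : ∀ (σ : Fin l) a, lev a % 4 = 2 * (σ : ℕ) % 4 →
      g ((x σ.castSucc).1 a) = g ((x τ).1 a₀) → False := fun σ a h ha => by
    have h0 : lev a % 2 = 0 := by omega
    have k := hk σ a h
    by_cases n1 : ∀ b, ¬ R σ.castSucc a b
    · exact c1 ⟨_, a, ha, .inr (.inr (.inr ⟨h0, n1⟩))⟩
    by_cases n2 : ∀ b, ¬ R σ.succ a b
    · exact c1 ⟨_, a, k ▸ ha, .inr (.inr (.inr ⟨h0, n2⟩))⟩
    push Not at n1 n2
    obtain ⟨b, hb⟩ := n1
    obtain ⟨b', hb'⟩ := n2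
    have n3 : (x σ.castSucc).1 b ≠ (x σ.succ).1 b' := fun h' =>
      c2 ⟨σ, a, ha, h, b, b', hb, hb', h'⟩
    obtain ⟨r1, r2⟩ := hR _ _ _ h0 hb
    obtain ⟨r3, r4⟩ := hR _ _ _ h0 hb'
    rw [k] at r3 r4
    have : 2 < deg g (allE x) (g ((x τ).1 a₀)) :=
      two_lt_card_iff.2 ⟨_, _, _, mem_filter.2 ⟨hm _ a, ha⟩, mem_filter.2 ⟨hm _ b, r1.symm.trans ha⟩,
        mem_filter.2 ⟨hm _ b', r3.symm.trans ha⟩, r2, r4, n3⟩
    omega
  obtain ⟨a, h0, ha⟩ : ∃ a, lev a % 2 = 0 ∧ g ((x τ).1 a) = g ((x τ).1 a₀) := by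
    by_cases h : lev a₀ % 2 = 0
    · exact ⟨a₀, h, rfl⟩
    by_cases n : ∀ b, lev b % 2 = 0 → ¬ R τ b a₀
    · exact absurd ⟨τ, a₀, rfl, .inr (.inr (.inl ⟨by omega, n⟩))⟩ c1
    push Not at n
    obtain ⟨b, b1, b2⟩ := n
    exact ⟨b, b1, (hR _ _ _ b1 b2).1⟩
  by_cases h : lev a % 4 = 2 * (τ : ℕ) % 4
  · rcases Fin.eq_castSucc_or_eq_last τ with ⟨σ, rfl⟩ | rfl
    · exact step σ a h ha
    · exact c1 ⟨_, a, ha, .inr (.inl rfl)⟩
  · rcases Fin.eq_zero_or_eq_succ τ with rfl | ⟨σ, rfl⟩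
    · exact c1 ⟨_, a, ha, .inl rfl⟩
    · have h' : lev a % 4 = 2 * (σ : ℕ) % 4 := by
        rw [Fin.val_succ] at h
        omega
      exact step σ a h' (hk σ a h' ▸ ha)

/-- A deficient `w` belongs to an odd slot with no link to the previous level or to an even slot
of level `j` at time `τ`. That level is kept in step `τ` or `τ - 1`. Either the step does not
exist (`τ = 0` or `τ = l`), or `4 M < j + 4` (two levels), or a link to the next level is
missing, or both links carry the same edge; otherwise there are three edges at the vertex. -/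
theorem defi_w (hL : Lv lev (4 * M) t) (x : Fin (l + 1) → (I → E) × Finset (I × I))
    (h0 : ∀ τ, wt lev (hk u w) ν (x τ) ≠ 0)
    (hf : ∀ τ : Fin l, fx lev τ (x τ.succ) = fx lev τ (x τ.castSucc)) :
    (defi w (allE x)).card ≤ 2 * ((4 * M + 1) * t) + (l + 1) * (2 * t) +
      ∑ τ, ∑ j ∈ range (4 * M), (mr lev j (x τ).2 + ml lev j (x τ).2) +
      ∑ τ : Fin l, ∑ j ∈ range (4 * M + 1) with j % 4 = 2 * (τ : ℕ) % 4 ∧ j + 4 ≤ 4 * M,
        same lev j (x τ.castSucc) (x τ.succ) := by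
  have hT := H1_two hL (4 * M) (4 * M - 2)
  rw [← H1_card hL]
  refine (H1_cnt (fun τ a => w ((x τ).1 a)) (univ.filter fun a => lev a = 4 * M ∨ lev a = 4 * M - 2)
    (range (4 * M)) (fun τ j => univ.filter fun a => lev a = j ∧ ∀ y, (a, y) ∉ (x τ).2)
    (fun τ j => univ.filter fun y => lev y = j + 1 ∧ ∀ a, (a, y) ∉ (x τ).2)
    (fun τ => (range (4 * M + 1)).filter fun j => j % 4 = 2 * (τ : ℕ) % 4 ∧ j + 4 ≤ 4 * M)
    (fun τ j => univ.filter fun a => lev a = j ∧ ∃ b b', (a, b) ∈ (x τ.castSucc).2 ∧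
      (a, b') ∈ (x τ.succ).2 ∧ (x τ.castSucc).1 b = (x τ.succ).1 b') fun v hv => ?_).trans
    (add_le_add (add_le_add (add_le_add le_rfl (Nat.mul_le_mul_left _ hT)) le_rfl) le_rfl)
  simp only [mem_filter, mem_univ, true_and, mem_range]
  rcases H1_gen (lev := lev) w x (fun τ a b => (a, b) ∈ (x τ).2) (fun τ a b h1 h2 => by
      have := (H1_wt (h0 τ)).2 _ h2
      rw [hk, if_pos h1] at this
      exact nb_ne this) hf hv with ⟨τ, a, h1, h2 | h2 | ⟨h2, h3⟩ | ⟨h2, h3⟩⟩ | ⟨σ, a, h1, h2, h3⟩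
  · exact .inl ⟨τ, a, h1, .inl h2⟩
  · exact .inl ⟨τ, a, h1, .inr (.inl h2)⟩
  · have := hL.le a
    refine .inl ⟨τ, a, h1, .inr (.inr (.inr ⟨lev a - 1, by omega, .inr ⟨by omega, fun b hb => ?_⟩⟩))⟩
    have := (H1_wt (h0 τ)).1.1 _ hb
    exact h3 b (by simp only at this; omega) hb
  · have := hL.le a
    by_cases h : lev a = 4 * M
    · exact .inl ⟨τ, a, h1, .inr (.inr (.inl (.inl h)))⟩
    · exact .inl ⟨τ, a, h1, .inr (.inr (.inr ⟨lev a, by omega, .inl ⟨rfl, h3⟩⟩))⟩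
  · have := hL.le a
    by_cases h : lev a + 4 ≤ 4 * M
    · exact .inr ⟨σ, a, h1, lev a, ⟨by omega, h2, h⟩, rfl, h3⟩
    · exact .inl ⟨_, a, h1, .inr (.inr (.inl (by omega)))⟩

theorem defi_u (hL : Lv lev (4 * M) t) (x : Fin (l + 1) → (I → E) × Finset (I × I))
    (h0 : ∀ τ, wt lev (hk u w) ν (x τ) ≠ 0)
    (hf : ∀ τ : Fin l, fx lev τ (x τ.succ) = fx lev τ (x τ.castSucc)) :
    (defi u (allE x)).card ≤ 2 * ((4 * M + 1) * t) + (l + 1) * (2 * t) +
      ∑ τ, ∑ j ∈ range (4 * M), (mr lev j (x τ).2 + ml lev j (x τ).2) +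
      ∑ τ : Fin l, ∑ j ∈ range (4 * M + 1) with j % 4 = 2 * (τ : ℕ) % 4 ∧ 4 ≤ j,
        samel lev j (x τ.castSucc) (x τ.succ) := by
  have hT := H1_two hL 0 2
  rw [← H1_card hL]
  refine (H1_cnt (fun τ a => u ((x τ).1 a)) (univ.filter fun a => lev a = 0 ∨ lev a = 2)
    (range (4 * M)) (fun τ j => univ.filter fun a => lev a = j ∧ ∀ y, (a, y) ∉ (x τ).2)
    (fun τ j => univ.filter fun y => lev y = j + 1 ∧ ∀ a, (a, y) ∉ (x τ).2)
    (fun τ => (range (4 * M + 1)).filter fun j => j % 4 = 2 * (τ : ℕ) % 4 ∧ 4 ≤ j)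
    (fun τ j => univ.filter fun a => lev a = j ∧ ∃ b b', (b, a) ∈ (x τ.castSucc).2 ∧
      (b', a) ∈ (x τ.succ).2 ∧ (x τ.castSucc).1 b = (x τ.succ).1 b') fun v hv => ?_).trans
    (add_le_add (add_le_add (add_le_add le_rfl (Nat.mul_le_mul_left _ hT)) le_rfl) le_rfl)
  simp only [mem_filter, mem_univ, true_and, mem_range]
  rcases H1_gen (lev := lev) u x (fun τ a b => (b, a) ∈ (x τ).2) (fun τ a b h1 h2 => by
      have h3 := (H1_wt (h0 τ)).2 _ h2
      have h4 := (H1_wt (h0 τ)).1.1 _ h2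
      simp only at h3 h4
      rw [hk, if_neg (by omega)] at h3
      exact ⟨(nb_ne h3).1.symm, (nb_ne h3).2.symm⟩) hf hv with
    ⟨τ, a, h1, h2 | h2 | ⟨h2, h3⟩ | ⟨h2, h3⟩⟩ | ⟨σ, a, h1, h2, h3⟩
  · exact .inl ⟨τ, a, h1, .inl h2⟩
  · exact .inl ⟨τ, a, h1, .inr (.inl h2)⟩
  · have := hL.le a
    refine .inl ⟨τ, a, h1, .inr (.inr (.inr ⟨lev a, by omega, .inl ⟨rfl, fun b hb => ?_⟩⟩))⟩
    have := (H1_wt (h0 τ)).1.1 _ hb
    exact h3 b (by simp only at this; omega) hb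
  · have := hL.le a
    by_cases h : lev a = 0
    · exact .inl ⟨τ, a, h1, .inr (.inr (.inl (.inl h)))⟩
    · exact .inl ⟨τ, a, h1, .inr (.inr (.inr ⟨lev a - 1, by omega, .inr ⟨by omega, h3⟩⟩))⟩
  · have := hL.le a
    by_cases h : 4 ≤ lev a
    · exact .inr ⟨σ, a, h1, lev a, ⟨by omega, h2, h⟩, rfl, h3⟩
    · exact .inl ⟨_, a, h1, .inr (.inr (.inl (by omega)))⟩

/-- Pairs of slots on equal or consecutive levels with a common vertex. -/
def near (lev : I → ℕ) (f : Fin 3 → E → B) (q : I → E) : Finset (I × I) :=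
  univ.filter fun z => (lev z.2 = lev z.1 ∨ lev z.2 = lev z.1 + 1) ∧ ∃ i, f i (q z.1) = f i (q z.2)

theorem sub_near (f : Fin 3 → E → B) (s : (I → E) × Finset (I × I))
    (h0 : wt lev (hk (f 1) (f 2)) ν s ≠ 0) : s.2 ⊆ near lev f s.1 := by
  intro z hz
  have h1 := (H1_wt h0).2 z hz
  refine mem_filter.2 ⟨mem_univ _, .inr ((H1_wt h0).1.1 z hz), ?_⟩
  unfold hk at h1
  split_ifs at h1
  · exact ⟨2, (nb_ne h1).1⟩
  · exact ⟨1, (nb_ne h1).1⟩

/-- For each slot `x`: itself, its link, and at most `2 t - 1` other slots, each near with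
probability at most `min 1 (3 d / n)` (`law_pair`); `(t - 1) d ≤ n`. So `1 + 1 + 6 + 1 ≤ 11`. -/
theorem near_le {K : ℕ → E → E → ℝ} [Nonempty E] (hK : DS K) (hν : 0 ≤ ν) {J : ℕ}
    (hL : Lv lev J t) (f : Fin 3 → E → B) {d : ℕ} (hd : ∀ i b, deg (f i) univ b ≤ d)
    (ht : (t - 1) * d ≤ Fintype.card E) :
    ∑ s, wt lev K ν s * (near lev f s.1).card ≤ 11 * Fintype.card I * ∑ s, wt lev K ν s := by
  have hw := wt_nonneg (lev := lev) hK hν
  have hn : (0 : ℝ) < Fintype.card E := by exact_mod_cast Fintype.card_pos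
  have hZ : 0 ≤ ∑ s, wt lev K ν s := sum_nonneg fun s _ => hw s
  obtain ⟨H, hH⟩ : ∃ H : E → E → ℝ, ∀ e e', H e e' = if ∃ i, f i e = f i e' then 1 else 0 :=
    ⟨_, fun _ _ => rfl⟩
  have H0 : ∀ e e', 0 ≤ H e e' := fun e e' => by rw [hH]; split_ifs <;> norm_num
  obtain ⟨m, m0, m1, m2, m3⟩ : ∃ m : ℝ, 0 ≤ m ∧ m ≤ Fintype.card E ∧ m ≤ 3 * d ∧
      ∀ e, ∑ e', H e e' ≤ m := by
    refine ⟨min (Fintype.card E) (3 * d), le_min hn.le (by positivity), min_le_left _ _,
      min_le_right _ _, fun e => ?_⟩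
    simp only [hH, sum_boole]
    refine le_min (Nat.cast_le.2 (card_le_univ _)) ?_
    have h1 : (univ.filter fun e' => ∃ i, f i e = f i e') ⊆
        univ.biUnion fun i => univ.filter fun e' => f i e' = f i e := fun e' h => by
      obtain ⟨i, hi⟩ := (mem_filter.1 h).2
      exact mem_biUnion.2 ⟨i, mem_univ _, mem_filter.2 ⟨mem_univ _, hi.symm⟩⟩
    have h2 := (card_le_card h1).trans (card_biUnion_le.trans (sum_le_sum fun i _ => hd i (f i e)))
    rw [sum_const, card_univ, Fintype.card_fin, smul_eq_mul] at h2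
    exact_mod_cast h2
  obtain ⟨Y, hY⟩ : ∃ Y : I → Finset I, ∀ x, Y x =
      (univ.filter fun y => lev y = lev x ∨ lev y = lev x + 1).erase x := ⟨_, fun _ => rfl⟩
  have p1 : ∀ s : (I → E) × Finset (I × I), wt lev K ν s * (near lev f s.1).card ≤
      ∑ x, (2 * wt lev K ν s +
        ∑ y ∈ Y x, wt lev K ν s * if (x, y) ∈ s.2 then 0 else H (s.1 x) (s.1 y)) := fun s => by
    by_cases h0 : wt lev K ν s = 0
    · simp [h0]
    have hM := (H1_wt h0).1
    simp only [← mul_sum, mul_comm (2 : ℝ), ← mul_add]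
    refine mul_le_mul_of_nonneg_left ?_ (hw s)
    rw [near, card_filter, Nat.cast_sum, ← univ_product_univ, sum_product]
    refine sum_le_sum fun x _ => ?_
    have a1 : (univ.filter fun y => (x, y) ∈ s.2).card ≤ 1 :=
      card_le_one.2 fun y hy y' hy' => congrArg Prod.snd
        (hM.2.1 _ (mem_filter.1 hy).2 _ (mem_filter.1 hy').2 rfl)
    have a2 : ∑ y, (if (x, y) ∈ s.2 then (1 : ℝ) else 0) ≤ 1 := by
      rw [sum_boole]
      exact_mod_cast a1
    have a3 : ∑ y, (if y = x then (1 : ℝ) else 0) = 1 := by simp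
    have a4 : ∑ y ∈ Y x, (if (x, y) ∈ s.2 then 0 else H (s.1 x) (s.1 y)) =
        ∑ y, if y ∈ Y x then (if (x, y) ∈ s.2 then 0 else H (s.1 x) (s.1 y)) else 0 := by
      rw [← sum_filter, filter_mem_eq_inter, univ_inter]
    refine le_trans (b := ∑ y, ((if y = x then (1 : ℝ) else 0) + (if (x, y) ∈ s.2 then 1 else 0) +
      if y ∈ Y x then (if (x, y) ∈ s.2 then 0 else H (s.1 x) (s.1 y)) else 0))
      (sum_le_sum fun y _ => ?_) ?_
    · have b0 := H0 (s.1 x) (s.1 y)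
      by_cases c : (lev y = lev x ∨ lev y = lev x + 1) ∧ ∃ i, f i (s.1 x) = f i (s.1 y)
      · rw [if_pos c, Nat.cast_one]
        by_cases c1 : y = x
        · rw [if_pos c1]
          split_ifs <;> linarith
        have c2 : y ∈ Y x := by
          rw [hY]
          exact mem_erase.2 ⟨c1, mem_filter.2 ⟨mem_univ _, c.1⟩⟩
        rw [if_neg c1, if_pos c2, hH, if_pos c.2]
        split_ifs <;> norm_num
      · rw [if_neg c, Nat.cast_zero]
        split_ifs <;> linarith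
    · rw [sum_add_distrib, sum_add_distrib, a3, a4]
      linarith
  have p2 : ∀ x, ∑ y ∈ Y x, ∑ s : (I → E) × Finset (I × I),
      wt lev K ν s * (if (x, y) ∈ s.2 then 0 else H (s.1 x) (s.1 y)) ≤
        8 * ∑ s, wt lev K ν s := fun x => by
    have t1 : 1 ≤ t := by
      rw [← hL.card _ (hL.le x)]
      exact card_pos.2 ⟨x, by simp⟩
    have t2 : ((t : ℝ) - 1) * d ≤ Fintype.card E := by
      have : (((t - 1) * d : ℕ) : ℝ) ≤ Fintype.card E := Nat.cast_le.2 ht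
      rwa [Nat.cast_mul, Nat.cast_sub t1, Nat.cast_one] at this
    have t3 : (1 : ℝ) ≤ t := by exact_mod_cast t1
    have c1 : ((Y x).card : ℝ) ≤ 2 * t := by
      rw [hY]
      exact_mod_cast card_erase_le.trans (H1_two hL _ _)
    have c2 : ∀ y ∈ Y x, ∑ s : (I → E) × Finset (I × I),
        wt lev K ν s * (if (x, y) ∈ s.2 then 0 else H (s.1 x) (s.1 y)) ≤
          (∑ s, wt lev K ν s) * m / Fintype.card E := fun y hy => by
      rw [hY] at hy
      have q1 := law_pair hK hν (mem_erase.1 hy).1.symm (mem_filter.1 (mem_erase.1 hy).2).2 H H0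
      have q2 : ∑ e, ∑ e', H e e' ≤ Fintype.card E * m :=
        (sum_le_sum fun e _ => m3 e).trans (by simp)
      rw [le_div_iff₀ hn]
      refine le_of_mul_le_mul_left ?_ hn
      have q3 := mul_le_mul_of_nonneg_left q2 hZ
      linarith
    refine (sum_le_card_nsmul _ _ _ c2).trans ?_
    rw [nsmul_eq_mul, ← mul_div_assoc, div_le_iff₀ hn]
    have c3 : ((Y x).card : ℝ) * m ≤ 8 * Fintype.card E := by
      have := mul_le_mul_of_nonneg_right c1 m0
      have := mul_le_mul_of_nonneg_left m2 (sub_nonneg.2 t3)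
      linarith
    have := mul_le_mul_of_nonneg_left c3 hZ
    linarith
  refine (sum_le_sum fun s _ => p1 s).trans ?_
  rw [sum_comm]
  refine (sum_le_card_nsmul _ _ (11 * ∑ s, wt lev K ν s) fun x _ => ?_).trans
    (le_of_eq (by rw [nsmul_eq_mul, card_univ]; ring))
  rw [sum_add_distrib, ← mul_sum, sum_comm]
  have := p2 x
  linarith

/-- Cauchy-Schwarz over the roles. -/
theorem coin_le {O R : Type} [Fintype O] [DecidableEq R] (x : O → B) (ρ : O → R) (A : Finset R)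
    (hA : ∀ o, ρ o ∈ A) :
    coin x ≤ A.card * (univ.filter fun p : O × O => ρ p.1 = ρ p.2 ∧ x p.1 = x p.2).card := by
  have key : ∀ F : Finset O, F.card ^ 2 ≤
      A.card * ((F ×ˢ F).filter fun p => ρ p.1 = ρ p.2).card := fun F => by
    rw [card_eq_sum_card_fiberwise (s := F) (f := ρ) (t := A) fun o _ => hA o,
      card_eq_sum_card_fiberwise (f := fun p : O × O => ρ p.1) (t := A) fun p _ => hA p.1]
    refine sq_sum_le_card_mul_sum_sq.trans (Nat.mul_le_mul_left _ (sum_le_sum fun r _ => ?_))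
    rw [sq, ← card_product]
    refine card_le_card fun p hp => ?_
    simp only [mem_filter, mem_product] at hp ⊢
    exact ⟨⟨⟨hp.1.1, hp.2.1⟩, hp.1.2.trans hp.2.2.symm⟩, hp.1.2⟩
  rw [coin, card_eq_sum_card_fiberwise (f := fun p : O × O => x p.1) (t := univ.image x)
      fun p _ => mem_image_of_mem x (mem_univ _),
    card_eq_sum_card_fiberwise (f := fun p : O × O => x p.1) (t := univ.image x)
      (s := univ.filter fun p : O × O => ρ p.1 = ρ p.2 ∧ x p.1 = x p.2)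
      fun p _ => mem_image_of_mem x (mem_univ _), mul_sum]
  refine sum_le_sum fun b _ => le_trans ?_ ((key (univ.filter fun o => x o = b)).trans
    (Nat.mul_le_mul_left _ (card_le_card fun p hp => ?_)))
  · rw [sq, ← card_product]
    refine card_le_card fun p hp => ?_
    simp only [mem_filter, mem_product, mem_univ, true_and] at hp ⊢
    exact ⟨hp.2, hp.1 ▸ hp.2⟩
  · simp only [mem_filter, mem_product, mem_univ, true_and] at hp ⊢
    exact ⟨⟨hp.2, hp.1.1.trans hp.1.2.symm⟩, hp.1.1⟩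

end Pool.Agent.Work.MP_78fef3_co.X
end

-- merged part: Pool.Agent.Work.MP_78fef3_co.X.Dlr
section
/-! Missing links and conditional bounds. -/

namespace Pool.Agent.Work.MP_78fef3_co.X

open Finset

variable {E I : Type} [DecidableEq E] [Fintype E] [Fintype I] [DecidableEq I]
  {lev : I → ℕ} {K : ℕ → E → E → ℝ} {ν : ℝ} {J t : ℕ}

private theorem Dl_inj {α β : Type} [Fintype α] [Fintype β] (P : α → Prop) [DecidablePred P]
    (f : α → ℝ) (g : β → ℝ) (φ : α → β) (hg : ∀ b, 0 ≤ g b)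
    (hi : ∀ a a', P a → P a' → φ a = φ a' → a = a') (hle : ∀ a, P a → f a ≤ g (φ a)) :
    ∑ a, (if P a then f a else 0) ≤ ∑ b, g b := by
  classical
  rw [← sum_filter]
  calc ∑ a ∈ univ.filter P, f a ≤ ∑ a ∈ univ.filter P, g (φ a) :=
        sum_le_sum fun a ha => hle a (mem_filter.1 ha).2
    _ = ∑ b ∈ (univ.filter P).image φ, g b :=
        (sum_image fun a ha a' ha' h => hi a a' (mem_filter.1 ha).2 (mem_filter.1 ha').2 h).symm
    _ ≤ ∑ b, g b := sum_le_sum_of_subset_of_nonneg (subset_univ _) fun b _ _ => hg b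

private theorem Dl_mr (hL : Lv lev J t) {lam : Finset (I × I)} (hM : IsM lev lam) {j : ℕ}
    (hj : j ≤ J) : mr lev j lam + (lam.filter fun l => lev l.1 = j).card = t := by
  have h1 : ((lam.filter fun l => lev l.1 = j).image Prod.fst).card =
      (lam.filter fun l => lev l.1 = j).card :=
    card_image_of_injOn fun l hl l' hl' h =>
      hM.2.1 l (mem_filter.1 hl).1 l' (mem_filter.1 hl').1 h
  rw [← h1, ← hL.card j hj, mr, ← card_union_of_disjoint]
  · congr 1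
    ext x
    simp only [mem_union, mem_filter, mem_univ, true_and, mem_image]
    constructor
    · rintro (h | ⟨l, hl, rfl⟩)
      · exact h.1
      · exact hl.2
    · intro h
      by_cases h' : ∀ y, (x, y) ∉ lam
      · exact Or.inl ⟨h, h'⟩
      · obtain ⟨y, hy⟩ := not_forall.1 h'
        exact Or.inr ⟨(x, y), ⟨not_not.1 hy, h⟩, rfl⟩
  · rw [disjoint_left]
    intro x hx hx'
    obtain ⟨l, hl, rfl⟩ := mem_image.1 hx'
    exact (mem_filter.1 hx).2.2 l.2 (mem_filter.1 hl).1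

private theorem Dl_ml (hL : Lv lev J t) {lam : Finset (I × I)} (hM : IsM lev lam) {j : ℕ}
    (hj : j < J) : ml lev j lam + (lam.filter fun l => lev l.1 = j).card = t := by
  have h1 : ((lam.filter fun l => lev l.1 = j).image Prod.snd).card =
      (lam.filter fun l => lev l.1 = j).card :=
    card_image_of_injOn fun l hl l' hl' h =>
      hM.2.2 l (mem_filter.1 hl).1 l' (mem_filter.1 hl').1 h
  rw [← h1, ← hL.card (j + 1) hj, ml, ← card_union_of_disjoint]
  · congr 1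
    ext y
    simp only [mem_union, mem_filter, mem_univ, true_and, mem_image]
    constructor
    · rintro (h | ⟨l, hl, rfl⟩)
      · exact h.1
      · rw [hM.1 l hl.1, hl.2]
    · intro h
      by_cases h' : ∀ x, (x, y) ∉ lam
      · exact Or.inl ⟨h, h'⟩
      · obtain ⟨x, hx⟩ := not_forall.1 h'
        have hx' := not_not.1 hx
        have h2 : lev y = lev x + 1 := hM.1 _ hx'
        exact Or.inr ⟨(x, y), ⟨hx', by change lev x = j; omega⟩, rfl⟩
  · rw [disjoint_left]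
    intro y hy hy'
    obtain ⟨l, hl, rfl⟩ := mem_image.1 hy'
    exact (mem_filter.1 hy).2.2 l.1 (mem_filter.1 hl).1

/-- Both numbers are `t` minus the number of links that start on level `j`. -/
theorem ml_eq (hL : Lv lev J t) {lam : Finset (I × I)} (hM : IsM lev lam) {j : ℕ} (hj : j < J) :
    ml lev j lam = mr lev j lam := by
  have h1 := Dl_mr hL hM hj.le
  have h2 := Dl_ml hL hM hj
  omega

/-- The weight of a shape. -/
private noncomputable def Dl_sw (lev : I → ℕ) (κ : ℝ) (lam : Finset (I × I)) : ℝ :=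
  if IsM lev lam then κ ^ lam.card else 0

omit [Fintype I] [DecidableEq I] in
private theorem Dl_sw0 {κ : ℝ} (hκ : 0 ≤ κ) (lam : Finset (I × I)) : 0 ≤ Dl_sw lev κ lam := by
  unfold Dl_sw
  split_ifs
  · exact pow_nonneg hκ _
  · exact le_rfl

private theorem Dl_shape [Nonempty E] (hK : DS K) {κ : ℝ} (hκ : ν = κ * Fintype.card E)
    (g : Finset (I × I) → ℝ) :
    ∑ s, wt lev K ν s * g s.2 =
      (Fintype.card E : ℝ) ^ Fintype.card I * ∑ lam, Dl_sw lev κ lam * g lam := by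
  have hn : (0 : ℝ) < Fintype.card E := by exact_mod_cast Fintype.card_pos
  rw [Fintype.sum_prod_type_right, mul_sum]
  refine sum_congr rfl fun lam _ => ?_
  change ∑ q, wt lev K ν (q, lam) * g lam = _
  rw [← sum_mul, ← mul_assoc]
  congr 1
  unfold Dl_sw
  by_cases hM : IsM lev lam
  · rw [if_pos hM]
    apply mul_left_cancel₀ (pow_pos hn lam.card).ne'
    rw [shape hK lam hM, hκ, mul_pow]
    ring
  · rw [if_neg hM, mul_zero]
    exact sum_eq_zero fun q _ => if_neg hM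

omit [Fintype I] in
private theorem Dl_ins {lam : Finset (I × I)} (hM : IsM lev lam) {a b : I}
    (hab : lev b = lev a + 1) (ha : ∀ y, (a, y) ∉ lam) (hb : ∀ x, (x, b) ∉ lam) :
    IsM lev (insert (a, b) lam) := by
  refine ⟨fun l hl => ?_, fun l hl l' hl' h => ?_, fun l hl l' hl' h => ?_⟩
  · rcases mem_insert.1 hl with rfl | hl
    · exact hab
    · exact hM.1 l hl
  · rcases mem_insert.1 hl with rfl | hl <;> rcases mem_insert.1 hl' with rfl | hl'
    · rfl
    · exact absurd (show (a, l'.2) ∈ lam from (show a = l'.1 from h) ▸ hl') (ha _)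
    · exact absurd (show (a, l.2) ∈ lam from (show l.1 = a from h) ▸ hl) (ha _)
    · exact hM.2.1 l hl l' hl' h
  · rcases mem_insert.1 hl with rfl | hl <;> rcases mem_insert.1 hl' with rfl | hl'
    · rfl
    · exact absurd (show (l'.1, b) ∈ lam from (show b = l'.2 from h) ▸ hl') (hb _)
    · exact absurd (show (l.1, b) ∈ lam from (show l.2 = b from h) ▸ hl) (hb _)
    · exact hM.2.2 l hl l' hl' h

private theorem Dl_sq (hL : Lv lev J t) {κ : ℝ} (hκ : 0 ≤ κ) {j : ℕ} (hj : j < J) :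
    ∑ lam, Dl_sw lev κ lam * (κ * (mr lev j lam : ℝ) ^ 2) ≤ ∑ lam, Dl_sw lev κ lam * t := by
  classical
  have h1 : ∀ lam, Dl_sw lev κ lam * (κ * (mr lev j lam : ℝ) ^ 2) =
      ∑ p : I × I, if IsM lev lam ∧ (lev p.1 = j ∧ ∀ y, (p.1, y) ∉ lam) ∧
        (lev p.2 = j + 1 ∧ ∀ x, (x, p.2) ∉ lam) then κ ^ (lam.card + 1) else 0 := by
    intro lam
    unfold Dl_sw
    by_cases hM : IsM lev lam
    · rw [if_pos hM, ← sum_filter, sum_const, nsmul_eq_mul]
      have h2 : (univ.filter fun p : I × I => IsM lev lam ∧ (lev p.1 = j ∧ ∀ y, (p.1, y) ∉ lam) ∧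
          (lev p.2 = j + 1 ∧ ∀ x, (x, p.2) ∉ lam)) =
          (univ.filter fun x => lev x = j ∧ ∀ y, (x, y) ∉ lam) ×ˢ
            (univ.filter fun y => lev y = j + 1 ∧ ∀ x, (x, y) ∉ lam) := by
        ext p
        simp only [mem_filter, mem_univ, true_and, mem_product, hM]
      rw [h2, card_product]
      change _ = ((mr lev j lam * ml lev j lam : ℕ) : ℝ) * _
      rw [ml_eq hL hM hj]
      push_cast
      ring
    · rw [if_neg hM, zero_mul]
      exact (sum_eq_zero fun p _ => if_neg fun h => hM h.1).symm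
  have h2 : ∀ lam, ∑ p : I × I, (if p ∈ lam ∧ lev p.1 = j then Dl_sw lev κ lam else 0) ≤
      Dl_sw lev κ lam * t := by
    intro lam
    rw [← sum_filter, sum_const, nsmul_eq_mul, mul_comm]
    by_cases hM : IsM lev lam
    · refine mul_le_mul_of_nonneg_left ?_ (Dl_sw0 hκ lam)
      have h3 : (univ.filter fun p : I × I => p ∈ lam ∧ lev p.1 = j) =
          lam.filter fun l => lev l.1 = j := by
        ext p
        simp only [mem_filter, mem_univ, true_and]
      have h4 := Dl_mr hL hM hj.le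
      rw [h3]
      exact_mod_cast (by omega : (lam.filter fun l => lev l.1 = j).card ≤ t)
    · rw [show Dl_sw lev κ lam = 0 from if_neg hM, zero_mul, zero_mul]
  refine le_trans ?_ (sum_le_sum fun lam _ => h2 lam)
  rw [sum_congr rfl fun lam _ => h1 lam, sum_comm, sum_comm (s := univ) (t := univ)
    (f := fun (lam : Finset (I × I)) (p : I × I) =>
      if p ∈ lam ∧ lev p.1 = j then Dl_sw lev κ lam else 0)]
  refine sum_le_sum fun p _ => ?_
  refine Dl_inj _ _ _ (fun lam => insert p lam) (fun lam => ?_) (fun l l' h h' e => ?_)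
    fun lam h => ?_
  · split_ifs
    · exact Dl_sw0 hκ lam
    · exact le_rfl
  · have e' : insert p l = insert p l' := e
    rw [← erase_insert (h.2.1.2 p.2 : p ∉ l), e', erase_insert (h'.2.1.2 p.2 : p ∉ l')]
  · have hM : IsM lev (insert p lam) :=
      Dl_ins h.1 (by rw [h.2.2.1, h.2.1.1]) h.2.1.2 h.2.2.2
    rw [if_pos ⟨mem_insert_self _ _, h.2.1.1⟩, show Dl_sw lev κ (insert p lam) = _ from if_pos hM,
      card_insert_of_notMem (h.2.1.2 p.2 : p ∉ lam)]

/-- With `sw lam = (ν / n) ^ |lam| = (F ^ 2 / t) ^ |lam|` (see `shape`), the injection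
`(lam, a, b) ↦ (insert (a, b) lam, (a, b))` gives `(F ^ 2 / t) ∑ sw * mr ^ 2 ≤ t ∑ sw`; then
`x ≤ t / F + F x ^ 2 / t`. -/
theorem miss [Nonempty E] (hK : DS K) (hL : Lv lev J t) (ht : 1 ≤ t) {F : ℕ} (hF : 1 ≤ F)
    (hν : ν * t = F ^ 2 * Fintype.card E) {j : ℕ} (hj : j < J) :
    F * ∑ s, wt lev K ν s * mr lev j s.2 ≤ 2 * t * ∑ s, wt lev K ν s := by
  have ht0 : (0 : ℝ) < t := by exact_mod_cast ht
  have hF0 : (0 : ℝ) < F := by exact_mod_cast hF
  have hκ0 : (0 : ℝ) ≤ (F : ℝ) ^ 2 / t := by positivity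
  have hκ : ν = (F : ℝ) ^ 2 / t * Fintype.card E := by
    rw [div_mul_eq_mul_div, eq_div_iff ht0.ne', hν]
  have h1 := Dl_shape (lev := lev) hK hκ fun lam => (mr lev j lam : ℝ)
  have h2 := Dl_shape (lev := lev) hK hκ fun _ => (1 : ℝ)
  simp only [mul_one] at h2
  have h3 := Dl_sq hL hκ0 hj
  have h4 : F * ∑ lam, Dl_sw lev ((F : ℝ) ^ 2 / t) lam * (mr lev j lam : ℝ) ≤
      ∑ lam, Dl_sw lev ((F : ℝ) ^ 2 / t) lam * t +
        ∑ lam, Dl_sw lev ((F : ℝ) ^ 2 / t) lam * ((F : ℝ) ^ 2 / t * (mr lev j lam : ℝ) ^ 2) := by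
    rw [mul_sum, ← sum_add_distrib]
    refine sum_le_sum fun lam _ => ?_
    rw [← mul_add, mul_left_comm]
    refine mul_le_mul_of_nonneg_left ?_ (Dl_sw0 hκ0 lam)
    have hx : (0 : ℝ) ≤ F * mr lev j lam := by positivity
    have h5 : (F : ℝ) ^ 2 / t * (mr lev j lam : ℝ) ^ 2 = (F * mr lev j lam) ^ 2 / t := by ring
    rw [h5, ← sub_nonneg]
    have h6 : (t : ℝ) + (F * mr lev j lam) ^ 2 / t - F * mr lev j lam =
        ((t - F * mr lev j lam) ^ 2 + t * (F * mr lev j lam)) / t := by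
      field_simp
      ring
    rw [h6]
    positivity
  rw [← sum_mul] at h3 h4
  rw [h1, h2, mul_left_comm, mul_left_comm (2 * (t : ℝ))]
  refine mul_le_mul_of_nonneg_left ?_ (by positivity)
  linarith

omit [DecidableEq E] [Fintype E] [Fintype I] [DecidableEq I] in
private theorem Dl_empty (q : I → E) : wt lev K ν (q, ∅) = 1 := by
  have h : IsM lev (∅ : Finset (I × I)) :=
    ⟨fun _ h => absurd h (notMem_empty _), fun _ h => absurd h (notMem_empty _),
      fun _ h => absurd h (notMem_empty _)⟩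
  exact (if_pos h).trans prod_empty

/-- States without links have weight one. -/
theorem dlr_Z (hK : DS K) (hν : 0 ≤ ν) :
    (Fintype.card E : ℝ) ^ Fintype.card I ≤ ∑ s, wt lev K ν s := by
  have h := Dl_inj (fun _ : I → E => True) (fun _ => 1) (wt lev K ν) (fun q => (q, ∅))
    (wt_nonneg hK hν) (fun a a' _ _ e => (Prod.ext_iff.1 e).1) fun q _ => (Dl_empty q).ge
  simpa only [if_true, sum_const, card_univ, Fintype.card_fun, nsmul_eq_mul, mul_one,
    Nat.cast_pow] using h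

theorem dlr_cm (hK : DS K) (hν : 0 ≤ ν) (τ : ℕ) (s : (I → E) × Finset (I × I)) :
    (Fintype.card E : ℝ) ^ (univ.filter fun x => lev x % 4 ≠ 2 * τ % 4).card ≤
      cm (wt lev K ν) (fx lev τ) s := by
  have h := Dl_inj (fun _ : {x // lev x % 4 ≠ 2 * τ % 4} → E => True) (fun _ => 1)
    (fun s' => if fx lev τ s' = fx lev τ s then wt lev K ν s' else 0)
    (fun r => (fun x => if h : lev x % 4 = 2 * τ % 4 then s.1 x else r ⟨x, h⟩, ∅))
    (fun s' => by
      split_ifs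
      · exact wt_nonneg hK hν s'
      · exact le_rfl)
    (fun r r' _ _ e => funext fun x => by
      have h := congrFun (Prod.ext_iff.1 e).1 x.1
      simpa only [dif_neg x.2] using h)
    fun r _ => by
      rw [if_pos, Dl_empty]
      funext x
      unfold fx
      split_ifs with h
      · simp only [dif_pos h]
      · rfl
  unfold cm
  simpa only [if_true, sum_const, card_univ, Fintype.card_fun, nsmul_eq_mul, mul_one,
    Nat.cast_pow, Fintype.card_subtype] using h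

private theorem Dl_par {M : ℕ} (hL : Lv lev (4 * M) t) {lam : Finset (I × I)} (hM : IsM lev lam)
    (p : ℕ) : (lam.filter fun l => lev l.1 % 2 = p).card ≤ 2 * M * t := by
  have h1 : (lam.filter fun l => lev l.1 % 2 = p) ⊆
      (range (2 * M)).biUnion fun i => lam.filter fun l => lev l.1 = 2 * i + p := by
    intro l hl
    obtain ⟨h, h'⟩ := mem_filter.1 hl
    have h2 := hM.1 l h
    have h3 := hL.le l.2
    exact mem_biUnion.2 ⟨lev l.1 / 2, mem_range.2 (by omega), mem_filter.2 ⟨h, by omega⟩⟩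
  refine (card_le_card h1).trans ((card_biUnion_le_card_mul _ _ t fun i _ => ?_).trans
    (by rw [card_range]))
  by_cases h : 2 * i + p ≤ 4 * M
  · have := Dl_mr hL hM h
    omega
  · rw [filter_false_of_mem, card_empty]
    · exact Nat.zero_le _
    · intro l _
      have := hL.le l.1
      omega

/-- At most `2 M t` links start on even levels and at most `2 M t` on odd levels. -/
theorem dlr_max {M : ℕ} {a b : ℝ} (hK : DS K) (hν : 0 ≤ ν) (hL : Lv lev (4 * M) t)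
    (ha : ∀ j e e', j % 2 = 0 → K j e e' ≤ a) (hb : ∀ j e e', j % 2 = 1 → K j e e' ≤ b)
    (ha1 : 1 ≤ ν * a) (hb1 : 1 ≤ ν * b) (s : (I → E) × Finset (I × I)) :
    wt lev K ν s ≤ (ν * a * (ν * b)) ^ (2 * M * t) := by
  have ha0 : 0 ≤ ν * a := zero_le_one.trans ha1
  have hb0 : 0 ≤ ν * b := zero_le_one.trans hb1
  unfold wt
  split_ifs with hM
  · have key : ∀ (p : ℕ) (c : ℝ), (∀ j e e', j % 2 = p → K j e e' ≤ c) → 1 ≤ ν * c →
        ∏ l ∈ s.2.filter (fun l => lev l.1 % 2 = p), ν * K (lev l.1) (s.1 l.1) (s.1 l.2) ≤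
          (ν * c) ^ (2 * M * t) := by
      intro p c hc hc1
      refine (prod_le_prod (g := fun _ => ν * c)
        (fun l _ => mul_nonneg hν (hK.nonneg _ _ _))
        fun l hl => mul_le_mul_of_nonneg_left (hc _ _ _ (mem_filter.1 hl).2) hν).trans ?_
      rw [prod_const]
      exact pow_le_pow_right₀ hc1 (Dl_par hL hM p)
    have h1 : s.2.filter (fun l => ¬ lev l.1 % 2 = 0) = s.2.filter (fun l => lev l.1 % 2 = 1) :=
      filter_congr fun l _ => by omega
    rw [← prod_filter_mul_prod_filter_not s.2 (fun l => lev l.1 % 2 = 0), h1, mul_pow]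
    exact mul_le_mul (key 0 a ha ha1) (key 1 b hb hb1)
      (prod_nonneg fun l _ => mul_nonneg hν (hK.nonneg _ _ _)) (pow_nonneg ha0 _)
  · exact pow_nonneg (mul_nonneg ha0 hb0) _

/-- Remove the four links (factor at most `ν ^ 4 a ^ 2 b ^ 2`) and give the three inner slots,
which are not kept and now carry no link, arbitrary values: an injection into the class. -/
theorem dlr_chain {a b : ℝ} (hK : DS K) (hν : 0 ≤ ν)
    (ha : ∀ j e e', j % 2 = 0 → K j e e' ≤ a) (hb : ∀ j e e', j % 2 = 1 → K j e e' ≤ b)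
    (τ : ℕ) (s : (I → E) × Finset (I × I)) (x0 x1 x2 x3 x4 : I) (h0 : lev x0 % 4 = 2 * τ % 4)
    (e1 e2 e3 : E) :
    (Fintype.card E : ℝ) ^ 3 * ∑ s', (if fx lev τ s' = fx lev τ s ∧ (x0, x1) ∈ s'.2 ∧
        (x1, x2) ∈ s'.2 ∧ (x2, x3) ∈ s'.2 ∧ (x3, x4) ∈ s'.2 ∧ s'.1 x1 = e1 ∧ s'.1 x2 = e2 ∧
        s'.1 x3 = e3 then wt lev K ν s' else 0) ≤
      (ν * a * (ν * b)) ^ 2 * cm (wt lev K ν) (fx lev τ) s := by
  classical
  have ha0 : 0 ≤ ν * a := mul_nonneg hν ((hK.nonneg 0 e1 e1).trans (ha 0 _ _ rfl))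
  have hb0 : 0 ≤ ν * b := mul_nonneg hν ((hK.nonneg 1 e1 e1).trans (hb 1 _ _ rfl))
  obtain ⟨Q, hQ⟩ : ∃ Q : Finset (I × I), Q = {(x0, x1), (x1, x2), (x2, x3), (x3, x4)} := ⟨_, rfl⟩
  obtain ⟨P, hP⟩ : ∃ P : (I → E) × Finset (I × I) → Prop, ∀ s', P s' ↔
      (fx lev τ s' = fx lev τ s ∧ (x0, x1) ∈ s'.2 ∧ (x1, x2) ∈ s'.2 ∧ (x2, x3) ∈ s'.2 ∧
        (x3, x4) ∈ s'.2 ∧ s'.1 x1 = e1 ∧ s'.1 x2 = e2 ∧ s'.1 x3 = e3) := ⟨_, fun _ => Iff.rfl⟩
  have hsub : ∀ s', P s' → Q ⊆ s'.2 := by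
    intro s' h l hl
    obtain ⟨-, a1, a2, a3, a4, -⟩ := (hP s').1 h
    simp only [hQ, mem_insert, mem_singleton] at hl
    rcases hl with rfl | rfl | rfl | rfl <;> assumption
  have hlev : ∀ s', P s' → IsM lev s'.2 → lev x1 = lev x0 + 1 ∧ lev x2 = lev x0 + 2 ∧
      lev x3 = lev x0 + 3 := by
    intro s' h hM
    obtain ⟨-, a1, a2, a3, -⟩ := (hP s').1 h
    have b1 : lev x1 = lev x0 + 1 := hM.1 _ a1
    have b2 : lev x2 = lev x1 + 1 := hM.1 _ a2
    have b3 : lev x3 = lev x2 + 1 := hM.1 _ a3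
    omega
  have h := Dl_inj (fun z : ((I → E) × Finset (I × I)) × (E × E × E) => P z.1 ∧ IsM lev z.1.2)
    (fun z => wt lev K ν z.1)
    (fun s' => (ν * a * (ν * b)) ^ 2 * if fx lev τ s' = fx lev τ s then wt lev K ν s' else 0)
    (fun z => (fun x => if x = x1 then z.2.1 else if x = x2 then z.2.2.1 else
      if x = x3 then z.2.2.2 else z.1.1 x, z.1.2 \ Q))
    (fun s' => mul_nonneg (sq_nonneg _) (by
      split_ifs
      · exact wt_nonneg hK hν s'
      · exact le_rfl)) ?_ ?_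
  · rw [← mul_sum] at h
    refine le_trans (le_of_eq (Eq.symm ?_)) h
    rw [Fintype.sum_prod_type, mul_sum]
    refine sum_congr rfl fun s' _ => Eq.symm ?_
    simp only [sum_const, card_univ, Fintype.card_prod, nsmul_eq_mul]
    push_cast
    by_cases h1 : P s'
    · rw [if_pos ((hP s').1 h1)]
      by_cases hM : IsM lev s'.2
      · rw [if_pos ⟨h1, hM⟩]
        ring
      · rw [if_neg fun h => hM h.2, show wt lev K ν s' = 0 from if_neg hM, mul_zero, mul_zero]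
    · rw [if_neg fun h => h1 ((hP s').2 h), if_neg (show ¬ (P s' ∧ IsM lev s'.2) from
        fun h => h1 h.1), mul_zero, mul_zero]
  · rintro ⟨⟨q, lam⟩, f1, f2, f3⟩ ⟨⟨q', lam'⟩, g1, g2, g3⟩ ⟨h1, hM⟩ ⟨h1', -⟩ e
    obtain ⟨l1, l2, l3⟩ := hlev _ h1 hM
    have n21 : x2 ≠ x1 := fun h => by rw [h] at l2; omega
    have n31 : x3 ≠ x1 := fun h => by rw [h] at l3; omega
    have n32 : x3 ≠ x2 := fun h => by rw [h] at l3; omega
    obtain ⟨ea, eb⟩ := Prod.ext_iff.1 e
    have c1 := congrFun ea x1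
    have c2 := congrFun ea x2
    have c3 := congrFun ea x3
    simp only [if_true, if_neg n21, if_neg n31, if_neg n32] at c1 c2 c3
    obtain ⟨-, -, -, -, -, a1, a2, a3⟩ := (hP _).1 h1
    obtain ⟨-, -, -, -, -, b1, b2, b3⟩ := (hP _).1 h1'
    have hq : q = q' := by
      funext x
      by_cases d1 : x = x1
      · rw [d1]; exact a1.trans b1.symm
      by_cases d2 : x = x2
      · rw [d2]; exact a2.trans b2.symm
      by_cases d3 : x = x3
      · rw [d3]; exact a3.trans b3.symm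
      have c := congrFun ea x
      simpa only [if_neg d1, if_neg d2, if_neg d3] using c
    have hl : lam = lam' := by
      have eb' : lam \ Q = lam' \ Q := eb
      have s1 : Q ⊆ lam := hsub _ h1
      have s2 : Q ⊆ lam' := hsub _ h1'
      rw [← sdiff_union_of_subset s1, eb', sdiff_union_of_subset s2]
    rw [hq, hl, c1, c2, c3]
  · rintro ⟨⟨q, lam⟩, f1, f2, f3⟩ ⟨h1, hM⟩
    obtain ⟨l1, l2, l3⟩ := hlev _ h1 hM
    have s1 : Q ⊆ lam := hsub _ h1
    obtain ⟨a0, a1, a2, a3, a4, -⟩ := (hP _).1 h1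
    have hM0 : IsM lev lam := hM
    have hM' : IsM lev (lam \ Q) :=
      ⟨fun l hl => hM0.1 l (mem_sdiff.1 hl).1,
        fun l hl l' hl' => hM0.2.1 l (mem_sdiff.1 hl).1 l' (mem_sdiff.1 hl').1,
        fun l hl l' hl' => hM0.2.2 l (mem_sdiff.1 hl).1 l' (mem_sdiff.1 hl').1⟩
    have hf : ∀ l ∈ lam \ Q, ∀ l' ∈ Q, l.1 ≠ l'.1 ∧ l.2 ≠ l'.2 := fun l hl l' hl' =>
      ⟨fun h => (mem_sdiff.1 hl).2 (hM0.2.1 l (mem_sdiff.1 hl).1 l' (s1 hl') h ▸ hl'),
        fun h => (mem_sdiff.1 hl).2 (hM0.2.2 l (mem_sdiff.1 hl).1 l' (s1 hl') h ▸ hl')⟩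
    have m0 : (x0, x1) ∈ Q := by simp [hQ]
    have m1 : (x1, x2) ∈ Q := by simp [hQ]
    have m2 : (x2, x3) ∈ Q := by simp [hQ]
    have m3 : (x3, x4) ∈ Q := by simp [hQ]
    rw [if_pos]
    · unfold wt
      simp only [if_pos hM0, if_pos hM']
      rw [← prod_sdiff s1, mul_comm]
      refine mul_le_mul ?_ (le_of_eq (prod_congr rfl fun l hl => ?_))
        (prod_nonneg fun l _ => mul_nonneg hν (hK.nonneg _ _ _)) (sq_nonneg _)
      · have n01 : x0 ≠ x1 := fun h => by rw [← h] at l1; omega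
        have n02 : x0 ≠ x2 := fun h => by rw [← h] at l2; omega
        have n03 : x0 ≠ x3 := fun h => by rw [← h] at l3; omega
        have n12 : x1 ≠ x2 := fun h => by rw [← h] at l2; omega
        have n13 : x1 ≠ x3 := fun h => by rw [← h] at l3; omega
        have n23 : x2 ≠ x3 := fun h => by rw [← h] at l3; omega
        rw [hQ, prod_insert (by simp [n01, n02, n03]), prod_insert (by simp [n12, n13]),
          prod_insert (by simp [n23]), prod_singleton]
        have k : ∀ (x y : I) (c : ℝ), K (lev x) (q x) (q y) ≤ c →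
            0 ≤ ν * K (lev x) (q x) (q y) ∧ ν * K (lev x) (q x) (q y) ≤ ν * c := fun x y c h =>
          ⟨mul_nonneg hν (hK.nonneg _ _ _), mul_le_mul_of_nonneg_left h hν⟩
        have k0 := k x0 x1 a (ha _ _ _ (by omega))
        have k1 := k x1 x2 b (hb _ _ _ (by omega))
        have k2 := k x2 x3 a (ha _ _ _ (by omega))
        have k3 := k x3 x4 b (hb _ _ _ (by omega))
        refine (mul_le_mul k0.2 (mul_le_mul k1.2 (mul_le_mul k2.2 k3.2 k3.1 ha0)
          (mul_nonneg k2.1 k3.1) hb0) (mul_nonneg k1.1 (mul_nonneg k2.1 k3.1)) ha0).trans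
          (le_of_eq (by ring))
      · simp only [if_neg (hf l hl _ m1).1, if_neg (hf l hl _ m2).1, if_neg (hf l hl _ m3).1,
          if_neg (hf l hl _ m0).2, if_neg (hf l hl _ m1).2, if_neg (hf l hl _ m2).2]
    · rw [← a0]
      funext x
      unfold fx
      split_ifs with h
      · have d1 : x ≠ x1 := fun e => by rw [e] at h; omega
        have d2 : x ≠ x2 := fun e => by rw [e] at h; omega
        have d3 : x ≠ x3 := fun e => by rw [e] at h; omega
        simp only [if_neg d1, if_neg d2, if_neg d3]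
      · rfl

end Pool.Agent.Work.MP_78fef3_co.X
end

-- merged part: Pool.Agent.Work.MP_78fef3_co.X.Same
section
/-! Links that are repeated in consecutive states. -/

namespace Pool.Agent.Work.MP_78fef3_co.X

open Finset Pool.Agent.Work.MP_78fef3_co.S

variable {E B I : Type} [DecidableEq E] [DecidableEq B] [Fintype E] [Fintype I] [DecidableEq I]
  {lev : I → ℕ} {u w : E → B} {d1 d2 δ1 δ2 : ℕ} {ν : ℝ} {J t : ℕ}

theorem cod_sum (h : Host u w d1 d2 δ1 δ2) :
    ∑ e, ∑ e', cod u w (u e) (u e') ≤ Fintype.card E * (d1 * d1 * d2) := by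
  have a1 : ∀ e e', cod u w (u e) (u e') ≤ ∑ x : E × E, (if u e = u x.1 then 1 else 0) *
      (if u e' = u x.2 then 1 else 0) * (if w x.2 = w x.1 then 1 else 0) := fun e e' => by
    unfold cod
    rw [card_filter]
    refine sum_le_sum fun x _ => ?_
    split_ifs with a b c d <;> first | omega | (exfalso; aesop)
  have a2 : ∀ b, ∑ e, (if u e = b then 1 else 0) ≤ d1 := fun b => by
    rw [← card_filter]; exact h.max1 b
  have a3 : ∀ b, ∑ e, (if w e = b then 1 else 0) ≤ d2 := fun b => by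
    rw [← card_filter]; exact h.max2 b
  calc _ ≤ ∑ e, ∑ e', ∑ x : E × E, (if u e = u x.1 then 1 else 0) *
        (if u e' = u x.2 then 1 else 0) * (if w x.2 = w x.1 then 1 else 0) :=
        sum_le_sum fun e _ => sum_le_sum fun e' _ => a1 e e'
    _ = ∑ x : E × E, (∑ e, if u e = u x.1 then 1 else 0) *
        (∑ e', if u e' = u x.2 then 1 else 0) * (if w x.2 = w x.1 then 1 else 0) := by
        simp only [sum_mul_sum]
        simp only [sum_mul]
        exact (sum_congr rfl fun e _ => sum_comm).trans sum_comm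
    _ ≤ ∑ x : E × E, d1 * d1 * (if w x.2 = w x.1 then 1 else 0) :=
        sum_le_sum fun x _ => Nat.mul_le_mul_right _ (Nat.mul_le_mul (a2 _) (a2 _))
    _ = ∑ p, d1 * d1 * ∑ r, (if w r = w p then 1 else 0) := by
        rw [Fintype.sum_prod_type]
        simp only [mul_sum]
    _ ≤ ∑ _p : E, d1 * d1 * d2 := sum_le_sum fun p _ => Nat.mul_le_mul_left _ (a3 _)
    _ = _ := by rw [sum_const, card_univ, smul_eq_mul]

/-- The chains of `s'` that start with a link of `s`. -/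
def chn (s s' : (I → E) × Finset (I × I)) (a b c d a' : I) (p r : E) : Prop :=
  (a, b) ∈ s.2 ∧ (b, c) ∈ s.2 ∧ (d, a') ∈ s.2 ∧ ∃ b' c' d', (a, b') ∈ s'.2 ∧ (b', c') ∈ s'.2 ∧
    (c', d') ∈ s'.2 ∧ (d', a') ∈ s'.2 ∧ s'.1 b' = s.1 b ∧ s'.1 c' = p ∧ s'.1 d' = r

open Classical in
private theorem Sa_rel {R : I → I → Prop} (hR : ∀ a a' y, R a y → R a' y → a = a')
    (T : Finset I) (g : I → ℕ) :
    (univ.filter fun a => ∃ y ∈ T, R a y ∧ 1 ≤ g y).card ≤ ∑ y ∈ T, g y := by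
  calc _ ≤ (T.filter fun y => 1 ≤ g y).card := by
        refine card_le_card_of_forall_subsingleton R (fun a ha => ?_) fun y _ a ha a' ha' => ?_
        · obtain ⟨y, h1, h2, h3⟩ := (mem_filter.1 ha).2
          exact ⟨y, mem_filter.2 ⟨h1, h3⟩, h2⟩
        · exact hR a a' y ha.2 ha'.2
    _ ≤ _ := by
        rw [card_filter]
        refine sum_le_sum fun y _ => ?_
        split_ifs <;> omega

open Classical in
private theorem Sa_rel1 {R : I → I → Prop} (hR : ∀ a a' y, R a y → R a' y → a = a')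
    (T : Finset I) : (univ.filter fun a => ∃ y ∈ T, R a y ∧ 1 ≤ 1).card ≤ T.card := by
  rw [card_eq_sum_ones T]
  exact Sa_rel hR T fun _ => 1

private theorem Sa_wt {K : ℕ → E → E → ℝ} {s : (I → E) × Finset (I × I)}
    (hs : wt lev K ν s ≠ 0) :
    IsM lev s.2 ∧ ∀ x y, (x, y) ∈ s.2 → K (lev x) (s.1 x) (s.1 y) ≠ 0 := by
  unfold wt at hs
  by_cases h : IsM lev s.2
  · rw [if_pos h] at hs
    exact ⟨h, fun x y hxy => right_ne_zero_of_mul (prod_ne_zero_iff.1 hs (x, y) hxy)⟩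
  · exact absurd (if_neg h) hs

private theorem Sa_l {lam : Finset (I × I)} (h : IsM lev lam) {a a' y : I} (h1 : (a, y) ∈ lam)
    (h2 : (a', y) ∈ lam) : a = a' := congrArg Prod.fst (h.2.2 _ h1 _ h2 rfl)

private theorem Sa_r {lam : Finset (I × I)} (h : IsM lev lam) {a y y' : I} (h1 : (a, y) ∈ lam)
    (h2 : (a, y') ∈ lam) : y = y' := congrArg Prod.snd (h.2.1 _ h1 _ h2 rfl)

private theorem Sa_v {lam : Finset (I × I)} (h : IsM lev lam) {a y : I} (h1 : (a, y) ∈ lam) :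
    lev y = lev a + 1 := h.1 _ h1

open Classical in
/-- Deterministic part: five kinds of missing links (each injects into a set counted by `mr` or
`ml`), a heavy own pair, or a full chain whose two inner edges form a path counted by `cod`. -/
theorem same_det {τ j : ℕ} (c0 : ℕ) (hj : j % 4 = 2 * τ % 4) (s s' : (I → E) × Finset (I × I))
    (hs : wt lev (hk u w) ν s ≠ 0) (hs' : wt lev (hk u w) ν s' ≠ 0)
    (hf : fx lev τ s' = fx lev τ s) :
    same lev j s s' ≤ mr lev (j + 1) s.2 + ml lev (j + 3) s.2 + mr lev (j + 1) s'.2 +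
      mr lev (j + 2) s'.2 + mr lev (j + 3) s'.2 +
      (∑ c with lev c = j + 2, ∑ d,
        if (c, d) ∈ s.2 then (if c0 < cod u w (u (s.1 c)) (u (s.1 d)) then 1 else 0) else 0) +
      ∑ c with lev c = j + 2, ∑ d with lev d = j + 3,
        if (c, d) ∈ s.2 ∧ c0 < cod u w (u (s.1 c)) (u (s.1 d)) then 0 else
          ∑ x : E × E with u x.1 = u (s.1 c) ∧ u x.2 = u (s.1 d) ∧ w x.1 = w x.2 ∧ x.1 ≠ x.2,
            if ∃ a b a', lev a = j ∧ chn s s' a b c d a' x.1 x.2 then 1 else 0 := by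
  obtain ⟨m, k⟩ := Sa_wt hs
  obtain ⟨m', k'⟩ := Sa_wt hs'
  have ku : ∀ {z : (I → E) × Finset (I × I)} {x y : I}, lev x % 2 = 1 →
      hk u w (lev x) (z.1 x) (z.1 y) ≠ 0 → u (z.1 x) = u (z.1 y) := fun a b => by
    unfold hk at b
    rw [if_neg (by omega)] at b
    exact (nb_ne b).1
  have z1 := Sa_rel1 (R := fun a y => (a, y) ∈ s.2) (fun a a' y h1 h2 => Sa_l m h1 h2)
    (univ.filter fun x => lev x = j + 1 ∧ ∀ y, (x, y) ∉ s.2)
  have z2 := Sa_rel1 (R := fun a y => ∃ b c d, (a, b) ∈ s'.2 ∧ (b, c) ∈ s'.2 ∧ (c, d) ∈ s'.2 ∧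
      (d, y) ∈ s'.2) (by
      rintro a a' y ⟨b, c, d, h1, h2, h3, h4⟩ ⟨b', c', d', g1, g2, g3, g4⟩
      obtain rfl := Sa_l m' h4 g4
      obtain rfl := Sa_l m' h3 g3
      obtain rfl := Sa_l m' h2 g2
      exact Sa_l m' h1 g1)
    (univ.filter fun y => lev y = j + 3 + 1 ∧ ∀ x, (x, y) ∉ s.2)
  have z3 := Sa_rel1 (R := fun a y => (a, y) ∈ s'.2) (fun a a' y h1 h2 => Sa_l m' h1 h2)
    (univ.filter fun x => lev x = j + 1 ∧ ∀ y, (x, y) ∉ s'.2)
  have z4 := Sa_rel1 (R := fun a y => ∃ b, (a, b) ∈ s'.2 ∧ (b, y) ∈ s'.2) (by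
      rintro a a' y ⟨b, h1, h2⟩ ⟨b', g1, g2⟩
      obtain rfl := Sa_l m' h2 g2
      exact Sa_l m' h1 g1)
    (univ.filter fun x => lev x = j + 2 ∧ ∀ y, (x, y) ∉ s'.2)
  have z5 := Sa_rel1 (R := fun a y => ∃ b c, (a, b) ∈ s'.2 ∧ (b, c) ∈ s'.2 ∧ (c, y) ∈ s'.2) (by
      rintro a a' y ⟨b, c, h1, h2, h3⟩ ⟨b', c', g1, g2, g3⟩
      obtain rfl := Sa_l m' h3 g3
      obtain rfl := Sa_l m' h2 g2
      exact Sa_l m' h1 g1)
    (univ.filter fun x => lev x = j + 3 ∧ ∀ y, (x, y) ∉ s'.2)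
  have r6 : ∀ a a' y, (∃ b, (a, b) ∈ s.2 ∧ (b, y) ∈ s.2) → (∃ b, (a', b) ∈ s.2 ∧ (b, y) ∈ s.2) →
      a = a' := by
    rintro a a' y ⟨b, h1, h2⟩ ⟨b', g1, g2⟩
    obtain rfl := Sa_l m h2 g2
    exact Sa_l m h1 g1
  have z6 := Sa_rel r6 (univ.filter fun c => lev c = j + 2) fun c => ∑ d,
    if (c, d) ∈ s.2 then (if c0 < cod u w (u (s.1 c)) (u (s.1 d)) then 1 else 0) else 0
  have z7 := Sa_rel r6 (univ.filter fun c => lev c = j + 2) fun c => ∑ d with lev d = j + 3,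
    if (c, d) ∈ s.2 ∧ c0 < cod u w (u (s.1 c)) (u (s.1 d)) then 0 else
      ∑ x : E × E with u x.1 = u (s.1 c) ∧ u x.2 = u (s.1 d) ∧ w x.1 = w x.2 ∧ x.1 ≠ x.2,
        if ∃ a b a', lev a = j ∧ chn s s' a b c d a' x.1 x.2 then 1 else 0
  refine le_trans ?_ (add_le_add (add_le_add (add_le_add (add_le_add (add_le_add
    (add_le_add z1 z2) z3) z4) z5) z6) z7)
  refine le_trans ?_ (add_le_add_left (add_le_add_left (add_le_add_left (add_le_add_left
    (add_le_add_left (card_union_le _ _) _) _) _) _) _)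
  refine le_trans ?_ (add_le_add_left (add_le_add_left (add_le_add_left (add_le_add_left
    (card_union_le _ _) _) _) _) _)
  refine le_trans ?_ (add_le_add_left (add_le_add_left (add_le_add_left
    (card_union_le _ _) _) _) _)
  refine le_trans ?_ (add_le_add_left (add_le_add_left (card_union_le _ _) _) _)
  refine le_trans ?_ (add_le_add_left (card_union_le _ _) _)
  refine le_trans (card_le_card fun a ha => ?_) (card_union_le _ _)
  obtain ⟨la, b, b', ab, ab', e1⟩ := (mem_filter.1 ha).2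
  have lb := Sa_v m ab
  have lb' := Sa_v m' ab'
  simp only [mem_union, mem_filter, mem_univ, true_and]
  by_cases n1 : ∀ y, (b, y) ∉ s.2
  · exact .inl (.inl (.inl (.inl (.inl (.inl ⟨b, ⟨by omega, n1⟩, ab, le_rfl⟩)))))
  by_cases n3 : ∀ y, (b', y) ∉ s'.2
  · exact .inl (.inl (.inl (.inl (.inr ⟨b', ⟨by omega, n3⟩, ab', le_rfl⟩))))
  push Not at n1 n3
  obtain ⟨c, bc⟩ := n1
  obtain ⟨c', bc'⟩ := n3
  have lc := Sa_v m bc
  have lc' := Sa_v m' bc'
  by_cases n4 : ∀ y, (c', y) ∉ s'.2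
  · exact .inl (.inl (.inl (.inr ⟨c', ⟨by omega, n4⟩, ⟨b', ab', bc'⟩, le_rfl⟩)))
  push Not at n4
  obtain ⟨d', cd'⟩ := n4
  have ld' := Sa_v m' cd'
  by_cases n5 : ∀ y, (d', y) ∉ s'.2
  · exact .inl (.inl (.inr ⟨d', ⟨by omega, n5⟩, ⟨b', c', ab', bc', cd'⟩, le_rfl⟩))
  push Not at n5
  obtain ⟨a', da'⟩ := n5
  have la' := Sa_v m' da'
  by_cases n2 : ∀ x, (x, a') ∉ s.2
  · exact .inl (.inl (.inl (.inl (.inl (.inr
      ⟨a', ⟨by omega, n2⟩, ⟨b', c', d', ab', bc', cd', da'⟩, le_rfl⟩)))))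
  push Not at n2
  obtain ⟨d, da⟩ := n2
  have ld := Sa_v m da
  by_cases n6 : (c, d) ∈ s.2 ∧ c0 < cod u w (u (s.1 c)) (u (s.1 d))
  · refine .inl (.inr ⟨c, by omega, ⟨b, ab, bc⟩, ?_⟩)
    refine le_trans ?_ (single_le_sum (fun _ _ => Nat.zero_le _) (mem_univ d))
    rw [if_pos n6.1, if_pos n6.2]
  refine .inr ⟨c, by omega, ⟨b, ab, bc⟩, ?_⟩
  refine le_trans ?_ (single_le_sum (fun _ _ => Nat.zero_le _)
    (mem_filter.2 ⟨mem_univ d, by omega⟩))
  rw [if_neg n6]
  have e2 : s'.1 a' = s.1 a' := by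
    have := congrFun hf a'
    unfold fx at this
    rw [if_pos (by omega), if_pos (by omega)] at this
    exact Option.some.inj this
  have e3 := k' _ _ cd'
  unfold hk at e3
  rw [if_pos (by omega)] at e3
  refine le_trans ?_ (single_le_sum (fun _ _ => Nat.zero_le _)
    (mem_filter.2 ⟨mem_univ (s'.1 c', s'.1 d'), ?_, ?_, nb_ne e3⟩))
  · rw [if_pos ⟨a, b, a', la, ab, bc, da, b', c', d', ab', bc', cd', da', e1.symm, rfl, rfl⟩]
  · exact (ku (by omega) (k' _ _ bc')).symm.trans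
      ((congrArg u e1.symm).trans (ku (by omega) (k _ _ bc)))
  · exact (ku (by omega) (k' _ _ da')).trans
      ((congrArg u e2).trans (ku (by omega) (k _ _ da)).symm)

private theorem Sa_lv (hL : Lv lev J t) (i : ℕ) :
    ((univ.filter fun x => lev x = i).card : ℝ) ≤ t := by
  by_cases hi : i ≤ J
  · rw [hL.card i hi]
  · rw [filter_false_of_mem fun x _ (hx : lev x = i) => hi (hx ▸ hL.le x), card_empty, Nat.cast_zero]
    positivity

private theorem Sa_sum (hL : Lv lev J t) (i : ℕ) {g : I → ℝ} {c : ℝ} (hc : 0 ≤ c)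
    (h : ∀ x, lev x = i → g x ≤ c) : ∑ x with lev x = i, g x ≤ t * c := by
  refine (sum_le_sum fun x hx => h x (mem_filter.1 hx).2).trans ?_
  rw [sum_const, nsmul_eq_mul]
  exact mul_le_mul_of_nonneg_right (Sa_lv hL i) hc

open Classical in
/-- `a, b, a'` are determined by `s, c, d`; sum `dlr_chain` over the `t ^ 3` inner slots. -/
theorem chn_le (h : Host u w d1 d2 δ1 δ2) (hν : 0 ≤ ν) (hL : Lv lev J t) {τ j : ℕ}
    (hj : j % 4 = 2 * τ % 4) (s : (I → E) × Finset (I × I)) (hs : wt lev (hk u w) ν s ≠ 0)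
    (c d : I) (p r : E) :
    (Fintype.card E : ℝ) ^ 3 * ∑ s', (if fx lev τ s' = fx lev τ s then wt lev (hk u w) ν s' *
        (if ∃ a b a', lev a = j ∧ chn s s' a b c d a' p r then 1 else 0) else 0) ≤
      t ^ 3 * (ν * (1 / δ2) * (ν * (1 / δ1))) ^ 2 * cm (wt lev (hk u w) ν) (fx lev τ) s := by
  have w0 := wt_nonneg (lev := lev) h.ds hν
  have c0 := cm_nonneg w0 (fx lev τ) s
  obtain ⟨m, -⟩ := Sa_wt hs
  by_cases hex : ∃ a b a', lev a = j ∧ (a, b) ∈ s.2 ∧ (b, c) ∈ s.2 ∧ (d, a') ∈ s.2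
  swap
  · rw [sum_eq_zero, mul_zero]
    · positivity
    · intro s' _
      rw [if_neg (show ¬ ∃ a b a', lev a = j ∧ chn s s' a b c d a' p r from
        fun ⟨a, b, a', h1, h2, h3, h4, _⟩ => hex ⟨a, b, a', h1, h2, h3, h4⟩), mul_zero, ite_self]
  obtain ⟨a, b, a', la, ab, bc, da⟩ := hex
  set G : I → I → I → (I → E) × Finset (I × I) → ℝ := fun b' c' d' s' =>
    if fx lev τ s' = fx lev τ s ∧ (a, b') ∈ s'.2 ∧ (b', c') ∈ s'.2 ∧ (c', d') ∈ s'.2 ∧
      (d', a') ∈ s'.2 ∧ s'.1 b' = s.1 b ∧ s'.1 c' = p ∧ s'.1 d' = r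
    then wt lev (hk u w) ν s' else 0 with hG
  have G0 : ∀ b' c' d' s', 0 ≤ G b' c' d' s' := fun b' c' d' s' => by
    simp only [hG]
    split_ifs
    exacts [w0 _, le_rfl]
  have a1 : ∀ s', (if fx lev τ s' = fx lev τ s then wt lev (hk u w) ν s' *
      (if ∃ a b a', lev a = j ∧ chn s s' a b c d a' p r then 1 else 0) else 0) ≤
      ∑ b' with lev b' = j + 1, ∑ c' with lev c' = j + 2, ∑ d' with lev d' = j + 3,
        G b' c' d' s' := fun s' => by
    have t0 : 0 ≤ ∑ b' with lev b' = j + 1, ∑ c' with lev c' = j + 2, ∑ d' with lev d' = j + 3,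
        G b' c' d' s' :=
      sum_nonneg fun _ _ => sum_nonneg fun _ _ => sum_nonneg fun _ _ => G0 _ _ _ _
    split_ifs with f1 f2
    · obtain ⟨a2, b2, a3, -, g1, g2, g3, b', c', d', g4, g5, g6, g7, g8⟩ := f2
      obtain rfl := Sa_l m g2 bc
      obtain rfl := Sa_l m g1 ab
      obtain rfl := Sa_r m g3 da
      rw [mul_one]
      by_cases hz : wt lev (hk u w) ν s' = 0
      · rwa [hz]
      obtain ⟨m', -⟩ := Sa_wt hz
      have l1 := Sa_v m' g4
      have l2 := Sa_v m' g5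
      have l3 := Sa_v m' g6
      refine le_trans ?_ (single_le_sum (fun _ _ => sum_nonneg fun _ _ => sum_nonneg fun _ _ =>
        G0 _ _ _ _) (mem_filter.2 ⟨mem_univ b', by omega⟩))
      refine le_trans ?_ (single_le_sum (fun _ _ => sum_nonneg fun _ _ =>
        G0 _ _ _ _) (mem_filter.2 ⟨mem_univ c', by omega⟩))
      refine le_trans ?_ (single_le_sum (fun _ _ => G0 _ _ _ _)
        (mem_filter.2 ⟨mem_univ d', by omega⟩))
      simp only [hG]
      rw [if_pos ⟨f1, g4, g5, g6, g7, g8⟩]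
    · rwa [mul_zero]
    · exact t0
  have a2 : ∀ b' c' d', (Fintype.card E : ℝ) ^ 3 * ∑ s', G b' c' d' s' ≤
      (ν * (1 / δ2) * (ν * (1 / δ1))) ^ 2 * cm (wt lev (hk u w) ν) (fx lev τ) s :=
    fun b' c' d' => dlr_chain h.ds hν (fun i e e' hi => by
      unfold hk
      rw [if_pos hi]
      exact nb_le h.pos2 h.min2 e e') (fun i e e' hi => by
      unfold hk
      rw [if_neg (by omega)]
      exact nb_le h.pos1 h.min1 e e') τ s a b' c' d' a' (by omega) _ _ _
  calc _ ≤ (Fintype.card E : ℝ) ^ 3 * ∑ s', ∑ b' with lev b' = j + 1, ∑ c' with lev c' = j + 2,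
        ∑ d' with lev d' = j + 3, G b' c' d' s' :=
        mul_le_mul_of_nonneg_left (sum_le_sum fun s' _ => a1 s') (by positivity)
    _ = ∑ b' with lev b' = j + 1, ∑ c' with lev c' = j + 2, ∑ d' with lev d' = j + 3,
        (Fintype.card E : ℝ) ^ 3 * ∑ s', G b' c' d' s' := by
        simp only [← mul_sum]
        congr 1
        refine sum_comm.trans (sum_congr rfl fun _ _ => ?_)
        exact sum_comm.trans (sum_congr rfl fun _ _ => sum_comm)
    _ ≤ t * (t * (t * ((ν * (1 / δ2) * (ν * (1 / δ1))) ^ 2 *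
        cm (wt lev (hk u w) ν) (fx lev τ) s))) :=
        Sa_sum hL _ (by positivity) fun _ _ => Sa_sum hL _ (by positivity) fun _ _ =>
          Sa_sum hL _ (by positivity) fun _ _ => a2 _ _ _
    _ = _ := by ring

private theorem Sa_own [Nonempty E] (h : Host u w d1 d2 δ1 δ2) (hν : 0 ≤ ν) (hL : Lv lev J t)
    (i : ℕ) {H : E → E → ℝ} (h0 : ∀ e e', 0 ≤ H e e') {c : ℝ} (hc : 0 ≤ c)
    (hH : ∑ e, ∑ e', hk u w i e e' * H e e' ≤ Fintype.card E * c) :
    ∑ s, wt lev (hk u w) ν s * ∑ x with lev x = i, ∑ y,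
      (if (x, y) ∈ s.2 then H (s.1 x) (s.1 y) else 0) ≤
      t * (c * ∑ s, wt lev (hk u w) ν s) := by
  have Z0 : 0 ≤ ∑ s, wt lev (hk u w) ν s := sum_nonneg fun s _ => wt_nonneg h.ds hν s
  have n0 : (0 : ℝ) < Fintype.card E := by exact_mod_cast Fintype.card_pos
  simp only [mul_sum (s := univ.filter _)]
  rw [sum_comm]
  refine Sa_sum hL i (by positivity) fun x hx => le_of_mul_le_mul_left ?_ n0
  refine (law_link h.ds hν x H h0).trans ?_
  rw [hx]
  exact (mul_le_mul_of_nonneg_left hH Z0).trans_eq (by ring)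

private theorem Sa_oth [Nonempty E] (h : Host u w d1 d2 δ1 δ2) (hν : 0 ≤ ν) (hL : Lv lev J t)
    (i : ℕ) : ∑ s, wt lev (hk u w) ν s * ∑ x with lev x = i, ∑ y with lev y = i + 1,
      (if (x, y) ∈ s.2 then 0 else (cod u w (u (s.1 x)) (u (s.1 y)) : ℝ)) ≤
      t * (t * (d1 * d1 * d2 / Fintype.card E * ∑ s, wt lev (hk u w) ν s)) := by
  have Z0 : 0 ≤ ∑ s, wt lev (hk u w) ν s := sum_nonneg fun s _ => wt_nonneg h.ds hν s
  have n0 : (0 : ℝ) < Fintype.card E := by exact_mod_cast Fintype.card_pos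
  simp only [mul_sum (s := univ.filter _)]
  rw [sum_comm]
  refine Sa_sum hL i (by positivity) fun x hx => ?_
  rw [sum_comm]
  refine Sa_sum hL (i + 1) (by positivity) fun y hy => le_of_mul_le_mul_left ?_ (pow_pos n0 2)
  refine (law_pair h.ds hν (fun e => by subst e; omega) (.inr (by omega))
    (fun e e' => (cod u w (u e) (u e') : ℝ)) fun _ _ => by positivity).trans ?_
  have : ∑ e, ∑ e', (cod u w (u e) (u e') : ℝ) ≤ Fintype.card E * (d1 * d1 * d2) := by
    exact_mod_cast cod_sum h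
  refine (mul_le_mul_of_nonneg_left this Z0).trans_eq ?_
  field_simp

/-- Paper section 6, SAME: `5 * 2 + 1 + 1 + 1 = 13`. With `ψ = t ^ 3 ν ^ 4 / (δ1 δ2) ^ 2 / n ^ 3
= F ^ 8 n / (t (δ1 δ2) ^ 2)` the last sum of `same_det` has mean at most
`ψ (c0 t + t ^ 2 d1 ^ 2 d2 / n)` (`chn_le`, `two_le`, `law_pair`, `cod_sum`). -/
theorem same_le [Nonempty E] (h : Host u w d1 d2 δ1 δ2) (hL : Lv lev J t) (ht : 1 ≤ t) {F c0 : ℕ}
    (hF : 1 ≤ F) (hν : ν * t = F ^ 2 * Fintype.card E)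
    (hlight : F * hv u w c0 ≤ Fintype.card E)
    (h1 : F ^ 9 * c0 * Fintype.card E ≤ t * (δ1 * δ2) ^ 2)
    (h2 : F ^ 9 * (d1 * d1 * d2) ≤ (δ1 * δ2) ^ 2) {τ j : ℕ} (hj : j % 4 = 2 * τ % 4)
    (hJ : j + 4 ≤ J) :
    F * two (wt lev (hk u w) ν) (fx lev τ) (fun s s' => same lev j s s') ≤
      13 * t * ∑ s, wt lev (hk u w) ν s := by
  classical
  have n0 : (0 : ℝ) < Fintype.card E := by exact_mod_cast Fintype.card_pos
  have t0 : (0 : ℝ) < t := by exact_mod_cast ht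
  have F0 : (0 : ℝ) < F := by exact_mod_cast hF
  have p1 : (0 : ℝ) < δ1 := by exact_mod_cast h.pos1
  have p2 : (0 : ℝ) < δ2 := by exact_mod_cast h.pos2
  have nu : ν = F ^ 2 * Fintype.card E / t := eq_div_of_mul_eq t0.ne' hν
  have ν0 : 0 ≤ ν := by rw [nu]; positivity
  have w0 := wt_nonneg (lev := lev) h.ds ν0
  have hc : ∀ s, 0 < cm (wt lev (hk u w) ν) (fx lev τ) s := fun s =>
    (pow_pos n0 _).trans_le (dlr_cm h.ds ν0 τ s)
  set Z := ∑ s, wt lev (hk u w) ν s with hZ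
  have Z0 : 0 ≤ Z := sum_nonneg fun s _ => w0 s
  set ψ : ℝ := t ^ 3 * (ν * (1 / δ2) * (ν * (1 / δ1))) ^ 2 / Fintype.card E ^ 3 with hψ
  have ψ0 : 0 ≤ ψ := by positivity
  set A : (I → E) × Finset (I × I) → ℝ := fun s => ∑ c with lev c = j + 2, ∑ d,
    if (c, d) ∈ s.2 then (if c0 < cod u w (u (s.1 c)) (u (s.1 d)) then 1 else 0) else 0 with hA
  set C : (I → E) × Finset (I × I) → (I → E) × Finset (I × I) → ℝ := fun s s' =>
    ∑ c with lev c = j + 2, ∑ d with lev d = j + 3,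
      if (c, d) ∈ s.2 ∧ c0 < cod u w (u (s.1 c)) (u (s.1 d)) then 0 else
        ∑ x : E × E with u x.1 = u (s.1 c) ∧ u x.2 = u (s.1 d) ∧ w x.1 = w x.2 ∧ x.1 ≠ x.2,
          if ∃ a b a', lev a = j ∧ chn s s' a b c d a' x.1 x.2 then 1 else 0 with hC
  have b1 : two (wt lev (hk u w) ν) (fx lev τ) (fun s s' => same lev j s s') ≤
      two (wt lev (hk u w) ν) (fx lev τ) (fun s s' => mr lev (j + 1) s.2 + mr lev (j + 3) s.2 +
        mr lev (j + 1) s'.2 + mr lev (j + 2) s'.2 + mr lev (j + 3) s'.2 + A s + C s s') := by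
    refine two_mono w0 _ fun s s' hs hs' hf => ?_
    have := same_det c0 hj s s' hs hs' hf
    rw [ml_eq hL (Sa_wt hs).1 (by omega)] at this
    simp only [hA, hC]
    exact_mod_cast this
  simp only [two_add] at b1
  rw [two_left hc fun s => mr lev (j + 1) s.2, two_left hc fun s => mr lev (j + 3) s.2,
    two_right hc fun s => mr lev (j + 1) s.2, two_right hc fun s => mr lev (j + 2) s.2,
    two_right hc fun s => mr lev (j + 3) s.2, two_left hc A] at b1
  have m1 := miss h.ds hL ht hF hν (j := j + 1) (by omega)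
  have m2 := miss h.ds hL ht hF hν (j := j + 2) (by omega)
  have m3 := miss h.ds hL ht hF hν (j := j + 3) (by omega)
  have b2 : ∑ s, wt lev (hk u w) ν s * A s ≤ t * (1 / F * Z) := by
    refine Sa_own h ν0 hL (j + 2) (H := fun e e' => if c0 < cod u w (u e) (u e') then 1 else 0)
      (fun _ _ => by positivity) (by positivity) ?_
    rw [mul_one_div, le_div_iff₀' F0]
    refine le_trans (le_of_eq ?_) hlight
    unfold hv hk
    simp only [if_pos (show (j + 2) % 2 = 0 by omega), mul_ite, mul_one, mul_zero]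
  have b3 : two (wt lev (hk u w) ν) (fx lev τ) C ≤ ∑ s, wt lev (hk u w) ν s *
      (ψ * ((∑ c with lev c = j + 2, ∑ d, if (c, d) ∈ s.2 then (c0 : ℝ) else 0) +
        ∑ c with lev c = j + 2, ∑ d with lev d = j + 2 + 1,
          if (c, d) ∈ s.2 then 0 else (cod u w (u (s.1 c)) (u (s.1 d)) : ℝ))) := by
    refine two_le w0 hc fun s hs => ?_
    have cs := (hc s).le
    have q1 : ∀ c d p r, ∑ s', (if fx lev τ s' = fx lev τ s then wt lev (hk u w) ν s' *
        (if ∃ a b a', lev a = j ∧ chn s s' a b c d a' p r then 1 else 0) else 0) ≤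
        ψ * cm (wt lev (hk u w) ν) (fx lev τ) s := fun c d p r => by
      rw [hψ, div_mul_eq_mul_div, le_div_iff₀' (pow_pos n0 3)]
      convert chn_le h ν0 hL hj s hs c d p r
    calc _ = ∑ c with lev c = j + 2, ∑ d with lev d = j + 3,
          if (c, d) ∈ s.2 ∧ c0 < cod u w (u (s.1 c)) (u (s.1 d)) then 0 else
            ∑ x : E × E with u x.1 = u (s.1 c) ∧ u x.2 = u (s.1 d) ∧ w x.1 = w x.2 ∧ x.1 ≠ x.2,
              ∑ s', (if fx lev τ s' = fx lev τ s then wt lev (hk u w) ν s' *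
                (if ∃ a b a', lev a = j ∧ chn s s' a b c d a' x.1 x.2 then 1 else 0) else 0) := by
          simp only [hC, mul_sum, ← sum_filter (s := univ) fun s' => fx lev τ s' = fx lev τ s]
          refine sum_comm.trans (sum_congr rfl fun c _ => sum_comm.trans (sum_congr rfl fun d _ => ?_))
          split_ifs
          · simp only [mul_zero, sum_const_zero]
          · simp only [mul_sum]
            exact sum_comm
      _ ≤ ∑ c with lev c = j + 2, ∑ d with lev d = j + 3,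
          ((if (c, d) ∈ s.2 then (c0 : ℝ) else 0) +
            if (c, d) ∈ s.2 then 0 else (cod u w (u (s.1 c)) (u (s.1 d)) : ℝ)) *
              (ψ * cm (wt lev (hk u w) ν) (fx lev τ) s) := by
          refine sum_le_sum fun c _ => sum_le_sum fun d _ => ?_
          by_cases g : (c, d) ∈ s.2 ∧ c0 < cod u w (u (s.1 c)) (u (s.1 d))
          · rw [if_pos g]
            positivity
          rw [if_neg g]
          refine (sum_le_sum fun x _ => q1 c d x.1 x.2).trans ?_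
          rw [sum_const, nsmul_eq_mul]
          refine mul_le_mul_of_nonneg_right ?_ (by positivity)
          change (cod u w (u (s.1 c)) (u (s.1 d)) : ℝ) ≤ _
          split_ifs with g'
          · rw [add_zero]
            exact_mod_cast not_lt.1 fun g2 => g ⟨g', g2⟩
          · rw [zero_add]
      _ ≤ _ := by
          simp only [← sum_mul, sum_add_distrib]
          rw [mul_comm ψ (_ + _), mul_assoc]
          refine mul_le_mul_of_nonneg_right (add_le_add_left (sum_le_sum fun c _ =>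
            sum_le_sum_of_subset_of_nonneg (subset_univ _) fun _ _ _ => by positivity) _)
            (by positivity)
  have b4 := Sa_own h ν0 hL (j + 2) (H := fun _ _ => (c0 : ℝ)) (fun _ _ => by positivity)
    (c := c0) (by positivity) (by simp only [← sum_mul, h.ds.row]; simp)
  have b5 := Sa_oth h ν0 hL (j + 2)
  simp only [mul_left_comm _ ψ, mul_add, sum_add_distrib, ← mul_sum (a := ψ)] at b3
  have e1 : ψ = F ^ 8 * Fintype.card E / (t * (δ1 * δ2) ^ 2) := by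
    rw [hψ, nu]
    field_simp
  have c1 : F * ψ * c0 ≤ 1 := by
    have : (F : ℝ) ^ 9 * c0 * Fintype.card E ≤ t * (δ1 * δ2) ^ 2 := by exact_mod_cast h1
    rw [← div_le_one (by positivity)] at this
    rw [e1]
    exact le_trans (le_of_eq (by field_simp)) this
  have c2 : F * ψ * (t * (d1 * d1 * d2 / Fintype.card E)) ≤ 1 := by
    have : (F : ℝ) ^ 9 * (d1 * d1 * d2) ≤ (δ1 * δ2) ^ 2 := by exact_mod_cast h2
    rw [← div_le_one (by positivity)] at this
    rw [e1]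
    exact le_trans (le_of_eq (by field_simp)) this
  have tZ : 0 ≤ t * Z := by positivity
  have Fψ : 0 ≤ F * ψ := by positivity
  have y1 := mul_le_mul_of_nonneg_left b1 F0.le
  have y2 := mul_le_mul_of_nonneg_left b2 F0.le
  have y3 := mul_le_mul_of_nonneg_left b3 F0.le
  have y4 := mul_le_mul_of_nonneg_left b4 Fψ
  have y5 := mul_le_mul_of_nonneg_left b5 Fψ
  have y6 := mul_le_mul_of_nonneg_left c1 tZ
  have y7 := mul_le_mul_of_nonneg_left c2 tZ
  have y8 : F * (t * (1 / F * Z)) = t * Z := by field_simp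
  rw [← hZ] at m1 m2 m3 y4 y5
  linarith

private theorem Sa_two {Ω X : Type} [Fintype Ω] [DecidableEq X] (σ : Ω ≃ Ω) {π π' : Ω → ℝ}
    {ξ ξ' : Ω → X} {G G' : Ω → Ω → ℝ} (h1 : ∀ s, π' (σ s) = π s) (h2 : ∀ s, ξ' (σ s) = ξ s)
    (h3 : ∀ s s', G' (σ s) (σ s') = G s s') : two π' ξ' G' = two π ξ G := by
  have c : ∀ s, cm π' ξ' (σ s) = cm π ξ s := fun s => by
    unfold cm
    rw [← σ.sum_comp]
    simp only [h1, h2]
  unfold two
  rw [← σ.sum_comp]
  refine sum_congr rfl fun s _ => ?_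
  rw [← σ.sum_comp]
  simp only [h1, h2, h3, c]

/-- Mirror image: apply `same_le` to `h.swap`, the levels `4 M - lev x` and the level `4 M - j`;
the bijection `(q, lam) ↦ (q, lam.image Prod.swap)` keeps weights (`nb_symm`) and `fx`. -/
theorem samel_le [Nonempty E] {M : ℕ} (h : Host u w d1 d2 δ1 δ2) (hL : Lv lev (4 * M) t)
    (ht : 1 ≤ t) {F c0 : ℕ} (hF : 1 ≤ F) (hν : ν * t = F ^ 2 * Fintype.card E)
    (hlight : F * hv w u c0 ≤ Fintype.card E)
    (h1 : F ^ 9 * c0 * Fintype.card E ≤ t * (δ1 * δ2) ^ 2)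
    (h2 : F ^ 9 * (d2 * d2 * d1) ≤ (δ1 * δ2) ^ 2) {τ j : ℕ} (hj : j % 4 = 2 * τ % 4)
    (h4 : 4 ≤ j) (hJ : j ≤ 4 * M) :
    F * two (wt lev (hk u w) ν) (fx lev τ) (fun s s' => samel lev j s s') ≤
      13 * t * ∑ s, wt lev (hk u w) ν s := by
  have le := hL.le
  let σ : (I → E) × Finset (I × I) ≃ (I → E) × Finset (I × I) :=
    (Equiv.refl _).prodCongr (Equiv.prodComm I I).finsetCongr
  have mem : ∀ s x y, (x, y) ∈ (σ s).2 ↔ (y, x) ∈ s.2 := fun s x y => mem_map_equiv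
  have hM : ∀ lam : Finset (I × I), IsM (fun x => 4 * M - lev x)
      (lam.map (Equiv.prodComm I I).toEmbedding) ↔ IsM lev lam := fun lam => by
    unfold IsM
    simp only [forall_mem_map, Equiv.coe_toEmbedding, Equiv.prodComm_apply, Prod.fst_swap,
      Prod.snd_swap, Prod.swap_inj]
    refine and_congr (forall₂_congr fun l _ => ?_) and_comm
    have := le l.1
    have := le l.2
    omega
  have hw : ∀ s, wt (fun x => 4 * M - lev x) (hk w u) ν (σ s) = wt lev (hk u w) ν s := fun s => by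
    unfold wt
    by_cases m : IsM lev s.2
    · rw [if_pos m]
      refine (if_pos ((hM _).2 m)).trans ((prod_map _ _ _).trans (prod_congr rfl fun l hl => ?_))
      have := m.1 l hl
      have := le l.2
      change ν * hk w u (4 * M - lev l.2) (s.1 l.2) (s.1 l.1) = _
      unfold hk
      by_cases p : lev l.1 % 2 = 0
      · rw [if_pos p, if_neg (by omega), nb_symm]
      · rw [if_neg p, if_pos (by omega), nb_symm]
    · rw [if_neg m]
      exact if_neg (mt (hM _).1 m)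
  have hf : ∀ s, fx (fun x => 4 * M - lev x) τ (σ s) = fx lev τ s := fun s => funext fun x => by
    have := le x
    exact if_congr (by beta_reduce; omega) rfl rfl
  have hs : ∀ s s', (same (fun x => 4 * M - lev x) (4 * M - j) (σ s) (σ s') : ℝ) =
      samel lev j s s' := fun s s' => by
    refine congrArg _ (congrArg card (filter_congr fun a _ => and_congr ?_ ?_))
    · have := le a
      beta_reduce
      omega
    · simp only [mem]
      rfl
  have hL' : Lv (fun x => 4 * M - lev x) (4 * M) t := ⟨fun x => Nat.sub_le _ _, fun i hi =>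
    (congrArg card (filter_congr fun x _ => by have := le x; omega)).trans
      (hL.card (4 * M - i) (Nat.sub_le _ _))⟩
  have := same_le h.swap hL' ht hF hν hlight (mul_comm δ1 δ2 ▸ h1) (mul_comm δ1 δ2 ▸ h2)
    (τ := τ) (j := 4 * M - j) (by omega) (by omega)
  rwa [Sa_two σ hw hf hs, ← σ.sum_comp, sum_congr rfl fun s _ => hw s] at this

end Pool.Agent.Work.MP_78fef3_co.X
end

-- merged part: Pool.Agent.Work.MP_78fef3_co.X.Honey2
section
/-! The light case: the family of maps. -/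

namespace Pool.Agent.Work.MP_78fef3_co.X

open Finset Pool.Agent.Work.MP_78fef3_co.S

variable {E B I : Type} [DecidableEq E] [DecidableEq B] [Fintype E] [Fintype I] [DecidableEq I]
  {lev : I → ℕ} {ν : ℝ} {M t l : ℕ}

/-- Fresh occurrences. -/
abbrev Fr (lev : I → ℕ) (l : ℕ) : Type :=
  {o : Fin (l + 1) × I // (o.1 : ℕ) = 0 ∨ lev o.2 % 4 ≠ 2 * ((o.1 : ℕ) - 1) % 4}

/-- The map of a walk. -/
def tup (lev : I → ℕ) (x : Fin (l + 1) → (I → E) × Finset (I × I)) : Fr lev l → E :=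
  fun o => (x o.1.1).1 o.1.2

theorem fresh (τ : Fin (l + 1)) (y : I) : ∃ o : Fr lev l,
    ∀ x : Fin (l + 1) → (I → E) × Finset (I × I),
      (∀ σ : Fin l, fx lev σ (x σ.succ) = fx lev σ (x σ.castSucc)) → (x τ).1 y = tup lev x o := by
  by_cases h : (τ : ℕ) = 0 ∨ lev y % 4 ≠ 2 * ((τ : ℕ) - 1) % 4
  · exact ⟨⟨(τ, y), h⟩, fun _ _ => rfl⟩
  · push Not at h
    obtain ⟨σ, rfl⟩ := Fin.exists_succ_eq.2 (show τ ≠ 0 from fun e => h.1 (by simp [e]))
    have h2 : lev y % 4 = 2 * (σ : ℕ) % 4 := by simpa using h.2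
    refine ⟨⟨(σ.castSucc, y), ?_⟩, fun x hx => ?_⟩
    · simp only [Fin.val_castSucc]
      omega
    · have := congrFun (hx σ) y
      simp only [fx, if_pos h2, Option.some.injEq] at this
      exact this

theorem card_Fr : Fintype.card (Fr lev l) =
    Fintype.card I + ∑ τ : Fin l, (univ.filter fun x => lev x % 4 ≠ 2 * τ % 4).card := by
  rw [Fintype.card_subtype, card_filter, Fintype.sum_prod_type, Fin.sum_univ_succ]
  congr 1
  · simp
  · refine sum_congr rfl fun τ _ => ?_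
    rw [card_filter]
    simp

theorem card_I {J : ℕ} (hL : Lv lev J t) : Fintype.card I = (J + 1) * t := by
  rw [← card_univ, card_eq_sum_card_fiberwise (f := lev) (t := range (J + 1))
    fun x _ => by simpa [Nat.lt_succ_iff] using hL.le x,
    sum_congr rfl fun j hj => hL.card j (Nat.lt_succ_iff.1 (mem_range.1 hj))]
  simp

theorem H2_lev (r M : ℕ) : ((range (4 * M)).filter fun j => j % 4 = r % 4).card = M := by
  induction M with
  | zero => simp
  | succ M ih =>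
    rw [show 4 * (M + 1) = 4 * M + 1 + 1 + 1 + 1 by ring]
    simp only [range_add_one, filter_insert]
    have h : r % 4 = 0 ∨ r % 4 = 1 ∨ r % 4 = 2 ∨ r % 4 = 3 := by omega
    rcases h with h | h | h | h <;>
      (split_ifs <;> first | omega | (rw [card_insert_of_notMem (by simp), ih]))

theorem free_ge (hL : Lv lev (4 * M) t) (τ : ℕ) :
    3 * M * t ≤ (univ.filter fun x => lev x % 4 ≠ 2 * τ % 4).card := by
  have h1 := card_filter_add_card_filter_not (s := range (4 * M)) fun j => j % 4 = 2 * τ % 4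
  rw [H2_lev, card_range] at h1
  calc 3 * M * t = ∑ j ∈ (range (4 * M)).filter fun j => ¬ j % 4 = 2 * τ % 4,
        (univ.filter fun x => lev x = j).card := by
        rw [sum_congr rfl fun j hj => hL.card j (mem_range.1 (mem_filter.1 hj).1).le, sum_const,
          smul_eq_mul]
        congr 1
        omega
    _ ≤ _ := by
        rw [← card_biUnion]
        · refine card_le_card fun x hx => ?_
          obtain ⟨j, a, b⟩ := mem_biUnion.1 hx
          exact mem_filter.2 ⟨mem_univ _, (mem_filter.1 b).2 ▸ (mem_filter.1 a).2⟩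
        · intro i _ j _ hij
          exact disjoint_left.2 fun x a b => hij ((mem_filter.1 a).2.symm.trans (mem_filter.1 b).2)

theorem mu_ne {Ω X : Type} [Fintype Ω] [DecidableEq X] {π : Ω → ℝ} {ξ : ℕ → Ω → X}
    {x : Fin (l + 1) → Ω} (h : mu π ξ x ≠ 0) :
    (∀ τ, π (x τ) ≠ 0) ∧ ∀ σ : Fin l, ξ σ (x σ.succ) = ξ σ (x σ.castSucc) := by
  obtain ⟨h1, h2⟩ := mul_ne_zero_iff.1 h
  have h3 := fun σ => prod_ne_zero_iff.1 h2 σ (mem_univ σ)
  have h4 : ∀ σ : Fin l, ξ σ (x σ.succ) = ξ σ (x σ.castSucc) := fun σ => by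
    by_contra a
    exact h3 σ (if_neg a)
  refine ⟨fun τ => ?_, h4⟩
  refine Fin.cases (div_ne_zero_iff.1 h1).1 (fun σ => ?_) τ
  have := h3 σ
  rw [if_pos (h4 σ)] at this
  exact (div_ne_zero_iff.1 this).1

theorem mu_le [Nonempty E] {K : ℕ → E → E → ℝ} (hK : DS K) (hν : 0 ≤ ν) {Y : ℝ}
    (hY : ∀ s, wt lev K ν s ≤ Y) (x : Fin (l + 1) → (I → E) × Finset (I × I)) :
    (Fintype.card E : ℝ) ^ Fintype.card (Fr lev l) * mu (wt lev K ν) (fx lev) x ≤ Y ^ (l + 1) := by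
  have hn : (0 : ℝ) < Fintype.card E := by exact_mod_cast Fintype.card_pos
  have h0 := wt_nonneg (lev := lev) hK hν
  have hY0 : 0 ≤ Y := (h0 (x 0)).trans (hY _)
  have key : ∀ {a z N : ℝ}, 0 < N → N ≤ z → 0 ≤ a → a ≤ Y → N * (a / z) ≤ Y := fun a b c e => by
    rw [← mul_div_assoc, div_le_iff₀ (a.trans_le b), mul_comm]
    exact mul_le_mul e b a.le hY0
  rw [card_Fr, pow_add, ← prod_pow_eq_pow_sum, mu, mul_mul_mul_comm, ← prod_mul_distrib,
    pow_succ']
  refine mul_le_mul (key (by positivity) (dlr_Z hK hν) (h0 _) (hY _)) ?_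
    (prod_nonneg fun τ _ => mul_nonneg (by positivity) ?_) hY0
  · refine (prod_le_prod (fun τ _ => mul_nonneg (by positivity) ?_) fun τ _ => (?_ : _ ≤ Y)).trans
      (by simp)
    · split_ifs
      · exact div_nonneg (h0 _) (cm_nonneg h0 _ _)
      · exact le_rfl
    · split_ifs
      · exact key (by positivity) (dlr_cm hK hν _ _) (h0 _) (hY _)
      · simpa using hY0
  · split_ifs
    · exact div_nonneg (h0 _) (cm_nonneg h0 _ _)
    · exact le_rfl

theorem coin_tup {J : ℕ} (hL : Lv lev J t) (f : Fin 3 → E → B) (i : Fin 3)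
    (x : Fin (l + 1) → (I → E) × Finset (I × I)) :
    coin (fun o => f i (tup lev x o)) ≤ (l + 1) * (J + 1) * ∑ τ, (near lev f (x τ).1).card := by
  refine (coin_le _ (fun o : Fr lev l => (o.1.1, lev o.1.2)) (univ ×ˢ range (J + 1))
    fun o => by simpa [Nat.lt_succ_iff] using hL.le _).trans ?_
  rw [card_product, card_univ, Fintype.card_fin, card_range, ← card_sigma]
  refine Nat.mul_le_mul_left _ (card_le_card_of_injOn (fun p => ⟨p.1.1.1, (p.1.1.2, p.2.1.2)⟩)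
    (fun p hp => ?_) fun p hp p' hp' e => ?_)
  · obtain ⟨a, b⟩ := (mem_filter.1 hp).2
    obtain ⟨a1, a2⟩ := Prod.mk.inj a
    refine mem_coe.2 (mem_sigma.2 ⟨mem_univ _, mem_filter.2 ⟨mem_univ _, Or.inl a2.symm, i, ?_⟩⟩)
    simp only [tup] at b
    exact b.trans (by rw [← a1])
  · obtain ⟨a1, -⟩ := Prod.mk.inj (mem_filter.1 hp).2.1
    obtain ⟨b1, -⟩ := Prod.mk.inj (mem_filter.1 hp').2.1
    simp only [Sigma.mk.injEq, heq_eq_eq, Prod.mk.injEq] at e
    exact Prod.ext (Subtype.ext (Prod.ext e.1 e.2.1))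
      (Subtype.ext (Prod.ext (a1.symm.trans (e.1.trans b1)) e.2.2))

theorem fibre_le (f : Fin 3 → E → B) (A : Finset (Fin (l + 1) → (I → E) × Finset (I × I))) (N : ℕ)
    (hA : ∀ x ∈ A, mu (wt lev (hk (f 1) (f 2)) ν) (fx lev) x ≠ 0 ∧
      ∑ τ, (near lev f (x τ).1).card ≤ N) : A.card ≤ 2 ^ N * (A.image (tup lev)).card := by
  refine card_le_mul_card_image _ _ fun ω hω => ?_
  obtain ⟨x0, hx0, rfl⟩ := mem_image.1 hω
  have hq : ∀ x ∈ A.filter fun x => tup lev x = tup lev x0, ∀ τ, (x τ).1 = (x0 τ).1 := by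
    intro x hx τ
    funext y
    obtain ⟨o, ho⟩ := fresh (E := E) (lev := lev) τ y
    rw [ho x (mu_ne (hA x (mem_filter.1 hx).1).1).2, ho x0 (mu_ne (hA x0 hx0).1).2,
      (mem_filter.1 hx).2]
  refine (card_le_card_of_injOn (t := Fintype.piFinset fun τ => (near lev f (x0 τ).1).powerset)
    (fun x τ => (x τ).2) (fun x hx => ?_) fun x hx x' hx' e => ?_).trans ?_
  · refine mem_coe.2 (Fintype.mem_piFinset.2 fun τ => mem_powerset.2 ?_)
    rw [← hq x hx τ]
    exact sub_near f _ ((mu_ne (hA x (mem_filter.1 hx).1).1).1 τ)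
  · funext τ
    exact Prod.ext ((hq x hx τ).trans (hq x' hx' τ).symm) (congrFun e τ)
  · rw [Fintype.card_piFinset, prod_congr rfl fun τ _ => card_powerset _, prod_pow_eq_pow_sum]
    exact Nat.pow_le_pow_right two_pos (hA x0 hx0).2

theorem image_tup (x : Fin (l + 1) → (I → E) × Finset (I × I))
    (hx : ∀ σ : Fin l, fx lev σ (x σ.succ) = fx lev σ (x σ.castSucc)) :
    univ.image (tup lev x) = allE x := by
  ext e
  simp only [allE, mem_image, mem_univ, true_and]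
  refine ⟨fun ⟨o, h⟩ => ⟨o.1, h⟩, fun ⟨o, h⟩ => ?_⟩
  obtain ⟨o', ho⟩ := fresh (E := E) (lev := lev) o.1 o.2
  exact ⟨o', (ho x hx).symm.trans h⟩

theorem H2_ex {α ι : Type} [Fintype α] (m : α → ℝ) (A : Finset ι) (G : ι → α → ℝ) (c : ℝ)
    (h : ∀ i ∈ A, ∑ x, m x * G i x ≤ c) : ∑ x, m x * ∑ i ∈ A, G i x ≤ A.card * c := by
  simp only [mul_sum]
  rw [sum_comm, ← nsmul_eq_mul]
  exact sum_le_card_nsmul _ _ _ h

/-- Mean of the random part of the number of deficient vertices. -/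
theorem H2_mean [Nonempty E] {K : ℕ → E → E → ℝ} (hK : DS K) (hL : Lv lev (4 * M) t) (ht : 1 ≤ t)
    {F : ℕ} (hF : 1 ≤ F) (hν : ν * t = F ^ 2 * Fintype.card E) (p : ℕ → ℕ → Prop)
    [∀ τ, DecidablePred (p τ)] (hp : ∀ τ, ((range (4 * M + 1)).filter (p τ)).card ≤ M)
    (g : ℕ → (I → E) × Finset (I × I) → (I → E) × Finset (I × I) → ℕ)
    (hg : ∀ τ j, j ≤ 4 * M → p τ j → F * two (wt lev K ν) (fx lev τ) (fun s s' => g j s s') ≤
      13 * t * ∑ s, wt lev K ν s) :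
    ∑ x : Fin (l + 1) → (I → E) × Finset (I × I), mu (wt lev K ν) (fx lev) x *
      (F * ((∑ τ, ∑ j ∈ range (4 * M), (mr lev j (x τ).2 + ml lev j (x τ).2) +
        ∑ τ : Fin l, ∑ j ∈ range (4 * M + 1) with p τ j, g j (x τ.castSucc) (x τ.succ) : ℕ) : ℝ)) ≤
      29 * (M * (l + 1) * t) := by
  have hn : (0 : ℝ) < Fintype.card E := by exact_mod_cast Fintype.card_pos
  have t0 : (0 : ℝ) < t := by exact_mod_cast ht
  have hν0 : 0 ≤ ν := nonneg_of_mul_nonneg_left (by rw [hν]; positivity) t0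
  have hZ : 0 < ∑ s, wt lev K ν s := lt_of_lt_of_le (by positivity) (dlr_Z hK hν0)
  have hc : ∀ τ s, 0 < cm (wt lev K ν) (fx lev τ) s := fun τ s =>
    lt_of_lt_of_le (by positivity) (dlr_cm hK hν0 τ s)
  have a1 : ∀ τ : Fin (l + 1), ∀ j ∈ range (4 * M),
      ∑ x : Fin (l + 1) → (I → E) × Finset (I × I), mu (wt lev K ν) (fx lev) x *
        (F * ((mr lev j (x τ).2 : ℝ) + ml lev j (x τ).2)) ≤ 4 * t := fun τ j hj => by
    rw [walk_one hc τ fun s => F * ((mr lev j s.2 : ℝ) + ml lev j s.2), div_le_iff₀ hZ]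
    have b := miss hK hL ht hF hν (mem_range.1 hj)
    have c : ∑ s, wt lev K ν s * (F * ((mr lev j s.2 : ℝ) + ml lev j s.2)) =
        2 * (F * ∑ s, wt lev K ν s * mr lev j s.2) := by
      rw [mul_sum, mul_sum]
      refine sum_congr rfl fun s _ => ?_
      by_cases hs : IsM lev s.2
      · rw [ml_eq hL hs (mem_range.1 hj)]
        ring
      · simp [wt, hs]
    linarith
  have a2 : ∀ τ : Fin l, ∀ j ∈ (range (4 * M + 1)).filter (p τ),
      ∑ x : Fin (l + 1) → (I → E) × Finset (I × I), mu (wt lev K ν) (fx lev) x *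
        (F * (g j (x τ.castSucc) (x τ.succ) : ℝ)) ≤ 13 * t := fun τ j hj => by
    have b := walk_two hc τ fun s s' => (g j s s' : ℝ)
    have c := hg τ j (Nat.lt_succ_iff.1 (mem_range.1 (mem_filter.1 hj).1)) (mem_filter.1 hj).2
    simp only [mul_left_comm _ (F : ℝ)]
    rw [← mul_sum, b, ← mul_div_assoc, div_le_iff₀ hZ]
    exact c
  have b1 := H2_ex _ univ _ _ fun τ _ => H2_ex _ _ _ _ (a1 τ)
  have b2 := H2_ex _ univ _ ((M : ℝ) * (13 * t)) fun (τ : Fin l) _ =>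
    (H2_ex _ _ _ _ (a2 τ)).trans
      (mul_le_mul_of_nonneg_right (by exact_mod_cast hp τ) (by positivity))
  simp only [card_univ, Fintype.card_fin, card_range, ← mul_sum] at b1 b2
  push_cast at b1 b2 ⊢
  simp only [mul_add (F : ℝ), mul_add (mu _ _ _), sum_add_distrib] at b1 b2 ⊢
  have : (0 : ℝ) ≤ M * t := by positivity
  nlinarith

theorem H2_pt {m : ℝ} {p a b c : Prop} [Decidable p] [Decidable a] [Decidable b] [Decidable c]
    (h : 0 ≤ m) (H : m ≠ 0 → ¬ a → ¬ b → ¬ c → p) : m ≤ (if p then m else 0) +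
      ((if a then m else 0) + (if b then m else 0) + if c then m else 0) := by
  by_cases h0 : m = 0
  · simp [h0]
  · by_cases a <;> by_cases b <;> by_cases c <;> by_cases p <;> simp_all <;> linarith

theorem honey_maps [Nonempty E] (f : Fin 3 → E → B) {d d1 d2 δ1 δ2 : ℕ}
    (h : Host (f 1) (f 2) d1 d2 δ1 δ2) (hd : ∀ i b, deg (f i) univ b ≤ d) (hL : Lv lev (4 * M) t)
    (hM : 1 ≤ M) (ht : 1 ≤ t) (htd : (t - 1) * d ≤ Fintype.card E) {F c0 : ℕ} (hF : 1 ≤ F)
    (hν : ν * t = F ^ 2 * Fintype.card E) (l1 : F * hv (f 1) (f 2) c0 ≤ Fintype.card E)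
    (l2 : F * hv (f 2) (f 1) c0 ≤ Fintype.card E)
    (h1 : F ^ 9 * c0 * Fintype.card E ≤ t * (δ1 * δ2) ^ 2)
    (h2 : F ^ 9 * (d1 * d1 * d2) ≤ (δ1 * δ2) ^ 2) (h3 : F ^ 9 * (d2 * d2 * d1) ≤ (δ1 * δ2) ^ 2)
    {Y : ℝ} (hY : ∀ s, wt lev (hk (f 1) (f 2)) ν s ≤ Y) : ∃ T : Finset (Fr lev l → E),
      (∀ ω ∈ T, (∀ i, coin (fun o => f i (ω o)) ≤
          (l + 1) * (4 * M + 1) * (66 * ((l + 1) * Fintype.card I))) ∧
        (∀ i, i ≠ 0 → F * (defi (f i) (univ.image ω)).card ≤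
          F * (2 * ((4 * M + 1) * t) + (l + 1) * (2 * t)) + 174 * (M * (l + 1) * t))) ∧
      (Fintype.card E : ℝ) ^ Fintype.card (Fr lev l) ≤
        2 * 2 ^ (66 * ((l + 1) * Fintype.card I)) * Y ^ (l + 1) * T.card := by
  classical
  have hK := h.ds
  have hn : (0 : ℝ) < Fintype.card E := by exact_mod_cast Fintype.card_pos
  have t0 : (0 : ℝ) < t := by exact_mod_cast ht
  have M0 : (0 : ℝ) < M := by exact_mod_cast hM
  have hν0 : 0 ≤ ν := nonneg_of_mul_nonneg_left (by rw [hν]; positivity) t0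
  have h0 := wt_nonneg (lev := lev) hK hν0
  have hZ : 0 < ∑ s, wt lev (hk (f 1) (f 2)) ν s := lt_of_lt_of_le (by positivity) (dlr_Z hK hν0)
  have hc : ∀ τ s, 0 < cm (wt lev (hk (f 1) (f 2)) ν) (fx lev τ) s := fun τ s =>
    lt_of_lt_of_le (by positivity) (dlr_cm hK hν0 τ s)
  have m0 := mu_nonneg (ξ := fx lev) (l := l) h0
  have m1 : ∑ x : Fin (l + 1) → (I → E) × Finset (I × I),
      mu (wt lev (hk (f 1) (f 2)) ν) (fx lev) x = 1 := by
    simpa [hZ.ne'] using walk_one hc (0 : Fin (l + 1)) fun _ => 1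
  have e1 := markov m0 (fun x => by positivity) (by positivity) (by norm_num : (0 : ℝ) < 6)
    (H2_mean (l := l) hK hL ht hF hν (fun τ j => j % 4 = 2 * τ % 4 ∧ j + 4 ≤ 4 * M)
      (fun τ => (card_le_card fun j hj => by
        simp only [mem_filter, mem_range] at hj ⊢
        omega).trans (H2_lev (2 * τ) M).le) (same lev)
      fun τ j _ a => same_le h hL ht hF hν l1 h1 h2 a.1 a.2)
  have e2 := markov m0 (fun x => by positivity) (by positivity) (by norm_num : (0 : ℝ) < 6)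
    (H2_mean (l := l) hK hL ht hF hν (fun τ j => j % 4 = 2 * τ % 4 ∧ 4 ≤ j)
      (fun τ => (card_le_card_of_injOn (fun j => j - 4) (fun j hj => by
        simp only [coe_filter, mem_range, Set.mem_ofPred_eq] at hj ⊢
        omega) fun j hj j' hj' e => by
          simp only [coe_filter, mem_range, Set.mem_ofPred_eq] at hj hj' e
          omega).trans (H2_lev (2 * τ) M).le) (samel lev)
      fun τ j b a => samel_le h hL ht hF hν l2 h1 h3 a.1 a.2 b)
  have I0 : (0 : ℝ) < Fintype.card I := by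
    rw [card_I hL]
    positivity
  have e3 := markov (b := 11 * ((l + 1) * Fintype.card I)) m0
    (F := fun x => ∑ τ, ((near lev f (x τ).1).card : ℝ)) (fun x => by positivity)
    (by positivity) (by norm_num : (0 : ℝ) < 6)
    ((H2_ex _ univ _ (11 * Fintype.card I) fun τ _ => by
      rw [walk_one hc τ fun s => ((near lev f s.1).card : ℝ), div_le_iff₀ hZ]
      exact near_le hK hν0 hL f hd htd).trans_eq (by simp; ring))
  obtain ⟨A, hA⟩ : ∃ A : Finset (Fin (l + 1) → (I → E) × Finset (I × I)), A = univ.filter fun x =>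
      mu (wt lev (hk (f 1) (f 2)) ν) (fx lev) x ≠ 0 ∧
      ∑ τ, (near lev f (x τ).1).card ≤ 66 * ((l + 1) * Fintype.card I) ∧
      F * (∑ τ, ∑ j ∈ range (4 * M), (mr lev j (x τ).2 + ml lev j (x τ).2) +
        ∑ τ : Fin l, ∑ j ∈ range (4 * M + 1) with j % 4 = 2 * (τ : ℕ) % 4 ∧ j + 4 ≤ 4 * M,
          same lev j (x τ.castSucc) (x τ.succ)) ≤ 174 * (M * (l + 1) * t) ∧
      F * (∑ τ, ∑ j ∈ range (4 * M), (mr lev j (x τ).2 + ml lev j (x τ).2) +
        ∑ τ : Fin l, ∑ j ∈ range (4 * M + 1) with j % 4 = 2 * (τ : ℕ) % 4 ∧ 4 ≤ j,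
          samel lev j (x τ.castSucc) (x τ.succ)) ≤ 174 * (M * (l + 1) * t) := ⟨_, rfl⟩
  have mA : 1 / 2 ≤ ∑ x ∈ A, mu (wt lev (hk (f 1) (f 2)) ν) (fx lev) x := by
    have e := add_le_add (add_le_add e1 e2) e3
    rw [← sum_add_distrib, ← sum_add_distrib] at e
    rw [hA, sum_filter]
    refine le_of_add_le_add_right (le_trans (le_trans ?_ (m1.symm.trans_le ?_)) (add_le_add_right e _))
    · norm_num
    rw [← sum_add_distrib]
    refine sum_le_sum fun x _ => ?_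
    refine H2_pt (m0 x) fun z b c d => ⟨z, ?_, ?_, ?_⟩
    · exact_mod_cast (not_lt.1 d).trans_eq (by ring : _ = (66 : ℝ) * ((l + 1) * Fintype.card I))
    · exact_mod_cast (not_lt.1 b).trans_eq (by ring : _ = (174 : ℝ) * (M * (l + 1) * t))
    · exact_mod_cast (not_lt.1 c).trans_eq (by ring : _ = (174 : ℝ) * (M * (l + 1) * t))
  have hA' := fun x (hx : x ∈ A) => (mem_filter.1 (hA ▸ hx)).2
  refine ⟨A.image (tup lev), fun ω hω => ?_, ?_⟩
  · obtain ⟨x, hx, rfl⟩ := mem_image.1 hω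
    obtain ⟨a, b, c, d⟩ := hA' x hx
    obtain ⟨a1, a2⟩ := mu_ne a
    refine ⟨fun i => (coin_tup hL f i x).trans (Nat.mul_le_mul_left _ b), fun i hi => ?_⟩
    rw [image_tup x a2]
    obtain rfl | rfl : i = 1 ∨ i = 2 := by
      revert i
      decide
    · refine (Nat.mul_le_mul_left F (defi_u hL x a1 a2)).trans ?_
      rw [add_assoc, mul_add]
      exact Nat.add_le_add_left d _
    · refine (Nat.mul_le_mul_left F (defi_w hL x a1 a2)).trans ?_
      rw [add_assoc, mul_add]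
      exact Nat.add_le_add_left c _
  · have b1 := sum_le_card_nsmul A _ _ fun x _ => mu_le hK hν0 hY x
    rw [← mul_sum, nsmul_eq_mul] at b1
    have b2 : (A.card : ℝ) ≤ 2 ^ (66 * ((l + 1) * Fintype.card I)) * (A.image (tup lev)).card := by
      exact_mod_cast fibre_le f A _ fun x hx => ⟨(hA' x hx).1, (hA' x hx).2.1⟩
    have hY0 : 0 ≤ Y ^ (l + 1) := pow_nonneg ((h0 (fun _ => Classical.arbitrary E, ∅)).trans (hY _)) _
    have b3 := mul_le_mul_of_nonneg_left mA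
      (by positivity : (0 : ℝ) ≤ (Fintype.card E : ℝ) ^ Fintype.card (Fr lev l))
    have b4 := mul_le_mul_of_nonneg_right b2 hY0
    linarith

end Pool.Agent.Work.MP_78fef3_co.X
end

-- merged part: Pool.Agent.Work.MP_78fef3_co.X.Honey3
section
/-! The light case. -/

namespace Pool.Agent.Work.MP_78fef3_co.X

open Finset Pool.Agent.Work.MP_78fef3_co.S

variable {E B : Type} [DecidableEq E] [DecidableEq B] [Fintype E] [Fintype B]

private theorem H3_lv (J t : ℕ) : Lv (fun x : Fin (J + 1) × Fin t => (x.1 : ℕ)) J t :=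
  ⟨fun x => Nat.le_of_lt_succ x.1.2, fun j hj => by
    have : (univ.filter fun x : Fin (J + 1) × Fin t => (x.1 : ℕ) = j) =
        {⟨j, Nat.lt_succ_of_le hj⟩} ×ˢ univ := by
      ext x
      rw [mem_filter, mem_product, mem_singleton, Fin.ext_iff]
      exact ⟨fun a => ⟨a.2, mem_univ _⟩, fun a => ⟨mem_univ _, a.1⟩⟩
    rw [this, card_product, card_singleton, one_mul, card_univ, Fintype.card_fin]⟩

private theorem H3_T {n t d v F N s A T δ1 δ2 : ℕ} {ν : ℝ} (ht : 1 ≤ t) (htn : t ≤ n)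
    (hnd : n ≤ t * d) (hν : ν * t = F ^ 2 * n) (hF : F ^ 8 ≤ v) (hR : d * v ^ 160 ≤ (δ1 * δ2) ^ 2)
    (p1 : 1 ≤ δ1) (p2 : 1 ≤ δ2) (hv : 2 ^ 200 ≤ v) (hN : 1 ≤ N) (s1 : 3 * N ≤ s) (s2 : s ≤ 5 * N)
    (hA : A ≤ 5 * N) (hs : s ≤ v * t)
    (h : (n : ℝ) ^ s ≤ 2 * 2 ^ (66 * A) * (ν * (1 / δ2) * (ν * (1 / δ1))) ^ (2 * N) * T) :
    s ^ s * v ^ (30 * s) < T := by
  have i1 : 66 * A + 1 < 200 * (4 * N) := by clear * - hN hA; omega
  have i2 : 31 * s ≤ 155 * N := by clear * - s2; omega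
  have t0 : (0 : ℝ) < t := by exact_mod_cast ht
  obtain ⟨x, hx⟩ : ∃ x : ℝ, (n : ℝ) = x * t := ⟨n / t, (div_mul_cancel₀ _ t0.ne').symm⟩
  have x1 : 1 ≤ x := le_of_mul_le_mul_right (by rw [← hx, one_mul]; exact_mod_cast htn) t0
  have x0 : 0 < x := one_pos.trans_le x1
  have xd : x ≤ d := le_of_mul_le_mul_right (by rw [← hx, mul_comm]; exact_mod_cast hnd) t0
  have e : ν = F ^ 2 * x := mul_right_cancel₀ t0.ne' (by rw [hν, hx, mul_assoc])
  have q1 : (0 : ℝ) < δ1 := by exact_mod_cast p1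
  have q2 : (0 : ℝ) < δ2 := by exact_mod_cast p2
  have hF' : (F : ℝ) ^ 8 ≤ v := by exact_mod_cast hF
  have hR' : (d : ℝ) * v ^ 160 ≤ (δ1 * δ2) ^ 2 := by exact_mod_cast hR
  have a : (ν * (1 / δ2) * (ν * (1 / δ1))) ^ 2 * v ^ 159 ≤ x ^ 3 := by
    have : (ν * (1 / δ2) * (ν * (1 / δ1))) ^ 2 * v ^ 159 =
        F ^ 8 * v ^ 159 * x * x ^ 3 / (δ1 * δ2) ^ 2 := by
      rw [e]
      field_simp
    rw [this, div_le_iff₀ (by positivity), mul_comm (x ^ 3)]
    refine mul_le_mul_of_nonneg_right (le_trans ?_ hR') (by positivity)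
    calc (F : ℝ) ^ 8 * v ^ 159 * x ≤ v * v ^ 159 * d := by gcongr
      _ = (d : ℝ) * v ^ 160 := by ring
  have b := pow_le_pow_left₀ (by positivity) a N
  rw [mul_pow, ← pow_mul, ← pow_mul, ← pow_mul] at b
  have c := b.trans (pow_le_pow_right₀ x1 s1)
  generalize (ν * (1 / δ2) * (ν * (1 / δ1))) ^ (2 * N) = Y at h c
  have k : (t : ℝ) ^ s * v ^ (159 * N) ≤ 2 * 2 ^ (66 * A) * T := by
    refine le_of_mul_le_mul_left ?_ (pow_pos x0 s)
    calc x ^ s * ((t : ℝ) ^ s * v ^ (159 * N)) = (n : ℝ) ^ s * v ^ (159 * N) := by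
          rw [hx, mul_pow, mul_assoc]
      _ ≤ 2 * 2 ^ (66 * A) * Y * T * v ^ (159 * N) := mul_le_mul_of_nonneg_right h (by positivity)
      _ = 2 * 2 ^ (66 * A) * T * (Y * v ^ (159 * N)) := by rw [mul_right_comm _ Y, mul_assoc]
      _ ≤ 2 * 2 ^ (66 * A) * T * x ^ s := mul_le_mul_of_nonneg_left c (by positivity)
      _ = _ := mul_comm _ _
  have k' : t ^ s * v ^ (159 * N) ≤ 2 * 2 ^ (66 * A) * T := by exact_mod_cast k
  have v1 : 0 < v := lt_of_lt_of_le (by positivity) hv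
  have m1 : 2 * 2 ^ (66 * A) < v ^ (4 * N) :=
    calc 2 * 2 ^ (66 * A) = 2 ^ (66 * A + 1) := (pow_succ' _ _).symm
      _ < 2 ^ (200 * (4 * N)) := Nat.pow_lt_pow_right (by norm_num) i1
      _ = (2 ^ 200) ^ (4 * N) := pow_mul _ _ _
      _ ≤ v ^ (4 * N) := Nat.pow_le_pow_left hv _
  have m2 : s ^ s * v ^ (30 * s) ≤ t ^ s * v ^ (155 * N) :=
    calc s ^ s * v ^ (30 * s) ≤ (v * t) ^ s * v ^ (30 * s) :=
          Nat.mul_le_mul_right _ (Nat.pow_le_pow_left hs _)
      _ = t ^ s * v ^ (31 * s) := by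
          rw [mul_pow, show 31 * s = s + 30 * s by ring, pow_add, mul_comm (v ^ s), mul_assoc]
      _ ≤ _ := Nat.mul_le_mul_left _ (Nat.pow_le_pow_right v1 i2)
  refine m2.trans_lt (Nat.lt_of_mul_lt_mul_left (a := 2 * 2 ^ (66 * A)) (lt_of_lt_of_le ?_ k'))
  calc 2 * 2 ^ (66 * A) * (t ^ s * v ^ (155 * N)) < v ^ (4 * N) * (t ^ s * v ^ (155 * N)) :=
        mul_lt_mul_of_pos_right m1 (by positivity)
    _ = t ^ s * v ^ (159 * N) := by
        rw [show 159 * N = 4 * N + 155 * N by ring, pow_add, mul_left_comm]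

private theorem H3_d {F v a b α β : ℕ} (hF : F ≤ v) (ha : a ≤ v * α) (hb : b ≤ v * β)
    (g : v ^ 4 ≤ β) : F * (a * a * b) ≤ (α * β) ^ 2 :=
  calc F * (a * a * b) ≤ v * (v * α * (v * α) * (v * β)) := by gcongr
    _ = v ^ 4 * (α ^ 2 * β) := by ring
    _ ≤ β * (α ^ 2 * β) := Nat.mul_le_mul_right _ g
    _ = _ := by ring

/-- Paper section 6 with `F = 200 P`, `M = 2 P`, `l = 10 P`, `t = n / d + 1`, `ν = F ^ 2 n / t`,
`I = Fin (4 M + 1) × Fin t`, `Y = (ν / δ2 * (ν / δ1)) ^ (2 M t)` (`dlr_max`), `honey_maps`, then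
`close` with all points roots, `K = 20000 P ^ 2`, `y = 2 d`. With `N = M (l + 1) t` and
`s = card (Fr lev l)`: `3 N ≤ s ≤ (l + 1) card I ≤ 5 N`, `Y ^ (l + 1) ≤ (n / t) ^ s / v ^ (159 N)`. -/
theorem honey [Nonempty E] (f : Fin 3 → E → B) {d d1 d2 δ1 δ2 : ℕ}
    (h : Host (f 1) (f 2) d1 d2 δ1 δ2) (P G Q v c0 : ℕ) (hd : ∀ i b, deg (f i) univ b ≤ d)
    (hN : (univ.image (f 0)).card * d ≤ v * Fintype.card E) (e1 : d1 ≤ v * δ1) (e2 : d2 ≤ v * δ2)
    (g1 : v ^ 4 ≤ δ1) (g2 : v ^ 4 ≤ δ2) (hR : d * v ^ 160 ≤ (δ1 * δ2) ^ 2) (hc : c0 ≤ v ^ 100)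
    (l1 : (200 * P : ℕ) * hv (f 1) (f 2) c0 ≤ Fintype.card E)
    (l2 : (200 * P : ℕ) * hv (f 2) (f 1) c0 ≤ Fintype.card E)
    (hy : 2 * d ≤ v ^ G) (hP : 11 * G ≤ P) (hP1 : 1 ≤ P) (hv : (2 ^ 20 * P) ^ 10 ≤ v)
    (hQ : Fintype.card E < 2 ^ Q) (hQv : Q + 2 ≤ v) : GoodIn f univ (3 * (20000 * P ^ 2 * P)) := by
  obtain ⟨e0⟩ := id ‹Nonempty E›
  have b1 : δ1 < d := (h.min1 e0).trans_le (hd 1 _)
  have b2 : δ2 < d := (h.min2 e0).trans_le (hd 2 _)
  have c1 : δ1 < Fintype.card E := (h.min1 e0).trans_le (card_le_univ _)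
  have c2 : δ2 < Fintype.card E := (h.min2 e0).trans_le (card_le_univ _)
  have d0 : 0 < d := (Nat.zero_le _).trans_lt b1
  have hw : ∀ k ≤ 10, (2 ^ 20 * P) ^ k ≤ v := fun k hk =>
    (Nat.pow_le_pow_right (by positivity) hk).trans hv
  have hF : ∀ k ≤ 10, (200 * P) ^ k ≤ v := fun k hk =>
    (Nat.pow_le_pow_left (Nat.mul_le_mul_right _ (by norm_num)) k).trans (hw k hk)
  have v2 : 2 ^ 200 ≤ v :=
    calc 2 ^ 200 = (2 ^ 20 * 1) ^ 10 := by norm_num
      _ ≤ (2 ^ 20 * P) ^ 10 := by gcongr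
      _ ≤ v := hv
  have v5 : 500 ≤ v := le_trans (by norm_num) v2
  have v0 : 0 < v := lt_of_lt_of_le (by norm_num) v5
  obtain ⟨t, ht, htd, hnd, key⟩ : ∃ t, 1 ≤ t ∧ (t - 1) * d ≤ Fintype.card E ∧
      Fintype.card E ≤ t * d ∧ ∀ δ, δ < d → δ < Fintype.card E → δ * t ≤ 2 * Fintype.card E := by
    have a := Nat.div_mul_le_self (Fintype.card E) d
    refine ⟨Fintype.card E / d + 1, Nat.le_add_left _ _, a, ?_, fun δ x y => ?_⟩
    · rw [add_mul, one_mul]
      exact (Nat.lt_div_mul_add d0).le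
    · linarith only [Nat.mul_le_mul_left (Fintype.card E / d) x.le, a, y]
  have htn : t ≤ Fintype.card E := by
    have a : 2 ≤ δ1 := le_trans (le_trans (by norm_num) v5) ((Nat.le_self_pow (by norm_num) v).trans g1)
    have b := (Nat.mul_le_mul_right t a).trans (key _ b1 c1)
    exact Nat.le_of_mul_le_mul_left b two_pos
  have t0 : (0 : ℝ) < t := by exact_mod_cast ht
  obtain ⟨ν, ν0, hν⟩ : ∃ ν : ℝ, 0 ≤ ν ∧ ν * t = ((200 * P : ℕ) : ℝ) ^ 2 * Fintype.card E :=
    ⟨_ / t, by positivity, div_mul_cancel₀ _ t0.ne'⟩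
  have hδ : ∀ δ : ℕ, 1 ≤ δ → δ < d → δ < Fintype.card E → 1 ≤ ν * (1 / δ) := fun δ x y z => by
    have a : (0 : ℝ) < δ := by exact_mod_cast x
    rw [mul_one_div, one_le_div a]
    refine le_of_mul_le_mul_right ?_ t0
    rw [hν]
    have b : 2 ≤ (200 * P) ^ 2 := le_trans (by norm_num)
      (Nat.pow_le_pow_left (Nat.mul_le_mul_left 200 hP1) 2)
    exact_mod_cast (key δ y z).trans (Nat.mul_le_mul_right _ b)
  obtain ⟨I, _, _, lev, hL⟩ : ∃ (I : Type) (_ : Fintype I) (_ : DecidableEq I) (lev : I → ℕ),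
      Lv lev (4 * (2 * P)) t := ⟨_, inferInstance, inferInstance, _, H3_lv _ t⟩
  obtain ⟨T, hT, hT'⟩ := honey_maps (l := 10 * P) f h hd hL (by linarith only [hP1]) ht htd
    (show 1 ≤ 200 * P by linarith only [hP1]) hν l1 l2
    (calc (200 * P) ^ 9 * c0 * Fintype.card E ≤ v * v ^ 100 * (t * d) :=
          Nat.mul_le_mul (Nat.mul_le_mul (hF 9 (by norm_num)) hc) hnd
      _ = t * (d * v ^ 101) := by ring
      _ ≤ t * (d * v ^ 160) := Nat.mul_le_mul_left _ (Nat.mul_le_mul_left _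
          (Nat.pow_le_pow_right v0 (by norm_num)))
      _ ≤ _ := Nat.mul_le_mul_left _ hR)
    (H3_d (hF 9 (by norm_num)) e1 e2 g2) (mul_comm δ2 δ1 ▸ H3_d (hF 9 (by norm_num)) e2 e1 g1)
    (dlr_max (a := 1 / δ2) (b := 1 / δ1) h.ds ν0 hL
      (fun j e e' hj => by rw [hk, if_pos hj]; exact nb_le h.pos2 h.min2 e e')
      (fun j e e' hj => by rw [hk, if_neg (by rw [hj]; norm_num)]; exact nb_le h.pos1 h.min1 e e')
      (hδ _ h.pos2 b2 c2) (hδ _ h.pos1 b1 c1))
  have cI := card_I hL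
  have r1 : t ≤ P * t := Nat.le_mul_of_pos_left _ hP1
  have r2 : P * t ≤ P * (P * t) := Nat.le_mul_of_pos_left _ hP1
  have s1 : 3 * (2 * P * (10 * P + 1) * t) ≤ Fintype.card (Fr lev (10 * P)) := by
    have a := card_nsmul_le_sum univ _ _ fun (τ : Fin (10 * P)) _ => free_ge hL τ
    rw [card_univ, Fintype.card_fin, smul_eq_mul] at a
    rw [card_Fr, cI]
    linarith only [a, r1, Nat.zero_le t]
  have s2 : (10 * P + 1) * Fintype.card I ≤ 5 * (2 * P * (10 * P + 1) * t) := by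
    rw [cI]
    linarith only [r1, r2, Nat.zero_le t]
  have s3 : Fintype.card (Fr lev (10 * P)) ≤ 5 * (2 * P * (10 * P + 1) * t) := by
    refine (Fintype.card_subtype_le _).trans ?_
    rwa [Fintype.card_prod, Fintype.card_fin]
  have s4 : t ≤ Fintype.card (Fr lev (10 * P)) := by linarith only [s1, r1, r2, Nat.zero_le t]
  have hc' : ∀ i, i ≠ 0 → ∀ x ∈ T,
      P * (defi (f i) (univ.image x)).card ≤ Fintype.card (Fr lev (10 * P)) := fun i hi x hx => by
    linarith only [(hT x hx).2 i hi, s1, r1, r2, Nat.zero_le t]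
  refine close f univ id (fun _ => 0) (fun o ho => absurd (mem_univ o) ho) T _ P G Q v (2 * d) d hd
    (fun _ _ o ho => absurd (mem_univ o) ho) (fun x hx i => ((hT x hx).1 i).trans ?_)
    (hc' 1 (by decide)) (hc' 2 (by decide)) le_rfl ?_ hy hP hP1 ?_ ?_ hQ hQv v5 ?_
  · calc (10 * P + 1) * (4 * (2 * P) + 1) * (66 * ((10 * P + 1) * Fintype.card I))
        ≤ 11 * P * (9 * P) * (66 * (5 * (2 * P * (10 * P + 1) * t))) :=
          Nat.mul_le_mul (Nat.mul_le_mul (by linarith only [hP1]) (by linarith only [hP1]))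
            (Nat.mul_le_mul_left _ s2)
      _ ≤ 20000 * P ^ 2 * (3 * (2 * P * (10 * P + 1) * t)) := by
          generalize 2 * P * (10 * P + 1) * t = N
          linarith only [Nat.zero_le (P ^ 2 * N)]
      _ ≤ _ := Nat.mul_le_mul_left _ s1
  · linarith only [Nat.mul_le_mul_right d s4, hnd, Nat.zero_le (d * Fintype.card (Fr lev (10 * P)))]
  · refine Nat.le_of_mul_le_mul_right (hN.trans ?_) d0
    rw [mul_assoc]
    exact Nat.mul_le_mul_left _ (hnd.trans (Nat.mul_le_mul_right d s4))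
  · linarith only [hF 3 (by norm_num), Nat.zero_le (P ^ 3)]
  · rw [← pow_mul, show 2 * (2 * P) * t * (10 * P + 1) = 2 * (2 * P * (10 * P + 1) * t) by ring] at hT'
    refine H3_T ht htn hnd hν (hF 8 (by norm_num)) hR h.pos1 h.pos2 v2
      (by linarith only [ht, r1, r2]) s1 s3 s2 (s3.trans ?_) hT'
    linarith only [Nat.mul_le_mul_right t (hF 2 (by norm_num)), r1, r2, Nat.zero_le t]

end Pool.Agent.Work.MP_78fef3_co.X
end

-- merged part: Pool.Agent.Work.MP_78fef3_co.X.Hyp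
section
/-! The hypergraph theorem. -/

namespace Pool.Agent.Work.MP_78fef3_co.X

open Finset Pool.Agent.Work.MP_78fef3_co.S

/-- The statement HYP of the paper. -/
def HypX (G D v0 : ℕ) : Prop :=
  ∀ (α B : Type) [DecidableEq α] [Fintype B] [DecidableEq B] (f : Fin 3 → α → B) (A : Finset α)
    (d : Fin 3 → ℕ) (L Q v : ℕ), A.Nonempty → A.card < 2 ^ Q → (∀ i b, deg (f i) A b ≤ d i) →
    (∀ i, (A.image (f i)).card * d i ≤ L * A.card) → v0 ≤ v → L ≤ v → Q ≤ v →
    v ^ 1500 ≤ d 1 → v ^ 1500 ≤ d 2 → d 1 ≤ d 0 → d 2 ≤ d 0 → d 0 ≤ v ^ G →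
    d 0 * v ^ 1500 ≤ (d 1 * d 2) ^ 2 → GoodIn f A D

private theorem Hy_num1 {P v L' n d δ F : ℕ} (hP : 1 ≤ P) (hv : 2 ≤ v) (hn : 1 ≤ n) (hd : 1 ≤ d)
    (hF : F ^ 2 ≤ v) (hδ : v ^ 1498 ≤ δ) (hL : L' ≤ v ^ 2) (hPv : 4 * (8 * P + 4) ≤ v) :
    2 * ((L' : ℝ) / n * ((F : ℝ) ^ 2 / δ) ^ P) * ((n : ℝ) / d + 1) *
      (((8 * P + 3 : ℕ) : ℝ) + 1) * ((v ^ 4 : ℕ) : ℝ) ^ (30 * (8 * P + 3 + 1)) < 1 := by
  have hv' : (2 : ℝ) ≤ v := by exact_mod_cast hv
  have hv0 : (0 : ℝ) < v := by linarith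
  have hn' : (1 : ℝ) ≤ n := by exact_mod_cast hn
  have hd' : (1 : ℝ) ≤ d := by exact_mod_cast hd
  have hδ' : (v : ℝ) ^ 1498 ≤ δ := by exact_mod_cast hδ
  have hF' : (F : ℝ) ^ 2 ≤ v := by exact_mod_cast hF
  have hL' : (L' : ℝ) ≤ (v : ℝ) ^ 2 := by exact_mod_cast hL
  have a1 : (F : ℝ) ^ 2 / δ ≤ 1 / (v : ℝ) ^ 1497 := by
    rw [div_le_div_iff₀ (lt_of_lt_of_le (by positivity) hδ') (by positivity), one_mul]
    calc (F : ℝ) ^ 2 * (v : ℝ) ^ 1497 ≤ v * (v : ℝ) ^ 1497 := by gcongr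
      _ = (v : ℝ) ^ 1498 := by ring
      _ ≤ δ := hδ'
  have a2 : ((F : ℝ) ^ 2 / δ) ^ P ≤ 1 / (v : ℝ) ^ (1497 * P) := by
    rw [pow_mul, ← one_div_pow]
    gcongr
  have a3 : (L' : ℝ) / n * ((n : ℝ) / d + 1) ≤ 2 * (v : ℝ) ^ 2 := by
    have e : (L' : ℝ) / n * ((n : ℝ) / d + 1) = L' / d + L' / n := by
      field_simp
    have b1 : (L' : ℝ) / d ≤ L' := div_le_self (Nat.cast_nonneg _) hd'
    have b2 : (L' : ℝ) / n ≤ L' := div_le_self (Nat.cast_nonneg _) hn'
    linarith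
  have a4 : 4 * (((8 * P + 3 : ℕ) : ℝ) + 1) ≤ v := by
    have : ((4 * (8 * P + 3 + 1) : ℕ) : ℝ) ≤ v := by exact_mod_cast hPv
    push_cast at this ⊢
    linarith
  have a5 : ((v ^ 4 : ℕ) : ℝ) ^ (30 * (8 * P + 3 + 1)) = (v : ℝ) ^ (960 * P + 480) := by
    rw [Nat.cast_pow, ← pow_mul]
    congr 1
    ring
  rw [a5]
  have a6 : (v : ℝ) ^ (960 * P + 483) < (v : ℝ) ^ (1497 * P) :=
    pow_lt_pow_right₀ (by linarith) (by omega)
  calc 2 * ((L' : ℝ) / n * ((F : ℝ) ^ 2 / δ) ^ P) * ((n : ℝ) / d + 1) *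
        (((8 * P + 3 : ℕ) : ℝ) + 1) * (v : ℝ) ^ (960 * P + 480)
      = 2 * ((L' : ℝ) / n * ((n : ℝ) / d + 1)) * ((F : ℝ) ^ 2 / δ) ^ P *
        (((8 * P + 3 : ℕ) : ℝ) + 1) * (v : ℝ) ^ (960 * P + 480) := by ring
    _ ≤ 2 * (2 * (v : ℝ) ^ 2) * (1 / (v : ℝ) ^ (1497 * P)) *
        (((8 * P + 3 : ℕ) : ℝ) + 1) * (v : ℝ) ^ (960 * P + 480) := by gcongr
    _ = (v : ℝ) ^ 2 * (4 * (((8 * P + 3 : ℕ) : ℝ) + 1)) * (v : ℝ) ^ (960 * P + 480) /
        (v : ℝ) ^ (1497 * P) := by ring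
    _ ≤ (v : ℝ) ^ 2 * v * (v : ℝ) ^ (960 * P + 480) / (v : ℝ) ^ (1497 * P) := by gcongr
    _ = (v : ℝ) ^ (960 * P + 483) / (v : ℝ) ^ (1497 * P) := by
        rw [show 960 * P + 483 = 2 + 1 + (960 * P + 480) by ring, pow_add _ (2 + 1), ← pow_succ]
    _ < 1 := (div_lt_one (by positivity)).2 a6

private theorem Hy_num2 {v n d : ℕ} (hv : 25 ≤ v) (hn : v ^ 1499 ≤ n) (hd : v ^ 1499 ≤ d) :
    2 * (2 / (n : ℝ)) * ((n : ℝ) / d + 1) * (((2 : ℕ) : ℝ) + 1) *
      ((v ^ 4 : ℕ) : ℝ) ^ (30 * (2 + 1)) < 1 := by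
  have hv' : (25 : ℝ) ≤ v := by exact_mod_cast hv
  have hv0 : (0 : ℝ) < v := by linarith
  have hn' : (v : ℝ) ^ 1499 ≤ n := by exact_mod_cast hn
  have hd' : (v : ℝ) ^ 1499 ≤ d := by exact_mod_cast hd
  have p0 : (0 : ℝ) < (v : ℝ) ^ 1499 := by positivity
  have hn0 : (0 : ℝ) < n := p0.trans_le hn'
  have hd0 : (0 : ℝ) < d := p0.trans_le hd'
  have a5 : ((v ^ 4 : ℕ) : ℝ) ^ (30 * (2 + 1)) = (v : ℝ) ^ 360 := by
    rw [Nat.cast_pow, ← pow_mul]
  rw [a5]
  have e : 2 * (2 / (n : ℝ)) * ((n : ℝ) / d + 1) * (((2 : ℕ) : ℝ) + 1) =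
      12 * (1 / (d : ℝ) + 1 / n) := by
    push_cast
    field_simp
    ring
  rw [e]
  have b1 : 1 / (d : ℝ) ≤ 1 / (v : ℝ) ^ 1499 := one_div_le_one_div_of_le p0 hd'
  have b2 : 1 / (n : ℝ) ≤ 1 / (v : ℝ) ^ 1499 := one_div_le_one_div_of_le p0 hn'
  have a6 : (v : ℝ) ^ 361 ≤ (v : ℝ) ^ 1499 := pow_le_pow_right₀ (by linarith) (by norm_num)
  calc 12 * (1 / (d : ℝ) + 1 / n) * (v : ℝ) ^ 360
      ≤ 12 * (1 / (v : ℝ) ^ 1499 + 1 / (v : ℝ) ^ 1499) * (v : ℝ) ^ 360 := by gcongr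
    _ = 24 * (v : ℝ) ^ 360 / (v : ℝ) ^ 1499 := by
        generalize (v : ℝ) ^ 360 = x
        generalize (v : ℝ) ^ 1499 = y
        ring
    _ < (v : ℝ) * (v : ℝ) ^ 360 / (v : ℝ) ^ 1499 := by
        gcongr
        linarith
    _ ≤ 1 := by
        rw [div_le_one p0, ← pow_succ']
        exact a6

private theorem Hy_mono {E B : Type} [DecidableEq E] [DecidableEq B] {f : Fin 3 → E → B}
    {A : Finset E} {D D' : ℕ} (hD : D ≤ D') (h : GoodIn f A D) : GoodIn f A D' := by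
  obtain ⟨S, h1, h2, h3⟩ := h
  exact ⟨S, h1, h2, fun i e he => ⟨(h3 i e he).1, (h3 i e he).2.trans hD⟩⟩

private theorem Hy_h2 {F d δ v Λ : ℕ} (hF : 1024 * F ^ 3 ≤ v) (hΛ : Λ ≤ 32 * v) (hd : d ≤ Λ * δ)
    (hδ : v ≤ δ) : F ^ 3 * (d + (v ^ 4) ^ 2) ≤ δ * (v ^ 4) ^ 2 := by
  have h1 : 2 * (F ^ 3 * (v ^ 4) ^ 2) ≤ δ * (v ^ 4) ^ 2 := by
    rw [← mul_assoc]
    exact Nat.mul_le_mul_right _ (by omega)
  have h2 : 2 * (F ^ 3 * d) ≤ δ * (v ^ 4) ^ 2 := by
    rcases Nat.eq_zero_or_pos v with h0 | h0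
    · subst h0
      have : F ^ 3 = 0 := by omega
      rw [this]
      simp
    calc 2 * (F ^ 3 * d) ≤ 2 * (F ^ 3 * (32 * v * δ)) := by
          gcongr
          exact hd.trans (Nat.mul_le_mul_right _ hΛ)
      _ = δ * (64 * F ^ 3 * v) := by ring
      _ ≤ δ * (v * v) := by gcongr; omega
      _ = δ * v ^ 2 := by ring
      _ ≤ δ * (v ^ 4) ^ 2 := by
          rw [← pow_mul]
          exact Nat.mul_le_mul_left _ (Nat.pow_le_pow_right h0 (by norm_num))
  rw [mul_add]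
  omega

/-- The case of a simple graph with large minimum degrees. -/
private theorem Hy_host {E B : Type} [DecidableEq E] [DecidableEq B] [Fintype E] [Fintype B]
    [Nonempty E] (f : Fin 3 → E → B) {d d1 d2 δ1 δ2 : ℕ} (h : Host (f 1) (f 2) d1 d2 δ1 δ2)
    (G P L Q v : ℕ) (hP : P = 11 * (G + 1)) (hd : ∀ i b, deg (f i) univ b ≤ d)
    (hN : (univ.image (f 0)).card * d ≤ 8 * L * Fintype.card E) (hv : (2 ^ 20 * P) ^ 10 ≤ v)
    (hL : L ≤ v) (hQ : Fintype.card E < 2 ^ Q) (hQv : Q ≤ v) (e1 : d1 ≤ 32 * L * δ1)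
    (e2 : d2 ≤ 32 * L * δ2) (g1 : v ^ 1500 ≤ d1) (g2 : v ^ 1500 ≤ d2) (hd1 : 1 ≤ d)
    (hG : d ≤ v ^ G) (hR : d * v ^ 1500 ≤ (d1 * d2) ^ 2) : GoodIn f univ (60000 * P ^ 3) := by
  have hP1 : 1 ≤ P := by omega
  have hF : 1024 * (200 * P) ^ 3 ≤ v := by
    refine le_trans ?_ hv
    calc 1024 * (200 * P) ^ 3 = (1024 * 200 ^ 3) * P ^ 3 := by ring
      _ ≤ (2 ^ 20) ^ 10 * P ^ 10 :=
          Nat.mul_le_mul (by norm_num) (Nat.pow_le_pow_right hP1 (by norm_num))
      _ = (2 ^ 20 * P) ^ 10 := by rw [mul_pow]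
  have hF1 : 200 * P ≤ (200 * P) ^ 3 := Nat.le_self_pow (by norm_num) _
  have hF2 : (200 * P) ^ 2 ≤ (200 * P) ^ 3 := Nat.pow_le_pow_right (by omega) (by norm_num)
  have hv0 : 0 < v := by omega
  have hv2 : 1024 * v ≤ v ^ 2 := by
    rw [sq]
    exact Nat.mul_le_mul_right _ (by omega)
  have hv4 : v ^ 2 ≤ v ^ 4 := Nat.pow_le_pow_right hv0 (by norm_num)
  have hΛ : 32 * L ≤ v ^ 2 := by omega
  have hδ : ∀ {a δ : ℕ}, v ^ 1500 ≤ a → a ≤ 32 * L * δ → v ^ 1498 ≤ δ := fun {a δ} h1 h2 => by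
    refine Nat.le_of_mul_le_mul_left (c := v ^ 2) ?_ (by positivity)
    calc v ^ 2 * v ^ 1498 = v ^ 1500 := by rw [← pow_add]
      _ ≤ 32 * L * δ := h1.trans h2
      _ ≤ v ^ 2 * δ := Nat.mul_le_mul_right _ hΛ
  have k1 := hδ g1 e1
  have k2 := hδ g2 e2
  have hvv : v ≤ v ^ 1498 := Nat.le_self_pow (by norm_num) _
  have hn : 1 ≤ Fintype.card E := Fintype.card_pos
  have hL' : 4 * (200 * P) * (32 * L) ≤ v ^ 2 := by
    calc 4 * (200 * P) * (32 * L) = (128 * (200 * P)) * L := by ring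
      _ ≤ v * v := Nat.mul_le_mul (by omega) hL
      _ = v ^ 2 := (sq v).symm
  have hpw : v ^ 3 * v ^ G ≤ (v ^ 4) ^ (G + 1) := by
    rw [← pow_add, ← pow_mul]
    exact Nat.pow_le_pow_right hv0 (by omega)
  have hv3 : 2 * v ^ 2 ≤ v ^ 3 := by
    rw [pow_succ v 2, mul_comm 2]
    exact Nat.mul_le_mul_left _ (by omega)
  have key : ∀ (δ : ℕ) (ϖ : (Fin (8 * P + 3 + 1) → E) → ℝ), v ^ 1498 ≤ δ →
      Law (f 1) (f 2) (8 * P + 3) P ((4 * (200 * P) * (32 * L) : ℕ) / Fintype.card E)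
        ((4 * (200 * P) * (32 * L) : ℕ) / Fintype.card E * (((200 * P : ℕ) : ℝ) ^ 2 / δ) ^ P) ϖ →
      GoodIn f univ (60000 * P ^ 3) := fun δ ϖ hk hl => by
    refine Hy_mono ?_ (gadget f (8 * P + 3) P (G + 1) Q (v ^ 4) d (8 * L)
      (4 * (200 * P) * (32 * L)) _ ϖ hl hd hN ?_ ?_ hP.ge hP1 ?_ hQ (by omega) (by omega)
      (Hy_num1 hP1 (by omega) hn hd1 (by omega) hk hL' (by omega)))
    · calc 36 * (8 * P + 3 + 1) * P ≤ 36 * (12 * P) * P := by gcongr; omega
        _ = 432 * P ^ 2 := by ring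
        _ ≤ 60000 * P ^ 3 :=
          Nat.mul_le_mul (by norm_num) (Nat.pow_le_pow_right hP1 (by norm_num))
    · calc 8 * L * (4 * (200 * P) * (32 * L)) ≤ v ^ 2 * v ^ 2 := Nat.mul_le_mul (by omega) hL'
        _ = v ^ 4 := by rw [← pow_add]
    · calc 2 * (4 * (200 * P) * (32 * L) * d) ≤ 2 * (v ^ 2 * v ^ G) := by gcongr
        _ = 2 * v ^ 2 * v ^ G := by rw [mul_assoc]
        _ ≤ v ^ 3 * v ^ G := Nat.mul_le_mul_right _ hv3
        _ ≤ _ := hpw
    · calc 24 * (8 * P + 3 + 1) * P ≤ 24 * (12 * P) * P := by gcongr; omega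
        _ = 288 * P ^ 2 := by ring
        _ ≤ 40000 * P ^ 2 := by gcongr; norm_num
        _ = (200 * P) ^ 2 := by ring
        _ ≤ v ^ 4 := by omega
  have hc : 1 ≤ (v ^ 4) ^ 2 := Nat.one_le_pow _ _ (by positivity)
  by_cases c1 : (Fintype.card E : ℝ) ≤ (200 * P : ℕ) * X.hv (f 1) (f 2) ((v ^ 4) ^ 2)
  · obtain ⟨ϖ, hl⟩ := ladder h ((v ^ 4) ^ 2) (200 * P) P (32 * L) hc hP1 (by omega) e2
      (by omega) (Hy_h2 hF (by omega) e2 (by omega)) c1
    exact key δ2 ϖ k2 hl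
  by_cases c2 : (Fintype.card E : ℝ) ≤ (200 * P : ℕ) * X.hv (f 2) (f 1) ((v ^ 4) ^ 2)
  · obtain ⟨ϖ, hl⟩ := ladder h.swap ((v ^ 4) ^ 2) (200 * P) P (32 * L) hc hP1 (by omega) e1
      (by omega) (Hy_h2 hF (by omega) e1 (by omega)) c2
    exact key δ1 ϖ k1 hl.swap
  have h16 : (v ^ 4) ^ 4 ≤ v ^ 1498 := by
    rw [← pow_mul]
    exact Nat.pow_le_pow_right hv0 (by norm_num)
  refine Hy_mono (le_of_eq (by ring)) (honey f h P (G + 1) Q (v ^ 4) ((v ^ 4) ^ 2) hd
    (hN.trans (Nat.mul_le_mul_right _ (by omega)))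
    (e1.trans (Nat.mul_le_mul_right _ (by omega)))
    (e2.trans (Nat.mul_le_mul_right _ (by omega))) (h16.trans k1) (h16.trans k2) ?_
    (Nat.pow_le_pow_right (by positivity) (by norm_num)) (not_le.1 c1).le (not_le.1 c2).le ?_
    hP.ge hP1 (by omega) hQ (by omega))
  · refine Nat.le_of_mul_le_mul_left (c := v ^ 8) ?_ (by positivity)
    calc v ^ 8 * (d * (v ^ 4) ^ 160) = d * v ^ 648 := by
          rw [← pow_mul, mul_left_comm, ← pow_add]
      _ ≤ d * v ^ 1500 := Nat.mul_le_mul_left _ (Nat.pow_le_pow_right hv0 (by norm_num))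
      _ ≤ (d1 * d2) ^ 2 := hR
      _ ≤ (v ^ 2 * δ1 * (v ^ 2 * δ2)) ^ 2 :=
          Nat.pow_le_pow_left (Nat.mul_le_mul (e1.trans (Nat.mul_le_mul_right _ hΛ))
            (e2.trans (Nat.mul_le_mul_right _ hΛ))) _
      _ = v ^ 8 * (δ1 * δ2) ^ 2 := by ring
  · calc 2 * d ≤ v ^ 3 * v ^ G := Nat.mul_le_mul (by omega) hG
      _ ≤ _ := hpw

private theorem Hy_deg_le {E B : Type} [DecidableEq B] (g : E → B) {S T : Finset E} (h : S ⊆ T)
    (b : B) : deg g S b ≤ deg g T b :=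
  card_le_card (filter_subset_filter _ h)

private theorem Hy_div {d L v : ℕ} (hL0 : 0 < L) (hL : L ≤ v) (hv : 16 ≤ v) (hd : v ^ 1500 ≤ d) :
    1 ≤ d / (16 * L) ∧ d ≤ 32 * L * (d / (16 * L)) := by
  have h1 : 16 * L ≤ d := by
    calc 16 * L ≤ v * v := Nat.mul_le_mul hv hL
      _ = v ^ 2 := (sq v).symm
      _ ≤ v ^ 1500 := Nat.pow_le_pow_right (by omega) (by norm_num)
      _ ≤ d := hd
  have h2 : 1 ≤ d / (16 * L) := (Nat.le_div_iff_mul_le (by omega)).2 (by omega)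
  refine ⟨h2, ?_⟩
  have h3 : d < 16 * L * (d / (16 * L) + 1) := Nat.lt_mul_div_succ d (by omega)
  calc d ≤ 16 * L * (d / (16 * L) + 1) := h3.le
    _ ≤ 16 * L * (2 * (d / (16 * L))) := Nat.mul_le_mul_left _ (by omega)
    _ = 32 * L * (d / (16 * L)) := by ring

private theorem Hy_cl {E B : Type} [DecidableEq B] [Fintype E] (g : E → B) (S : Finset E)
    {d L : ℕ} (hL0 : 0 < L) (hN : (univ.image g).card * d ≤ L * Fintype.card E)
    (hS : Fintype.card E ≤ 4 * S.card) : 4 * (d / (16 * L)) * (S.image g).card ≤ S.card := by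
  refine Nat.le_of_mul_le_mul_left (c := 4 * L) ?_ (by omega)
  calc 4 * L * (4 * (d / (16 * L)) * (S.image g).card)
      = (S.image g).card * (16 * L * (d / (16 * L))) := by ring
    _ ≤ (univ.image g).card * d :=
        Nat.mul_le_mul (card_le_card (image_subset_image (subset_univ _))) (Nat.mul_div_le _ _)
    _ ≤ L * Fintype.card E := hN
    _ ≤ L * (4 * S.card) := Nat.mul_le_mul_left _ hS
    _ = 4 * L * S.card := by ring

/-- The theorem for a finite type of edges. -/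
private theorem Hy_fin {E B : Type} [DecidableEq E] [DecidableEq B] [Fintype E] [Fintype B]
    [Nonempty E] (f : Fin 3 → E → B) (d : Fin 3 → ℕ) (G P L Q v : ℕ) (hP : P = 11 * (G + 1))
    (hQ : Fintype.card E < 2 ^ Q) (hd : ∀ i b, deg (f i) univ b ≤ d i)
    (hN : ∀ i, (univ.image (f i)).card * d i ≤ L * Fintype.card E) (hv : (2 ^ 20 * P) ^ 10 ≤ v)
    (hL : L ≤ v) (hQv : Q ≤ v) (g1 : v ^ 1500 ≤ d 1) (g2 : v ^ 1500 ≤ d 2) (m1 : d 1 ≤ d 0)
    (m2 : d 2 ≤ d 0) (hG : d 0 ≤ v ^ G) (hR : d 0 * v ^ 1500 ≤ (d 1 * d 2) ^ 2) :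
    GoodIn f univ (60000 * P ^ 3) := by
  have hP1 : 1 ≤ P := by omega
  have hvP : 2 ^ 20 * P ≤ v := (Nat.le_self_pow (by norm_num) _).trans hv
  have hv0 : 0 < v := by omega
  have hd0 : ∀ i b, deg (f i) univ b ≤ d 0 := fun i b => (hd i b).trans (by
    fin_cases i
    exacts [le_rfl, m1, m2])
  have hp : 0 < v ^ 1500 := by positivity
  have hdn : d 0 ≤ L * Fintype.card E :=
    le_trans (Nat.le_mul_of_pos_left _ (card_pos.2 (univ_nonempty.image _))) (hN 0)
  have hL0 : 0 < L := Nat.pos_of_ne_zero fun h0 => by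
    rw [h0, zero_mul] at hdn
    omega
  have hv2 : 1024 * v ≤ v ^ 2 := by
    rw [sq]
    exact Nat.mul_le_mul_right _ (by omega)
  have hv4 : v ^ 2 ≤ v ^ 4 := Nat.pow_le_pow_right hv0 (by norm_num)
  rcases par (f 1) (f 2) P with ⟨ϖ, hl⟩ | ⟨S, hS, hs⟩
  · have hn : v ^ 1499 ≤ Fintype.card E := by
      refine Nat.le_of_mul_le_mul_left (c := v) ?_ hv0
      calc v * v ^ 1499 = v ^ 1500 := by rw [← pow_succ']
        _ ≤ L * Fintype.card E := g1.trans (m1.trans hdn)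
        _ ≤ v * Fintype.card E := Nat.mul_le_mul_right _ hL
    have hdd : v ^ 1499 ≤ d 0 :=
      (Nat.pow_le_pow_right hv0 (by norm_num)).trans (g1.trans m1)
    refine Hy_mono ?_ (gadget f 2 P (G + 1) Q (v ^ 4) (d 0) L 2 _ ϖ
      (by rw [Nat.cast_ofNat]; exact hl) hd0 (hN 0) (by omega) ?_ hP.ge hP1 (by omega) hQ
      (by omega) (by omega) (Hy_num2 (by omega) hn hdd))
    · calc 36 * (2 + 1) * P ≤ 60000 * P := by omega
        _ ≤ 60000 * P ^ 3 := Nat.mul_le_mul_left _ (Nat.le_self_pow (by norm_num) _)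
    · calc 2 * (2 * d 0) = 4 * d 0 := by ring
        _ ≤ v ^ 4 * v ^ G := Nat.mul_le_mul (by omega) hG
        _ ≤ (v ^ 4) ^ (G + 1) := by
          rw [← pow_add, ← pow_mul]
          exact Nat.pow_le_pow_right hv0 (by omega)
  · obtain ⟨S', h1, h2, h3⟩ := clean (f 1) (f 2) S (d 1 / (16 * L)) (d 2 / (16 * L))
      (Hy_cl (f 1) S hL0 (hN 1) hS) (Hy_cl (f 2) S hL0 (hN 2) hS)
    have hn : 0 < Fintype.card E := Fintype.card_pos
    have hne : S'.Nonempty := card_pos.1 (by omega)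
    haveI : Nonempty S' := hne.to_subtype
    obtain ⟨p1, e1⟩ := Hy_div hL0 hL (by omega) g1
    obtain ⟨p2, e2⟩ := Hy_div hL0 hL (by omega) g2
    have hdS : ∀ i b, deg (fun e : S' => f i e) univ b ≤ d i := fun i b => by
      rw [deg_sub]
      exact (Hy_deg_le _ (subset_univ _) b).trans (hd i b)
    have hH : Host (fun e : S' => f 1 e) (fun e : S' => f 2 e) (d 1) (d 2) (d 1 / (16 * L))
        (d 2 / (16 * L)) :=
      ⟨fun e e' a b => Subtype.ext (hs _ (h1 e.2) _ (h1 e'.2) a b), hdS 1, hdS 2,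
        fun e => by rw [deg_sub]; exact (h3 _ e.2).1, fun e => by rw [deg_sub]; exact (h3 _ e.2).2,
        p1, p2⟩
    have hcS : Fintype.card S' = S'.card := Fintype.card_coe _
    refine good_sub f S' univ (subset_univ _) le_rfl
      (Hy_host (fun i (e : S') => f i e) hH G P L Q v hP
        (fun i b => (hdS i b).trans (by
          fin_cases i
          exacts [le_rfl, m1, m2])) ?_ hv hL ?_ hQv e1 e2 g1 g2 (by omega) hG hR)
    · rw [image_sub, hcS]
      calc (S'.image (f 0)).card * d 0 ≤ (univ.image (f 0)).card * d 0 :=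
            Nat.mul_le_mul_right _ (card_le_card (image_subset_image (subset_univ _)))
        _ ≤ L * Fintype.card E := hN 0
        _ ≤ L * (8 * S'.card) := Nat.mul_le_mul_left _ (by omega)
        _ = 8 * L * S'.card := by ring
    · rw [hcS]
      exact (card_le_univ _).trans_lt hQ

/-- All lemmas are used with `V = v ^ 4`, `G' = G + 1`, `P = 11 (G + 1)`, `F = 200 P`,
`c0 = V ^ 2`, `δ i = d i / (16 L)`, `Λ = 32 L`. `par` on the subtype `A`: `gadget` (`m = 2`,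
`L' = 2`), or a simple part `S`, then `clean`, then on the subtype `S'` either `ladder` (for
`h` or `h.swap`, with `Law.swap`) and `gadget` (`8 L` for `L`), or `honey`. -/
theorem hyp (G : ℕ) : ∃ D v0 : ℕ, HypX G D v0 := by
  refine ⟨60000 * (11 * (G + 1)) ^ 3, (2 ^ 20 * (11 * (G + 1))) ^ 10, ?_⟩
  intro α B _ _ _ f A d L Q v hA hQ hd hN hv hL hQv g1 g2 m1 m2 hG hR
  haveI : Nonempty A := hA.to_subtype
  have hc : Fintype.card A = A.card := Fintype.card_coe _
  exact good_sub f A A Subset.rfl le_rfl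
    (Hy_fin (fun i (e : A) => f i e) d G _ L Q v rfl (by rw [hc]; exact hQ)
      (fun i b => by rw [deg_sub]; exact hd i b) (fun i => by rw [image_sub, hc]; exact hN i)
      hv hL hQv g1 g2 m1 m2 hG hR)

end Pool.Agent.Work.MP_78fef3_co.X
end
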