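import Pool.Agent.Work.MP_78fef3_co.R.LowerR
import Pool.Agent.Work.MP_78fef3_co.R.UpperR

-- merged part: Pool.Agent.Work.MP_78fef3_co.X.Defs
section
/-! Definitions for the exact constant at `k = 2`. Paper: `h22_78fef3_exact2.md`. -/

namespace Pool.Agent.Work.MP_78fef3_co.X

open Finset Pool.Agent.Work.MP_78fef3_co.S

variable {E B : Type} [DecidableEq E] [DecidableEq B]

/-- A nonempty part of `A` with all degrees between `3` and `D`. -/
def GoodIn (f : Fin 3 → E → B) (A : Finset E) (D : ℕ) : Prop :=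
  ∃ S ⊆ A, S.Nonempty ∧ ∀ i, ∀ e ∈ S, 3 ≤ deg (f i) S (f i e) ∧ deg (f i) S (f i e) ≤ D

/-- Vertices of degree one or two. -/
def defi (g : E → B) (W : Finset E) : Finset B := (W.image g).filter fun v => deg g W v ≤ 2

/-- Ordered pairs with the same value. -/
def coin {O : Type} [Fintype O] (x : O → B) : ℕ :=
  (univ.filter fun p : O × O => x p.1 = x p.2).card

/-- A common end point. -/
def Sh (u w : E → B) (e e' : E) : Prop := u e = u e' ∨ w e = w e'

/-- A law on chains of `m + 1` edges with few deficient vertices, marginals at most `a` and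
points at most `p`. -/
structure Law [Fintype E] (u w : E → B) (m P : ℕ) (a p : ℝ) (ϖ : (Fin (m + 1) → E) → ℝ) :
    Prop where
  nonneg : ∀ γ, 0 ≤ ϖ γ
  total : ∑ γ, ϖ γ = 1
  chain : ∀ γ, ϖ γ ≠ 0 → ∀ r : Fin m, Sh u w (γ r.succ) (γ r.castSucc)
  defu : ∀ γ, ϖ γ ≠ 0 → P * (defi u (univ.image γ)).card ≤ m + 1
  defw : ∀ γ, ϖ γ ≠ 0 → P * (defi w (univ.image γ)).card ≤ m + 1
  marg : ∀ r e, ∑ γ, (if γ r = e then ϖ γ else 0) ≤ a
  point : ∀ γ, ϖ γ ≤ p

variable [Fintype E]

/-- Non-backtracking step through the vertex `g e`. -/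
noncomputable def nb (g : E → B) (e e' : E) : ℝ :=
  if g e = g e' ∧ e ≠ e' then 1 / ((deg g univ (g e) : ℝ) - 1) else 0

/-- Number of paths of length two between `a` and `a'`. -/
def cod (u w : E → B) (a a' : B) : ℕ :=
  (univ.filter fun x : E × E => u x.1 = a ∧ u x.2 = a' ∧ w x.1 = w x.2 ∧ x.1 ≠ x.2).card

/-- Mass of the heavy paths of length two. -/
noncomputable def hv (u w : E → B) (c : ℕ) : ℝ :=
  ∑ p, ∑ r, if c < cod u w (u p) (u r) then nb w p r else 0

/-- Mass of the class of `s`. -/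
noncomputable def cm {Ω X : Type} [Fintype Ω] [DecidableEq X] (π : Ω → ℝ) (ξ : Ω → X) (s : Ω) :
    ℝ := ∑ s', if ξ s' = ξ s then π s' else 0

/-- Two conditionally independent copies: the unnormalised mean of `F`. -/
noncomputable def two {Ω X : Type} [Fintype Ω] [DecidableEq X] (π : Ω → ℝ) (ξ : Ω → X)
    (F : Ω → Ω → ℝ) : ℝ := ∑ s, π s * ∑ s', if ξ s' = ξ s then π s' / cm π ξ s * F s s' else 0

/-- The law of the walk. -/
noncomputable def mu {Ω X : Type} [Fintype Ω] [DecidableEq X] (π : Ω → ℝ) (ξ : ℕ → Ω → X) {l : ℕ}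
    (x : Fin (l + 1) → Ω) : ℝ :=
  π (x 0) / (∑ s, π s) * ∏ τ : Fin l,
    if ξ τ (x τ.succ) = ξ τ (x τ.castSucc) then π (x τ.succ) / cm π (ξ τ) (x τ.castSucc) else 0

variable {I : Type} [Fintype I] [DecidableEq I]

/-- Partial matchings between consecutive levels. -/
def IsM (lev : I → ℕ) (lam : Finset (I × I)) : Prop :=
  (∀ l ∈ lam, lev l.2 = lev l.1 + 1) ∧ (∀ l ∈ lam, ∀ l' ∈ lam, l.1 = l'.1 → l = l') ∧
    ∀ l ∈ lam, ∀ l' ∈ lam, l.2 = l'.2 → l = l'

noncomputable instance (lev : I → ℕ) (lam : Finset (I × I)) : Decidable (IsM lev lam) :=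
  Classical.dec _

/-- Weight of a state. -/
noncomputable def wt (lev : I → ℕ) (K : ℕ → E → E → ℝ) (ν : ℝ) (s : (I → E) × Finset (I × I)) :
    ℝ := if IsM lev s.2 then ∏ l ∈ s.2, ν * K (lev l.1) (s.1 l.1) (s.1 l.2) else 0

/-- The levels that are kept at time `τ`. -/
def fx (lev : I → ℕ) (τ : ℕ) (s : (I → E) × Finset (I × I)) : I → Option E :=
  fun x => if lev x % 4 = 2 * τ % 4 then some (s.1 x) else none

/-- Doubly stochastic kernels. -/
structure DS (K : ℕ → E → E → ℝ) : Prop where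
  nonneg : ∀ j e e', 0 ≤ K j e e'
  row : ∀ j e, ∑ e', K j e e' = 1
  col : ∀ j e', ∑ e, K j e e' = 1

/-- Levels `0, …, J` with `t` slots each. -/
structure Lv (lev : I → ℕ) (J t : ℕ) : Prop where
  le : ∀ x, lev x ≤ J
  card : ∀ j ≤ J, (univ.filter fun x => lev x = j).card = t

/-- Slots of level `j` with no link to the next level. -/
def mr (lev : I → ℕ) (j : ℕ) (lam : Finset (I × I)) : ℕ :=
  (univ.filter fun x => lev x = j ∧ ∀ y, (x, y) ∉ lam).card

/-- Slots of level `j + 1` with no link to the previous level. -/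
def ml (lev : I → ℕ) (j : ℕ) (lam : Finset (I × I)) : ℕ :=
  (univ.filter fun y => lev y = j + 1 ∧ ∀ x, (x, y) ∉ lam).card

/-- Slots of level `j` whose links to the next level carry the same edge in both states. -/
def same (lev : I → ℕ) (j : ℕ) (s s' : (I → E) × Finset (I × I)) : ℕ :=
  (univ.filter fun a => lev a = j ∧
    ∃ b b', (a, b) ∈ s.2 ∧ (a, b') ∈ s'.2 ∧ s.1 b = s'.1 b').card

/-- The same for the links to the previous level. -/
def samel (lev : I → ℕ) (j : ℕ) (s s' : (I → E) × Finset (I × I)) : ℕ :=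
  (univ.filter fun a => lev a = j ∧
    ∃ b b', (b, a) ∈ s.2 ∧ (b', a) ∈ s'.2 ∧ s.1 b = s'.1 b').card

/-- The kernels of the honeycomb. -/
noncomputable def hk (u w : E → B) (j : ℕ) : E → E → ℝ := if j % 2 = 0 then nb w else nb u

/-- A simple bipartite graph with degree bounds. -/
structure Host (u w : E → B) (d1 d2 δ1 δ2 : ℕ) : Prop where
  simple : ∀ e e', u e = u e' → w e = w e' → e = e'
  max1 : ∀ b, deg u univ b ≤ d1
  max2 : ∀ b, deg w univ b ≤ d2
  min1 : ∀ e, δ1 < deg u univ (u e)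
  min2 : ∀ e, δ2 < deg w univ (w e)
  pos1 : 1 ≤ δ1
  pos2 : 1 ≤ δ2

omit [DecidableEq E] in
theorem Host.swap {u w : E → B} {d1 d2 δ1 δ2 : ℕ} (h : Host u w d1 d2 δ1 δ2) :
    Host w u d2 d1 δ2 δ1 :=
  ⟨fun e e' a b => h.simple e e' b a, h.max2, h.max1, h.min2, h.min1, h.pos2, h.pos1⟩

theorem Law.swap {u w : E → B} {m P : ℕ} {a p : ℝ} {ϖ : (Fin (m + 1) → E) → ℝ}
    (h : Law u w m P a p ϖ) : Law w u m P a p ϖ :=
  ⟨h.nonneg, h.total, fun γ a r => (h.chain γ a r).symm, h.defw, h.defu, h.marg, h.point⟩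

theorem nb_nonneg (g : E → B) (e e' : E) : 0 ≤ nb g e e' := by
  unfold nb
  split_ifs with h
  · have : 1 ≤ deg g univ (g e) := card_pos.2 ⟨e, by simp⟩
    have : (1 : ℝ) ≤ deg g univ (g e) := by exact_mod_cast this
    exact div_nonneg zero_le_one (by linarith)
  · exact le_rfl

theorem nb_symm (g : E → B) (e e' : E) : nb g e e' = nb g e' e := by
  unfold nb
  by_cases h : g e = g e' ∧ e ≠ e'
  · rw [if_pos h, if_pos ⟨h.1.symm, h.2.symm⟩, h.1]
  · rw [if_neg h, if_neg fun h' => h ⟨h'.1.symm, h'.2.symm⟩]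

theorem nb_ne {g : E → B} {e e' : E} (h : nb g e e' ≠ 0) : g e = g e' ∧ e ≠ e' := by
  by_contra h'
  exact h (if_neg h')

theorem nb_le {g : E → B} {δ : ℕ} (h1 : 1 ≤ δ) (h : ∀ e, δ < deg g univ (g e)) (e e' : E) :
    nb g e e' ≤ 1 / δ := by
  have h0 : (0 : ℝ) < δ := by exact_mod_cast h1
  unfold nb
  split_ifs
  · have : (δ : ℝ) + 1 ≤ deg g univ (g e) := by exact_mod_cast h e
    exact one_div_le_one_div_of_le h0 (by linarith)
  · positivity

theorem nb_row {g : E → B} (e : E) (h : 1 < deg g univ (g e)) : ∑ e', nb g e e' = 1 := by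
  unfold nb
  rw [← sum_filter, sum_const, nsmul_eq_mul]
  have h1 : (univ.filter fun e' => g e = g e' ∧ e ≠ e') =
      (univ.filter fun e' => g e' = g e).erase e := by
    ext x
    simp only [mem_filter, mem_univ, true_and, mem_erase]
    exact ⟨fun a => ⟨a.2.symm, a.1.symm⟩, fun a => ⟨a.2.symm, a.1.symm⟩⟩
  have h2 : (1 : ℝ) < deg g univ (g e) := by exact_mod_cast h
  rw [h1, card_erase_of_mem (by simp)]
  change (((deg g univ (g e) - 1 : ℕ) : ℝ)) * _ = 1
  rw [Nat.cast_sub h.le, Nat.cast_one, mul_one_div, div_self (by linarith)]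

theorem Host.ds {u w : E → B} {d1 d2 δ1 δ2 : ℕ} (h : Host u w d1 d2 δ1 δ2) : DS (hk u w) := by
  have r : ∀ j e, ∑ e', hk u w j e e' = 1 := fun j e => by
    unfold hk
    split_ifs
    · exact nb_row e (h.pos2.trans_lt (h.min2 e))
    · exact nb_row e (h.pos1.trans_lt (h.min1 e))
  refine ⟨fun j e e' => ?_, r, fun j e' => (sum_congr rfl fun e _ => ?_).trans (r j e')⟩
  · unfold hk
    split_ifs <;> exact nb_nonneg _ _ _
  · unfold hk
    split_ifs <;> exact nb_symm _ _ _

end Pool.Agent.Work.MP_78fef3_co.X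
end

-- merged part: Pool.Agent.Work.MP_78fef3_co.X.Walk
section
/-! The walk defined by a sequence of projections. -/

namespace Pool.Agent.Work.MP_78fef3_co.X

open Finset

variable {Ω X : Type} [Fintype Ω] [DecidableEq X] {π : Ω → ℝ} {ξ : ℕ → Ω → X} {l : ℕ}

theorem cm_nonneg (h0 : ∀ s, 0 ≤ π s) (η : Ω → X) (s : Ω) : 0 ≤ cm π η s :=
  sum_nonneg fun s' _ => ite_nonneg (h0 s') le_rfl

theorem mu_nonneg (h0 : ∀ s, 0 ≤ π s) (x : Fin (l + 1) → Ω) : 0 ≤ mu π ξ x :=
  mul_nonneg (div_nonneg (h0 _) (sum_nonneg fun s _ => h0 s)) (prod_nonneg fun _ _ =>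
    ite_nonneg (div_nonneg (h0 _) (cm_nonneg h0 _ _)) le_rfl)

theorem Wk_row {η : Ω → X} {s : Ω} (hc : 0 < cm π η s) (c : ℝ) :
    ∑ s', (if η s' = η s then π s' / cm π η s * c else 0) = c := by
  have h : ∑ s', (if η s' = η s then π s' / cm π η s * c else 0) = cm π η s * (c / cm π η s) :=
    (sum_congr rfl fun s' _ => by rw [ite_mul, zero_mul, div_mul_eq_mul_div, mul_div_assoc]).trans
      (sum_mul _ _ _).symm
  rw [h, mul_div_cancel₀ _ hc.ne']

theorem two_left {η : Ω → X} (hc : ∀ s, 0 < cm π η s) (F : Ω → ℝ) :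
    two π η (fun s _ => F s) = ∑ s, π s * F s :=
  sum_congr rfl fun s _ => congrArg (π s * ·) (Wk_row (hc s) (F s))

theorem Wk_symm (η : Ω → X) (F : Ω → Ω → ℝ) : two π η F = two π η fun s s' => F s' s := by
  simp only [two, mul_sum]
  rw [sum_comm]
  refine sum_congr rfl fun s _ => sum_congr rfl fun s' _ => ?_
  by_cases h : η s' = η s
  · have e : cm π η s' = cm π η s := by simp only [cm, h]
    rw [if_pos h, if_pos h.symm, e]
    ring
  · rw [if_neg h, if_neg fun h' => h h'.symm, mul_zero, mul_zero]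

theorem two_right {η : Ω → X} (hc : ∀ s, 0 < cm π η s) (F : Ω → ℝ) :
    two π η (fun _ s' => F s') = ∑ s, π s * F s :=
  (Wk_symm η _).trans (two_left hc F)

theorem Wk_snoc (G : (Fin (l + 2) → Ω) → ℝ) :
    ∑ x : Fin (l + 2) → Ω, mu π ξ x * G x = ∑ x : Fin (l + 1) → Ω, mu π ξ x *
      ∑ y, if ξ l y = ξ l (x (Fin.last l)) then
        π y / cm π (ξ l) (x (Fin.last l)) * G (Fin.snoc x y) else 0 := by
  rw [← (Fin.snocEquiv fun _ : Fin (l + 2) => Ω).sum_comp, Fintype.sum_prod_type_right]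
  refine sum_congr rfl fun x _ => ?_
  rw [mul_sum]
  refine sum_congr rfl fun y _ => ?_
  have e : (Fin.snocEquiv fun _ : Fin (l + 2) => Ω) (y, x) = (Fin.snoc x y : Fin (l + 2) → Ω) := rfl
  have e0 : (Fin.snoc x y : Fin (l + 2) → Ω) 0 = x 0 :=
    Fin.snoc_castSucc (α := fun _ : Fin (l + 2) => Ω) y x 0
  rw [e, mu, mu, Fin.prod_univ_castSucc, e0]
  simp only [Fin.succ_castSucc, Fin.snoc_castSucc, Fin.succ_last, Fin.snoc_last, Fin.val_castSucc,
    Fin.val_last]
  split_ifs <;> ring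

/-- Stationarity. -/
theorem walk_one (hc : ∀ τ s, 0 < cm π (ξ τ) s) (τ : Fin (l + 1)) (F : Ω → ℝ) :
    ∑ x : Fin (l + 1) → Ω, mu π ξ x * F (x τ) = (∑ s, π s * F s) / ∑ s, π s := by
  induction l generalizing F with
  | zero =>
    rw [sum_div, ← (Equiv.funUnique (Fin 1) Ω).sum_comp]
    refine sum_congr rfl fun x _ => ?_
    rw [mu, Fin.prod_univ_zero, mul_one, Fin.fin_one_eq_zero τ, div_mul_eq_mul_div]
    rfl
  | succ l ih =>
    rw [Wk_snoc]
    induction τ using Fin.lastCases with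
    | last =>
      simp only [Fin.snoc_last]
      rw [ih (Fin.last l) fun s => ∑ y, if ξ l y = ξ l s then π y / cm π (ξ l) s * F y else 0,
        ← two_right (hc l) F, two]
    | cast τ =>
      simp only [Fin.snoc_castSucc, Wk_row (hc l _)]
      exact ih τ F

theorem walk_two (hc : ∀ τ s, 0 < cm π (ξ τ) s) (τ : Fin l) (F : Ω → Ω → ℝ) :
    ∑ x : Fin (l + 1) → Ω, mu π ξ x * F (x τ.castSucc) (x τ.succ) =
      two π (ξ τ) F / ∑ s, π s := by
  induction l with
  | zero => exact τ.elim0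
  | succ l ih =>
    rw [Wk_snoc]
    induction τ using Fin.lastCases with
    | last =>
      simp only [Fin.succ_last, Fin.snoc_last, Fin.snoc_castSucc]
      rw [walk_one hc (Fin.last l)
        fun s => ∑ y, if ξ l y = ξ l s then π y / cm π (ξ l) s * F s y else 0, two, Fin.val_last]
    | cast τ =>
      simp only [Fin.succ_castSucc, Fin.snoc_castSucc, Wk_row (hc l _)]
      exact ih τ

theorem two_add (η : Ω → X) (F F' : Ω → Ω → ℝ) :
    two π η (fun s s' => F s s' + F' s s') = two π η F + two π η F' := by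
  simp only [two, ← sum_add_distrib, ← mul_add, ite_add_ite, add_zero]

theorem two_sum {ι : Type} (η : Ω → X) (A : Finset ι) (F : ι → Ω → Ω → ℝ) :
    two π η (fun s s' => ∑ i ∈ A, F i s s') = ∑ i ∈ A, two π η (F i) := by
  induction A using Finset.cons_induction with
  | empty => simp [two]
  | cons a A ha ih => simp only [sum_cons, two_add, ih]

/-- Comparison on the support. -/
theorem two_mono (h0 : ∀ s, 0 ≤ π s) (η : Ω → X) {F F' : Ω → Ω → ℝ}
    (h : ∀ s s', π s ≠ 0 → π s' ≠ 0 → η s' = η s → F s s' ≤ F' s s') :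
    two π η F ≤ two π η F' := by
  refine sum_le_sum fun s _ => ?_
  by_cases hs : π s = 0
  · rw [hs, zero_mul, zero_mul]
  refine mul_le_mul_of_nonneg_left (sum_le_sum fun s' _ => ?_) (h0 s)
  split_ifs with e
  · by_cases hs' : π s' = 0
    · rw [hs', zero_div, zero_mul, zero_mul]
    · exact mul_le_mul_of_nonneg_left (h s s' hs hs' e) (div_nonneg (h0 s') (cm_nonneg h0 η s))
  · exact le_rfl

/-- A bound for the conditional mean. -/
theorem two_le (h0 : ∀ s, 0 ≤ π s) {η : Ω → X} (hc : ∀ s, 0 < cm π η s) {F : Ω → Ω → ℝ}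
    {g : Ω → ℝ} (h : ∀ s, π s ≠ 0 →
      ∑ s', (if η s' = η s then π s' * F s s' else 0) ≤ g s * cm π η s) :
    two π η F ≤ ∑ s, π s * g s := by
  refine sum_le_sum fun s _ => ?_
  by_cases hs : π s = 0
  · rw [hs, zero_mul, zero_mul]
  refine mul_le_mul_of_nonneg_left ?_ (h0 s)
  refine le_of_eq_of_le ?_ ((div_le_iff₀ (hc s)).2 (h s hs))
  rw [sum_div]
  exact sum_congr rfl fun s' _ => by rw [ite_div, zero_div, div_mul_eq_mul_div]

/-- Markov. -/
theorem markov {α : Type} [Fintype α] {m F : α → ℝ} (h0 : ∀ a, 0 ≤ m a) (hF : ∀ a, 0 ≤ F a)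
    {b c : ℝ} (hb : 0 < b) (hc : 0 < c) (h : ∑ a, m a * F a ≤ b) :
    ∑ a, (if c * b < F a then m a else 0) ≤ 1 / c := by
  rw [le_div_iff₀ hc, ← mul_le_mul_iff_left₀ hb, one_mul, mul_assoc, sum_mul]
  refine (sum_le_sum fun a _ => ?_).trans h
  split_ifs with e
  · exact mul_le_mul_of_nonneg_left e.le (h0 a)
  · rw [zero_mul]
    exact mul_nonneg (h0 a) (hF a)

end Pool.Agent.Work.MP_78fef3_co.X
end

-- merged part: Pool.Agent.Work.MP_78fef3_co.X.Close1
section
/-! Closing a family with common deficient vertices by a sunflower with three petals. -/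

namespace Pool.Agent.Work.MP_78fef3_co.X

open Finset Pool.Agent.Work.MP_78fef3_co.S

variable {E B : Type} [DecidableEq E] [DecidableEq B] [Fintype E] [Fintype B]

/-- The code of `W`: its edges, and its vertices with their degrees. -/
private def C1_enc (f : Fin 3 → E → B) (Δ : ℕ) (W : Finset E) :
    Finset (E ⊕ (Fin 3 × B × Fin (Δ + 1))) :=
  W.disjSum (univ.filter fun x => 0 < deg (f x.1) W x.2.1 ∧ deg (f x.1) W x.2.1 = x.2.2)

omit [DecidableEq E] [Fintype E] in
private theorem C1_card (f : Fin 3 → E → B) (Δ : ℕ) (W : Finset E) :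
    (C1_enc f Δ W).card ≤ 4 * W.card := by
  unfold C1_enc
  rw [card_disjSum]
  have h : (univ.filter fun x : Fin 3 × B × Fin (Δ + 1) =>
      0 < deg (f x.1) W x.2.1 ∧ deg (f x.1) W x.2.1 = x.2.2).card ≤
      (((univ : Finset (Fin 3)) ×ˢ W).image fun y => (y.1, f y.1 y.2)).card := by
    refine card_le_card_of_injOn (fun x => (x.1, x.2.1)) (fun x hx => ?_) (fun x hx y hy h => ?_)
    · obtain ⟨e, he⟩ := card_pos.1 (mem_filter.1 (mem_coe.1 hx)).2.1
      exact mem_coe.2 (mem_image.2 ⟨(x.1, e), mem_product.2 ⟨mem_univ _, (mem_filter.1 he).1⟩,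
        Prod.ext rfl (mem_filter.1 he).2⟩)
    · have h1 : x.1 = y.1 := (Prod.ext_iff.1 h).1
      have h2 : x.2.1 = y.2.1 := (Prod.ext_iff.1 h).2
      have h3 := (mem_filter.1 (mem_coe.1 hx)).2.2
      have h4 := (mem_filter.1 (mem_coe.1 hy)).2.2
      rw [h1, h2, h4] at h3
      exact Prod.ext h1 (Prod.ext h2 (Fin.ext h3.symm))
  have h' := h.trans card_image_le
  rw [card_product, card_univ, Fintype.card_fin] at h'
  omega

omit [DecidableEq E] [Fintype E] in
private theorem C1_inl (f : Fin 3 → E → B) (Δ : ℕ) (W : Finset E) (e : E) :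
    Sum.inl e ∈ C1_enc f Δ W ↔ e ∈ W := inl_mem_disjSum

omit [DecidableEq E] [Fintype E] in
private theorem C1_inr (f : Fin 3 → E → B) (Δ : ℕ) (W : Finset E) (i : Fin 3) (v : B)
    (d : Fin (Δ + 1)) :
    Sum.inr (i, v, d) ∈ C1_enc f Δ W ↔ 0 < deg (f i) W v ∧ deg (f i) W v = d := by
  unfold C1_enc
  rw [inr_mem_disjSum, mem_filter]
  exact and_iff_right (mem_univ _)

omit [DecidableEq E] [Fintype E] [Fintype B] in
private theorem C1_defi (g : E → B) (W : Finset E) (v : B) :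
    v ∈ defi g W ↔ 0 < deg g W v ∧ deg g W v ≤ 2 := by
  unfold defi
  rw [mem_filter]
  refine and_congr_left fun _ => ⟨fun h => ?_, fun h => ?_⟩
  · obtain ⟨e, he, hv⟩ := mem_image.1 h
    exact card_pos.2 ⟨e, mem_filter.2 ⟨he, hv⟩⟩
  · obtain ⟨e, he⟩ := card_pos.1 h
    exact mem_image.2 ⟨e, (mem_filter.1 he).1, (mem_filter.1 he).2⟩

omit [Fintype E] [Fintype B] in
private theorem C1_sdiff (g : E → B) {K W : Finset E} (h : K ⊆ W) (v : B) :
    deg g (W \ K) v + deg g K v = deg g W v := by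
  unfold deg
  rw [← card_union_of_disjoint (disjoint_filter_filter sdiff_disjoint), ← filter_union,
    sdiff_union_of_subset h]

/-- Paper section 1, second half. Encode `W` as the set `W ⊔ {(i, v, deg (f i) W v) : v ∈ image}`
in `E ⊕ (Fin 3 × B × Fin (Δ + 1))` (size at most `4 |W|`, so at most `4 s` and less than
`2 ^ (Q + 2)`), pigeonhole on the size `m ≤ 4 s`, apply `R.flower` with `q = 3`, `t = Q + 2`, take
the union of the three `W j` minus the edges in the kernel. -/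
theorem close_flower (f : Fin 3 → E → B) (F : Finset (Finset E)) (Δ s Q : ℕ)
    (D : Fin 3 → Finset B) (hQ : Fintype.card E < 2 ^ Q) (hs : ∀ W ∈ F, W.card ≤ s)
    (hΔ : ∀ W ∈ F, ∀ i b, deg (f i) W b ≤ Δ) (hD : ∀ W ∈ F, ∀ i, defi (f i) W = D i)
    (hc : (4 * s + 1) * (128 * (3 * (Q + 2)) ^ 3) ^ (4 * s) < F.card) :
    GoodIn f univ (3 * Δ) := by
  classical
  obtain ⟨N, hR⟩ : ∃ N, N = 128 * (3 * (Q + 2)) ^ 3 := ⟨_, rfl⟩
  have hR0 : 0 < N := by rw [hR]; positivity
  rw [← hR] at hc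
  obtain ⟨m, hm, hmc⟩ := exists_lt_card_fiber_of_mul_lt_card_of_maps_to (s := F)
    (t := range (4 * s + 1)) (f := fun W => (C1_enc f Δ W).card) (n := N ^ (4 * s))
    (fun W hW => mem_range.2 (by have := C1_card f Δ W; have := hs W hW; omega))
    (by rwa [card_range])
  have hm' : m ≤ 4 * s := Nat.le_of_lt_succ (mem_range.1 hm)
  have hinj : Function.Injective (C1_enc f Δ) := fun W W' h => by
    ext e
    rw [← C1_inl f Δ, h, C1_inl]
  have hmQ : m < 2 ^ (Q + 2) := by
    obtain ⟨W, hW⟩ := card_pos.1 ((Nat.zero_le _).trans_lt hmc)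
    have h1 := C1_card f Δ W
    have h2 := (mem_filter.1 hW).2
    have h3 := card_le_univ W
    rw [pow_add]
    omega
  obtain ⟨K, P, hK, hP, hdis⟩ := R.flower
    ((F.filter fun W => (C1_enc f Δ W).card = m).image (C1_enc f Δ)) m 3 (Q + 2) (by omega)
    (by omega) hmQ
    (fun A hA => by
      obtain ⟨W, hW, rfl⟩ := mem_image.1 hA
      exact (mem_filter.1 hW).2)
    (by
      rw [card_image_of_injective _ hinj, ← hR]
      exact (Nat.pow_le_pow_right hR0 hm').trans_lt hmc)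
  choose W hW hWP using fun j => mem_image.1 (hP j).1
  have hWF : ∀ j, W j ∈ F := fun j => (mem_filter.1 (hW j)).1
  have hker : ∀ x a b, a ≠ b → x ∈ P a → x ∈ P b → x ∈ K := fun x a b hab ha hb => by
    by_contra h
    exact disjoint_left.1 (hdis a b hab) (mem_sdiff.2 ⟨ha, h⟩) (mem_sdiff.2 ⟨hb, h⟩)
  obtain ⟨L, hL⟩ : ∃ L : Finset E, ∀ e, e ∈ L ↔ Sum.inl e ∈ K :=
    ⟨univ.filter fun e => Sum.inl e ∈ K, fun e => by simp⟩
  have hLW : ∀ j, L ⊆ W j := fun j e he => by
    rw [← C1_inl f Δ, hWP]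
    exact (hP j).2 ((hL e).1 he)
  have hsum : ∀ i v, deg (f i) (univ.biUnion fun j => W j \ L) v =
      ∑ j, deg (f i) (W j \ L) v := fun i v => by
    unfold deg
    rw [filter_biUnion, card_biUnion]
    intro a _ b _ hab
    refine disjoint_filter_filter (disjoint_left.2 fun e ha hb => (mem_sdiff.1 ha).2 ?_)
    refine (hL e).2 (hker _ a b hab ?_ ?_)
    · rw [← hWP, C1_inl]
      exact (mem_sdiff.1 ha).1
    · rw [← hWP, C1_inl]
      exact (mem_sdiff.1 hb).1
  refine ⟨univ.biUnion fun j => W j \ L, subset_univ _, ?_, fun i e he => ?_⟩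
  · by_contra h
    have h1 : ∀ j, W j = L := fun j => Subset.antisymm (fun e he => by
      by_contra h'
      exact h ⟨e, mem_biUnion.2 ⟨j, mem_univ _, mem_sdiff.2 ⟨he, h'⟩⟩⟩) (hLW j)
    have h2 : P 0 ⊆ K := fun x hx => hker x 0 1 (by decide) hx (by
      rw [← hWP, h1] at hx ⊢
      exact hx)
    have h3 := card_le_card h2
    have h4 := (mem_filter.1 (hW 0)).2
    rw [hWP] at h4
    omega
  · obtain ⟨j, -, hj⟩ := mem_biUnion.1 he
    have h1 : 0 < deg (f i) (W j \ L) (f i e) := card_pos.2 ⟨e, mem_filter.2 ⟨hj, rfl⟩⟩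
    have h2 := fun l => C1_sdiff (f i) (hLW l) (f i e)
    have h3 := fun l => hΔ _ (hWF l) i (f i e)
    have h4 : ∀ a b, 0 < deg (f i) (W a) (f i e) ∧ deg (f i) (W a) (f i e) ≤ 2 →
        0 < deg (f i) (W b) (f i e) ∧ deg (f i) (W b) (f i e) ≤ 2 := fun a b h => by
      rw [← C1_defi, hD _ (hWF _)] at h ⊢
      exact h
    have h5 : ∀ a b c, a ≠ b → 0 < deg (f i) (W a) (f i e) →
        deg (f i) (W b) (f i e) = deg (f i) (W a) (f i e) →
        deg (f i) (W c) (f i e) = deg (f i) (W a) (f i e) := fun a b c hab h0 h => by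
      have h6 : Sum.inr (i, f i e, ⟨_, Nat.lt_succ_of_le (h3 a)⟩) ∈ K :=
        hker _ a b hab (by rw [← hWP, C1_inr]; exact ⟨h0, rfl⟩)
          (by rw [← hWP, C1_inr]; exact ⟨h ▸ h0, h⟩)
      have h7 := (hP c).2 h6
      rw [← hWP, C1_inr] at h7
      exact h7.2
    rw [hsum, Fin.sum_univ_three]
    have a0 := h2 0
    have a1 := h2 1
    have a2 := h2 2
    have b0 := h3 0
    have b1 := h3 1
    have b2 := h3 2
    have c01 := h4 0 1
    have c12 := h4 1 2
    have c20 := h4 2 0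
    have d0 := h5 0 1 2 (by decide)
    have d1 := h5 1 2 0 (by decide)
    have d2 := h5 2 0 1 (by decide)
    have h8 : 0 < deg (f i) (W 0 \ L) (f i e) ∨ 0 < deg (f i) (W 1 \ L) (f i e) ∨
        0 < deg (f i) (W 2 \ L) (f i e) := by
      fin_cases j
      exacts [Or.inl h1, Or.inr (Or.inl h1), Or.inr (Or.inr h1)]
    omega

end Pool.Agent.Work.MP_78fef3_co.X
end

-- merged part: Pool.Agent.Work.MP_78fef3_co.X.Close2
section
/-! The closing lemma for families of maps. -/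

namespace Pool.Agent.Work.MP_78fef3_co.X

open Finset Pool.Agent.Work.MP_78fef3_co.S

/-- Subsets with at most `m` elements: `∑ C(N, i) ≤ y ^ m (1 + 1 / y) ^ N ≤ y ^ m e ^ s`. -/
theorem count_sets {B : Type} [DecidableEq B] (A : Finset B) (m y s : ℕ) (hy : 1 ≤ y)
    (h : A.card ≤ y * s) : (A.powerset.filter fun D => D.card ≤ m).card ≤ y ^ m * 3 ^ s := by
  have hy0 : (0 : ℝ) < y := by exact_mod_cast hy
  have hy1 : (1 : ℝ) ≤ y := by exact_mod_cast hy
  have h1 : ((A.powerset.filter fun D => D.card ≤ m).card : ℝ) ≤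
      ∑ D ∈ A.powerset, (y : ℝ) ^ m * ∏ _i ∈ D, (1 / y : ℝ) := by
    rw [card_eq_sum_ones, Nat.cast_sum]
    refine le_trans (sum_le_sum fun D hD => ?_)
      (sum_le_sum_of_subset_of_nonneg (filter_subset _ _) fun D _ _ => by positivity)
    rw [prod_const, one_div, inv_pow, ← div_eq_mul_inv, Nat.cast_one, le_div_iff₀ (by positivity),
      one_mul]
    exact pow_le_pow_right₀ hy1 (mem_filter.1 hD).2
  rw [← mul_sum, ← prod_one_add, prod_const] at h1
  have h2 : (1 + 1 / (y : ℝ)) ^ A.card ≤ 3 ^ s := by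
    have e1 : (1 + 1 / (y : ℝ)) ^ y ≤ 3 := by
      calc (1 + 1 / (y : ℝ)) ^ y ≤ Real.exp (1 / y) ^ y :=
            pow_le_pow_left₀ (by positivity) (by linarith [Real.add_one_le_exp (1 / (y : ℝ))]) _
        _ = Real.exp 1 := by rw [← Real.exp_nat_mul, mul_one_div, div_self hy0.ne']
        _ ≤ 3 := by linarith [Real.exp_one_lt_d9]
    calc (1 + 1 / (y : ℝ)) ^ A.card ≤ (1 + 1 / (y : ℝ)) ^ (y * s) :=
          pow_le_pow_right₀ (le_add_of_nonneg_right (by positivity)) h
      _ ≤ 3 ^ s := by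
          rw [pow_mul]
          exact pow_le_pow_left₀ (by positivity) e1 _
  exact_mod_cast h1.trans (mul_le_mul_of_nonneg_left h2 (by positivity))

/-- Maps whose value at `o` lies in a set of at most `c o` elements that depends only on the
values at points of smaller rank. Induction on a finite set of points closed under smaller rank,
or on the number of points, removing one of largest rank. -/
theorem count_maps {O E : Type} [Fintype O] [DecidableEq O] [DecidableEq E] (rk : O → ℕ)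
    (c : O → ℕ) (N : O → (O → E) → Finset E) (hN : ∀ o ω, (N o ω).card ≤ c o)
    (hdep : ∀ o ω ω', (∀ o', rk o' < rk o → ω o' = ω' o') → N o ω = N o ω')
    (T : Finset (O → E)) (hT : ∀ ω ∈ T, ∀ o, ω o ∈ N o ω) : T.card ≤ ∏ o, c o := by
  let idx : Finset E → E → ℕ := fun A e => if h : e ∈ A then (A.equivFin ⟨e, h⟩ : ℕ) else 0
  have i1 : ∀ A e, e ∈ A → idx A e < A.card := fun A e h => by
    simp only [idx, dif_pos h]
    exact (A.equivFin ⟨e, h⟩).2
  have i2 : ∀ A e e', e ∈ A → e' ∈ A → idx A e = idx A e' → e = e' := fun A e e' h h' q => by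
    simp only [idx, dif_pos h, dif_pos h'] at q
    exact congrArg Subtype.val (A.equivFin.injective (Fin.ext q))
  have h1 : T.card ≤ (Fintype.piFinset fun o => range (c o)).card := by
    refine card_le_card_of_injOn (fun ω o => idx (N o ω) (ω o)) (fun ω hω => ?_)
      fun ω hω ω' hω' q => ?_
    · exact mem_coe.2 (Fintype.mem_piFinset.2 fun o =>
        mem_range.2 ((i1 _ _ (hT ω hω o)).trans_le (hN o ω)))
    · have : ∀ n o, rk o = n → ω o = ω' o := fun n => by
        induction n using Nat.strong_induction_on with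
        | _ n ih =>
          intro o ho
          have e := hdep o ω ω' fun o' h' => ih _ (ho ▸ h') o' rfl
          have q' : idx (N o ω) (ω o) = idx (N o ω') (ω' o) := congrFun q o
          rw [← e] at q'
          exact i2 _ _ _ (hT ω hω o) (e ▸ hT ω' hω' o) q'
      exact funext fun o => this _ o rfl
  simpa only [Fintype.card_piFinset, card_range] using h1

variable {E B : Type} [DecidableEq E] [DecidableEq B] [Fintype E] [Fintype B]

section aux

variable {O : Type} [Fintype O] [DecidableEq O]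

/-- Occurrences at a vertex with more than `Δ` occurrences. -/
def C2_del (f : Fin 3 → E → B) (Δ : ℕ) (ω : O → E) : Finset O :=
  univ.filter fun o => ∃ i, Δ < deg (fun o' => f i (ω o')) univ (f i (ω o))

/-- The edges that are kept. -/
def C2_w (f : Fin 3 → E → B) (Δ : ℕ) (ω : O → E) : Finset E := (C2_del f Δ ω)ᶜ.image ω

omit [DecidableEq O] [Fintype B] in
theorem C2_one (x : O → B) (K P : ℕ) (h : coin x ≤ K * Fintype.card O) :
    P * (univ.filter fun o => K * P < deg x univ (x o)).card ≤ Fintype.card O := by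
  have h1 : coin x = ∑ o, deg x univ (x o) := by
    unfold coin deg
    rw [card_filter, Fintype.sum_prod_type_right]
    exact sum_congr rfl fun o _ => (card_filter _ _).symm
  have h2 : (univ.filter fun o => K * P < deg x univ (x o)).card * (K * P + 1) ≤ coin x := by
    rw [h1, ← smul_eq_mul]
    exact (card_nsmul_le_sum _ _ _ fun o ho => (mem_filter.1 ho).2).trans
      (sum_le_sum_of_subset (filter_subset _ _))
  rcases Nat.eq_zero_or_pos K with rfl | hK
  · have : (univ.filter fun o => 0 * P < deg x univ (x o)).card = 0 := by omega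
    rw [this]
    exact Nat.zero_le _
  · refine Nat.le_of_mul_le_mul_left (le_trans ?_ (h2.trans h)) hK
    nlinarith

omit [DecidableEq E] [Fintype E] [Fintype B] in
theorem C2_del_le (f : Fin 3 → E → B) (K P : ℕ) (ω : O → E)
    (h : ∀ i, coin (fun o => f i (ω o)) ≤ K * Fintype.card O) :
    P * (C2_del f (K * P) ω).card ≤ 3 * Fintype.card O := by
  have h1 : C2_del f (K * P) ω ⊆ univ.biUnion fun i : Fin 3 =>
      univ.filter fun o => K * P < deg (fun o' => f i (ω o')) univ (f i (ω o)) := by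
    intro o ho
    obtain ⟨i, hi⟩ := (mem_filter.1 ho).2
    exact mem_biUnion.2 ⟨i, mem_univ _, mem_filter.2 ⟨mem_univ _, hi⟩⟩
  refine (Nat.mul_le_mul_left _ ((card_le_card h1).trans card_biUnion_le)).trans ?_
  rw [mul_sum]
  refine (sum_le_sum fun i _ => C2_one (fun o => f i (ω o)) K P (h i)).trans ?_
  simp

omit [Fintype E] [Fintype B] in
theorem C2_card (f : Fin 3 → E → B) (Δ : ℕ) (ω : O → E) :
    (C2_w f Δ ω).card ≤ Fintype.card O := card_image_le.trans (card_le_univ _)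

omit [Fintype E] [Fintype B] in
theorem C2_deg (f : Fin 3 → E → B) (Δ : ℕ) (ω : O → E) (i : Fin 3) (b : B) :
    deg (f i) (C2_w f Δ ω) b ≤ Δ := by
  rcases ((C2_w f Δ ω).filter fun e => f i e = b).eq_empty_or_nonempty with h | ⟨e, he⟩
  · unfold deg
    rw [h]
    exact Nat.zero_le _
  · obtain ⟨h1, h2⟩ := mem_filter.1 he
    obtain ⟨o, ho, rfl⟩ := mem_image.1 h1
    have h3 : deg (fun o' => f i (ω o')) univ b ≤ Δ := by
      rw [← h2]
      by_contra h
      exact mem_compl.1 ho (mem_filter.2 ⟨mem_univ _, i, not_le.1 h⟩)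
    refine le_trans ?_ h3
    refine le_trans (card_le_card (t := (univ.filter fun o' => f i (ω o') = b).image ω) ?_)
      card_image_le
    intro e he
    obtain ⟨h1, h2⟩ := mem_filter.1 he
    obtain ⟨o, -, rfl⟩ := mem_image.1 h1
    exact mem_image.2 ⟨o, mem_filter.2 ⟨mem_univ _, h2⟩, rfl⟩

omit [Fintype E] [Fintype B] in
theorem C2_defi (f : Fin 3 → E → B) (Δ : ℕ) (ω : O → E) (g : E → B) :
    (defi g (C2_w f Δ ω)).card ≤ (defi g (univ.image ω)).card + (C2_del f Δ ω).card := by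
  have h1 : defi g (C2_w f Δ ω) ⊆
      defi g (univ.image ω) ∪ (C2_del f Δ ω).image fun o => g (ω o) := by
    intro b hb
    obtain ⟨h1, h2⟩ := mem_filter.1 hb
    by_contra h
    rw [mem_union, not_or] at h
    refine h.1 (mem_filter.2 ⟨image_subset_image (image_subset_image (subset_univ _)) h1,
      le_trans (card_le_card fun e he => ?_) h2⟩)
    obtain ⟨h3, h4⟩ := mem_filter.1 he
    obtain ⟨o, -, rfl⟩ := mem_image.1 h3
    exact mem_filter.2 ⟨mem_image.2 ⟨o, mem_compl.2 fun ho => h.2 (mem_image.2 ⟨o, ho, h4⟩), rfl⟩,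
      h4⟩
  exact (card_le_card h1).trans ((card_union_le _ _).trans (Nat.add_le_add_left card_image_le _))

omit [Fintype E] [Fintype B] in
theorem C2_sh (u w : E → B) (A : Finset E) (k : ℕ) (h1 : ∀ b, deg u A b ≤ k)
    (h2 : ∀ b, deg w A b ≤ k) (e : E) :
    (A.filter fun e' => u e' = u e ∨ w e' = w e).card ≤ 2 * k := by
  rw [filter_or]
  exact (card_union_le _ _).trans (by have := h1 (u e); have := h2 (w e); unfold deg at *; omega)

omit [Fintype B] in
theorem C2_fib (f : Fin 3 → E → B) (Rt : Finset O) (par : O → O) (rk : O → ℕ)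
    (hpar : ∀ o ∉ Rt, rk (par o) < rk o) (T : Finset (O → E)) (Δ v y d : ℕ)
    (hd : ∀ i b, deg (f i) univ b ≤ d)
    (ha : ∀ ω ∈ T, ∀ o ∉ Rt, Sh (f 1) (f 2) (ω o) (ω (par o))) (hy1 : 2 * d ≤ y)
    (hy2 : Fintype.card E ≤ y * Fintype.card O) (hv : 2 * Δ ≤ v) (hv1 : 1 ≤ v) (W : Finset E)
    (D : Finset O) (hW : W.card ≤ Fintype.card O) (hΔ : ∀ i b, deg (f i) W b ≤ Δ)
    (hT : ∀ ω ∈ T, ∀ o ∉ D, ω o ∈ W) :
    T.card ≤ Fintype.card O ^ Rt.card * y ^ D.card * v ^ Fintype.card O := by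
  have h := count_maps rk
    (fun o => (if o ∈ Rt then Fintype.card O else 1) * (if o ∈ D then y else 1) * v)
    (fun o ω => (if o ∈ D then univ else W).filter fun e =>
      o ∈ Rt ∨ (f 1 e = f 1 (ω (par o)) ∨ f 2 e = f 2 (ω (par o)))) (fun o ω => ?_)
    (fun o ω ω' q => ?_) T fun ω hω o => ?_
  · rwa [prod_mul_distrib, prod_mul_distrib, prod_ite_mem, prod_ite_mem, univ_inter, univ_inter,
      prod_const, prod_const, prod_const, card_univ] at h
  · by_cases hr : o ∈ Rt <;> by_cases hD : o ∈ D <;> simp only [hr, hD, if_true, if_false,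
      true_or, false_or, filter_true, one_mul, mul_one, card_univ]
    · exact hy2.trans (by rw [mul_comm]; exact Nat.le_mul_of_pos_right _ hv1)
    · exact hW.trans (Nat.le_mul_of_pos_right _ hv1)
    · exact ((C2_sh _ _ _ _ (hd 1) (hd 2) _).trans hy1).trans (Nat.le_mul_of_pos_right _ hv1)
    · exact (C2_sh _ _ _ _ (hΔ 1) (hΔ 2) _).trans hv
  · by_cases hr : o ∈ Rt
    · simp only [hr, true_or]
    · rw [q _ (hpar o hr)]
  · refine mem_filter.2 ⟨?_, ?_⟩
    · split_ifs with hD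
      · exact mem_univ _
      · exact hT ω hω o hD
    · by_cases hr : o ∈ Rt
      · exact Or.inl hr
      · exact Or.inr (ha ω hω o hr)

end aux

/-- Paper section 1. `Δ = K P`; bad vertices are those with more than `Δ` occurrences; `W0 ω` is
the set of edges of the image with no bad vertex; the set `Del ω` of occurrences outside `W0 ω` has
`P * |Del ω| ≤ 3 s`. Pigeonhole on `(W0, Del)` with `count_maps` (fibres at most
`(2Δ)^s s^ρ y^|Del|`), then on the three sets `defi` with `count_sets`, then `close_flower`. -/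
theorem close {O : Type} [Fintype O] [DecidableEq O] (f : Fin 3 → E → B) (Rt : Finset O)
    (par : O → O) (rk : O → ℕ) (hpar : ∀ o ∉ Rt, rk (par o) < rk o) (T : Finset (O → E))
    (K P G Q v y d : ℕ) (hd : ∀ i b, deg (f i) univ b ≤ d)
    (ha : ∀ ω ∈ T, ∀ o ∉ Rt, Sh (f 1) (f 2) (ω o) (ω (par o)))
    (hb : ∀ ω ∈ T, ∀ i, coin (fun o => f i (ω o)) ≤ K * Fintype.card O)
    (hc1 : ∀ ω ∈ T, P * (defi (f 1) (univ.image ω)).card ≤ Fintype.card O)
    (hc2 : ∀ ω ∈ T, P * (defi (f 2) (univ.image ω)).card ≤ Fintype.card O)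
    (hy1 : 2 * d ≤ y) (hy2 : Fintype.card E ≤ y * Fintype.card O) (hy3 : y ≤ v ^ G)
    (hP : 11 * G ≤ P) (hP1 : 1 ≤ P) (hN : (univ.image (f 0)).card ≤ v * Fintype.card O)
    (hv : 2 * (K * P) ≤ v) (hQ : Fintype.card E < 2 ^ Q) (hQv : Q + 2 ≤ v) (hv' : 500 ≤ v)
    (hT : Fintype.card O ^ Rt.card * v ^ (30 * Fintype.card O) < T.card) :
    GoodIn f univ (3 * (K * P)) := by
  set s := Fintype.card O with hs
  have hv1 : 1 ≤ v := by omega
  have hG : ∀ k, P * k ≤ 4 * s → (v ^ G) ^ k ≤ v ^ s := fun k hk => by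
    rw [← pow_mul]
    exact Nat.pow_le_pow_right hv1 (by nlinarith)
  have h3 : ∀ a, a ≤ 500 → a ^ s ≤ v ^ s := fun a ha => Nat.pow_le_pow_left (by omega) _
  have hn : Fintype.card E ≤ v ^ G * s := hy2.trans (Nat.mul_le_mul_right _ hy3)
  have k1 : T.card ≤ s ^ Rt.card * v ^ (3 * s) * (T.image (C2_w f (K * P))).card := by
    refine card_le_mul_card_image _ _ fun W hW => ?_
    obtain ⟨ω0, -, rfl⟩ := mem_image.1 hW
    have := card_le_mul_card_image_of_maps_to (f := C2_del f (K * P)) (t := univ)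
      (s := T.filter fun ω => C2_w f (K * P) ω = C2_w f (K * P) ω0) (fun _ _ => mem_univ _)
      (s ^ Rt.card * v ^ s * v ^ s) fun D _ => ?_
    · rw [card_univ, Fintype.card_finset] at this
      refine this.trans ((Nat.mul_le_mul_left _ (h3 2 (by norm_num))).trans (le_of_eq ?_))
      ring
    · rcases ((T.filter fun ω => C2_w f (K * P) ω = C2_w f (K * P) ω0).filter
        fun ω => C2_del f (K * P) ω = D).eq_empty_or_nonempty with h | ⟨ω1, h⟩
      · rw [h]
        exact Nat.zero_le _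
      · have q1 := C2_del_le f K P ω1 (hb ω1 (mem_filter.1 (mem_filter.1 h).1).1)
        rw [(mem_filter.1 h).2] at q1
        refine (C2_fib f Rt par rk hpar _ (K * P) v (v ^ G) d hd
          (fun ω hω => ha ω (mem_filter.1 (mem_filter.1 hω).1).1) (hy1.trans hy3) hn hv hv1 _ D
          (C2_card f (K * P) ω0) (C2_deg f (K * P) ω0) fun ω hω o ho => ?_).trans
          (Nat.mul_le_mul_right _ (Nat.mul_le_mul_left _ (hG _ (by omega))))
        rw [← (mem_filter.1 (mem_filter.1 hω).1).2]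
        exact mem_image.2 ⟨o, mem_compl.2 ((mem_filter.1 hω).2 ▸ ho), rfl⟩
  have k2 : v ^ (27 * s) < (T.image (C2_w f (K * P))).card := by
    refine Nat.lt_of_mul_lt_mul_left (a := s ^ Rt.card * v ^ (3 * s)) (lt_of_eq_of_lt ?_
      (hT.trans_le k1))
    ring
  let 𝒟 : Fin 3 → Finset (Finset B) := fun i => (univ.image (f i)).powerset.filter
    fun D => D.card ≤ if i = 0 then s else 4 * s / P
  have k3 : ∀ i, (𝒟 i).card ≤ v ^ (2 * s) := fun i => by
    rw [two_mul, pow_add]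
    by_cases hi : i = 0
    · subst hi
      exact (count_sets _ _ v s hv1 hN).trans (Nat.mul_le_mul_left _ (h3 3 (by norm_num)))
    · simp only [𝒟, if_neg hi]
      exact (count_sets _ _ (v ^ G) s (Nat.one_le_pow _ _ hv1)
        (card_image_le.trans hn)).trans
        (Nat.mul_le_mul (hG _ (Nat.mul_div_le _ _)) (h3 3 (by norm_num)))
  have k4 : (Fintype.piFinset 𝒟).card * v ^ (21 * s) < (T.image (C2_w f (K * P))).card := by
    refine lt_of_le_of_lt ?_ k2
    rw [Fintype.card_piFinset]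
    refine (Nat.mul_le_mul_right _ (prod_le_pow_card _ _ _ fun i _ => k3 i)).trans (le_of_eq ?_)
    rw [card_univ, Fintype.card_fin]
    ring
  have k5 : ∀ W ∈ T.image (C2_w f (K * P)), (fun i => defi (f i) W) ∈ Fintype.piFinset 𝒟 := by
    intro W hW
    obtain ⟨ω, hω, rfl⟩ := mem_image.1 hW
    refine Fintype.mem_piFinset.2 fun i => mem_filter.2 ⟨mem_powerset.2 ((filter_subset _ _).trans
      (image_subset_image (subset_univ _))), ?_⟩
    have q1 := C2_del_le f K P ω (hb ω hω)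
    have q2 : ∀ j, P * (defi (f j) (univ.image ω)).card ≤ s →
        (defi (f j) (C2_w f (K * P) ω)).card ≤ 4 * s / P := fun j hj => by
      rw [Nat.le_div_iff_mul_le hP1, mul_comm]
      have := Nat.mul_le_mul_left P (C2_defi f (K * P) ω (f j))
      rw [mul_add] at this
      omega
    match i with
    | 0 => exact (card_filter_le _ _).trans (card_image_le.trans (C2_card f _ ω))
    | 1 => exact q2 1 (hc1 ω hω)
    | 2 => exact q2 2 (hc2 ω hω)
  obtain ⟨D, -, hD⟩ := exists_lt_card_fiber_of_mul_lt_card_of_maps_to k5 k4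
  refine close_flower f _ (K * P) s Q D hQ (fun W hW => ?_) (fun W hW => ?_)
    (fun W hW i => congrFun (mem_filter.1 hW).2 i) (lt_of_le_of_lt ?_ hD)
  · obtain ⟨ω, -, rfl⟩ := mem_image.1 (mem_filter.1 hW).1
    exact C2_card f _ ω
  · obtain ⟨ω, -, rfl⟩ := mem_image.1 (mem_filter.1 hW).1
    exact C2_deg f _ ω
  · have e1 : 4 * s + 1 ≤ v ^ s := by
      refine le_trans ?_ (h3 5 (by norm_num))
      have : ∀ k : ℕ, 4 * k + 1 ≤ 5 ^ k := fun k => by
        induction k with
        | zero => norm_num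
        | succ k ih => rw [pow_succ]; omega
      exact this s
    have e2 : 128 * (3 * (Q + 2)) ^ 3 ≤ v ^ 5 := by
      calc 128 * (3 * (Q + 2)) ^ 3 = 3456 * (Q + 2) ^ 3 := by ring
        _ ≤ v ^ 2 * v ^ 3 := Nat.mul_le_mul (by nlinarith) (Nat.pow_le_pow_left hQv _)
        _ = v ^ 5 := by ring
    refine (Nat.mul_le_mul e1 (Nat.pow_le_pow_left e2 _)).trans (le_of_eq ?_)
    ring

end Pool.Agent.Work.MP_78fef3_co.X
end

-- merged part: Pool.Agent.Work.MP_78fef3_co.X.Gadget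
section
/-! Independent copies of a chain. -/

namespace Pool.Agent.Work.MP_78fef3_co.X

open Finset Pool.Agent.Work.MP_78fef3_co.S

variable {E B : Type} [DecidableEq E] [DecidableEq B] [Fintype E] [Fintype B]

theorem Ga_prod {Γ : Type} [Fintype Γ] {t : ℕ} (H : Fin t → Γ → ℝ) :
    ∑ x : Fin t → Γ, ∏ b, H b (x b) = ∏ b, ∑ γ, H b γ := by
  rw [prod_univ_sum, Fintype.piFinset_univ]

theorem Ga_ind {Γ : Type} [Fintype Γ] {t : ℕ} {ϖ : Γ → ℝ} (h1 : ∑ γ, ϖ γ = 1) {a a' : Fin t}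
    (ha : a ≠ a') (φ ψ : Γ → ℝ) : ∑ x : Fin t → Γ, (∏ b, ϖ (x b)) * (φ (x a) * ψ (x a')) =
      (∑ γ, ϖ γ * φ γ) * ∑ γ, ϖ γ * ψ γ := by
  have h2 : ∀ b, ∑ γ, ϖ γ * ((if b = a then φ γ else 1) * if b = a' then ψ γ else 1) =
      (if b = a then ∑ γ, ϖ γ * φ γ else 1) * if b = a' then ∑ γ, ϖ γ * ψ γ else 1 := fun b => by
    by_cases e : b = a
    · simp [e, ha]
    · by_cases e' : b = a' <;> simp [e, e', h1, ha.symm]
  have := Ga_prod fun b γ => ϖ γ * ((if b = a then φ γ else 1) * if b = a' then ψ γ else 1)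
  simpa only [h2, prod_mul_distrib, prod_ite_eq', mem_univ, if_true] using this

omit [Fintype B] in
theorem Ga_marg {u w : E → B} {m P d : ℕ} {A p : ℝ} {ϖ : (Fin (m + 1) → E) → ℝ}
    (h : Law u w m P A p ϖ) (hA : 0 ≤ A) {g : E → B} (hd : ∀ b, deg g univ b ≤ d)
    (r : Fin (m + 1)) (b : B) : ∑ γ, ϖ γ * (if g (γ r) = b then 1 else 0) ≤ d * A := by
  calc _ = ∑ e ∈ univ.filter fun e => g e = b, ∑ γ, (if γ r = e then ϖ γ else 0) := by
        rw [sum_comm]
        exact sum_congr rfl fun γ _ => by simp [sum_ite_eq]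
    _ ≤ _ := (sum_le_card_nsmul _ _ A fun e _ => h.marg r e).trans (by
        rw [nsmul_eq_mul]
        exact mul_le_mul_of_nonneg_right (by exact_mod_cast hd b) hA)

theorem Ga_pair {u w : E → B} {m P d t : ℕ} {A p : ℝ} {ϖ : (Fin (m + 1) → E) → ℝ}
    (h : Law u w m P A p ϖ) (hA : 0 ≤ A) {g : E → B} (hd : ∀ b, deg g univ b ≤ d)
    (o o' : Fin t × Fin (m + 1)) :
    ∑ x : Fin t → Fin (m + 1) → E, (∏ b, ϖ (x b)) *
      (if g (x o.1 o.2) = g (x o'.1 o'.2) then 1 else 0) ≤ if o.1 = o'.1 then 1 else d * A := by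
  by_cases e : o.1 = o'.1
  · rw [if_pos e]
    refine (sum_le_sum fun x _ => mul_le_of_le_one_right (prod_nonneg fun b _ => h.nonneg _)
      (by split_ifs <;> simp)).trans_eq ?_
    simp [Ga_prod fun _ γ => ϖ γ, h.total]
  rw [if_neg e]
  have h1 : ∀ y z : B, (if y = z then 1 else 0 : ℝ) =
      ∑ b, (if y = b then 1 else 0) * if z = b then 1 else 0 := fun y z => by
    simp
  calc _ = ∑ b, (∑ γ, ϖ γ * if g (γ o.2) = b then 1 else 0) *
        ∑ γ, ϖ γ * if g (γ o'.2) = b then 1 else 0 := by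
        simp only [← Ga_ind h.total e]
        rw [sum_comm]
        exact sum_congr rfl fun x _ => by rw [h1, mul_sum]
    _ ≤ ∑ b, (∑ γ, ϖ γ * if g (γ o.2) = b then 1 else 0) * (d * A) :=
        sum_le_sum fun b _ => mul_le_mul_of_nonneg_left (Ga_marg h hA hd _ b)
          (sum_nonneg fun γ _ => mul_nonneg (h.nonneg γ) (by split_ifs <;> simp))
    _ = _ := by
        rw [← sum_mul, sum_comm]
        simp [h.total]

theorem Ga_mean {u w : E → B} {m P d k : ℕ} {A p : ℝ} {ϖ : (Fin (m + 1) → E) → ℝ}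
    (h : Law u w m P A p ϖ) (hA : 0 ≤ A) {g : E → B} (hd : ∀ b, deg g univ b ≤ d)
    (hk : k * (d * A) ≤ 1) :
    ∑ x : Fin (k + 1) → Fin (m + 1) → E, (∏ b, ϖ (x b)) *
      (coin fun o : Fin (k + 1) × Fin (m + 1) => g (x o.1 o.2) : ℕ) ≤
      2 * (m + 1) * ((k + 1) * (m + 1)) := by
  simp only [coin, card_filter, Nat.cast_sum, Nat.cast_ite, Nat.cast_one, Nat.cast_zero, mul_sum]
  rw [sum_comm]
  refine (sum_le_sum fun q _ => Ga_pair h hA hd q.1 q.2).trans ?_
  have h1 : ∀ a : Fin (k + 1), ∑ a', (if a = a' then 1 else d * A) ≤ 2 := fun a => by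
    rw [← add_sum_erase _ _ (mem_univ a), if_pos rfl,
      sum_congr rfl fun a' h' => if_neg (ne_of_mem_erase h').symm, sum_const,
      card_erase_of_mem (mem_univ a)]
    simp only [card_univ, Fintype.card_fin, Nat.add_sub_cancel, nsmul_eq_mul]
    linarith
  rw [Fintype.sum_prod_type]
  refine (sum_le_card_nsmul _ _ (((m : ℝ) + 1) * 2) fun o _ => ?_).trans_eq ?_
  swap
  · simp; ring
  refine le_of_eq_of_le ?_ (mul_le_mul_of_nonneg_left (h1 o.1) (by positivity))
  rw [Fintype.sum_prod_type, mul_sum]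
  exact sum_congr rfl fun a _ => (sum_const (if o.1 = a then 1 else d * A)).trans (by simp)

omit [Fintype E] [Fintype B] in
theorem Ga_defi {m P t : ℕ} (g : E → B) (x : Fin t → Fin (m + 1) → E)
    (h : ∀ a, P * (defi g (univ.image (x a))).card ≤ m + 1) :
    P * (defi g (univ.image fun o : Fin t × Fin (m + 1) => x o.1 o.2)).card ≤ t * (m + 1) := by
  have h1 : defi g (univ.image fun o : Fin t × Fin (m + 1) => x o.1 o.2) ⊆
      univ.biUnion fun a => defi g (univ.image (x a)) := fun v hv => by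
    simp only [defi, mem_filter, mem_image, mem_univ, true_and, mem_biUnion] at hv ⊢
    obtain ⟨⟨_, ⟨o, rfl⟩, rfl⟩, h2⟩ := hv
    refine ⟨o.1, ⟨_, ⟨o.2, rfl⟩, rfl⟩, (card_le_card (filter_subset_filter _ fun e he => ?_)).trans h2⟩
    obtain ⟨r, -, rfl⟩ := mem_image.1 he
    exact mem_image.2 ⟨(o.1, r), mem_univ _, rfl⟩
  refine (Nat.mul_le_mul_left P ((card_le_card h1).trans card_biUnion_le)).trans ?_
  rw [mul_sum]
  simpa using sum_le_card_nsmul univ _ _ fun a _ => h a

/-- Paper section 3. `t = n / (L' d) + 1` copies, `O = Fin t × Fin (m + 1)`, roots `(a, 0)`,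
parent of `(a, r + 1)` is `(a, r)`, rank the second coordinate, `K = 12 (m + 1)`, `y = 2 L' d`.
`T` is the set of maps all of whose rows have `ϖ ≠ 0` and which satisfy the coincidence bound;
its product mass is at least `1 / 2` (`markov`, mean at most `2 (m + 1) s` for each layer) and
every map has mass at most `p ^ t`. A vertex deficient in the union is deficient in every row
that contains it. Then `close`. -/
theorem gadget (f : Fin 3 → E → B) (m P G Q v d L L' : ℕ) (p : ℝ)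
    (ϖ : (Fin (m + 1) → E) → ℝ) (h : Law (f 1) (f 2) m P (L' / Fintype.card E) p ϖ)
    (hd : ∀ i b, deg (f i) univ b ≤ d) (hN : (univ.image (f 0)).card * d ≤ L * Fintype.card E)
    (hL : L * L' ≤ v) (hy : 2 * (L' * d) ≤ v ^ G) (hP : 11 * G ≤ P) (hP1 : 1 ≤ P)
    (hv : 24 * (m + 1) * P ≤ v) (hQ : Fintype.card E < 2 ^ Q) (hQv : Q + 2 ≤ v) (hv' : 500 ≤ v)
    (hp : 2 * p * ((Fintype.card E : ℝ) / d + 1) * (m + 1) * (v : ℝ) ^ (30 * (m + 1)) < 1) :
    GoodIn f univ (36 * (m + 1) * P) := by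
  classical
  obtain ⟨γ0, -, hγ⟩ := exists_ne_zero_of_sum_ne_zero (h.total.trans_ne one_ne_zero)
  have hp0 : 0 < p := ((h.nonneg γ0).lt_of_ne' hγ).trans_le (h.point γ0)
  set n := Fintype.card E with hn
  have hn0 : (0 : ℝ) < n := by exact_mod_cast Fintype.card_pos_iff.2 ⟨γ0 0⟩
  have hd1 : 1 ≤ d := (card_pos.2 ⟨γ0 0, by simp⟩).trans_le (hd 0 (f 0 (γ0 0)))
  have hL1 : 1 ≤ L' := Nat.pos_of_ne_zero fun e => hγ (le_antisymm (by
    have := (single_le_sum (f := fun γ => if γ 0 = γ0 0 then ϖ γ else 0)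
      (fun γ _ => by have := h.nonneg γ; split_ifs <;> simp [*]) (mem_univ γ0)).trans (h.marg 0 _)
    simpa [e] using this) (h.nonneg γ0))
  set k := n / (L' * d) with hk
  have hk1 : k * (L' * d) ≤ n := Nat.div_mul_le_self _ _
  have hk2 : n < L' * d * (k + 1) := Nat.lt_mul_div_succ _ (by positivity)
  have hk3 : (k : ℝ) * (L' * d) ≤ n := by exact_mod_cast hk1
  have hm := fun i => Ga_mean (k := k) h (by positivity) (hd i) (by
    rw [← mul_div_assoc, ← mul_div_assoc, div_le_one hn0]; linarith)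
  let F : (Fin (k + 1) → Fin (m + 1) → E) → ℕ := fun x =>
    ∑ i, coin fun o : Fin (k + 1) × Fin (m + 1) => f i (x o.1 o.2)
  have h0 : ∀ x : Fin (k + 1) → Fin (m + 1) → E, 0 ≤ ∏ b, ϖ (x b) :=
    fun x => prod_nonneg fun b _ => h.nonneg _
  have hM := markov (F := fun x => (F x : ℝ)) h0 (fun _ => by positivity)
    (b := 6 * (m + 1) * ((k + 1) * (m + 1))) (by positivity) two_pos (by
      simp only [F, Fin.sum_univ_three, Nat.cast_add, mul_add _ (coin _ : ℝ),
        mul_add _ ((coin _ : ℝ) + _), sum_add_distrib]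
      linarith [hm 0, hm 1, hm 2])
  let T := univ.filter fun x : Fin (k + 1) → Fin (m + 1) → E =>
    (∀ a, ϖ (x a) ≠ 0) ∧ F x ≤ 12 * (m + 1) * ((k + 1) * (m + 1))
  have hT : 1 / 2 ≤ (T.card : ℝ) * p ^ (k + 1) := by
    have h1 : ∑ x : Fin (k + 1) → Fin (m + 1) → E, ∏ b, ϖ (x b) = 1 := by
      simp [Ga_prod fun _ γ => ϖ γ, h.total]
    have h2 : ∑ x, (if x ∈ T then p ^ (k + 1) else 0) = T.card * p ^ (k + 1) := by simp
    have h3 := sum_le_sum fun (x : Fin (k + 1) → Fin (m + 1) → E) (_ : x ∈ univ) =>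
      show ∏ b, ϖ (x b) ≤ (if x ∈ T then p ^ (k + 1) else 0) +
        if 2 * (6 * (m + 1) * ((k + 1) * (m + 1))) < (F x : ℝ) then ∏ b, ϖ (x b) else 0 by
      by_cases e : x ∈ T
      · rw [if_pos e]
        refine le_add_of_le_of_nonneg ?_ (by split_ifs; exacts [h0 x, le_rfl])
        simpa using prod_le_prod (s := univ) (fun b _ => h.nonneg (x b)) fun b _ => h.point (x b)
      rw [if_neg e, zero_add]
      by_cases e' : ∀ a, ϖ (x a) ≠ 0
      · have : 12 * (m + 1) * ((k + 1) * (m + 1)) < F x :=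
          not_le.1 fun a => e (mem_filter.2 ⟨mem_univ _, e', a⟩)
        have : (12 * (m + 1) * ((k + 1) * (m + 1)) : ℝ) < F x := by exact_mod_cast this
        rw [if_pos (by linarith)]
      · push Not at e'
        obtain ⟨a, ha⟩ := e'
        simp [prod_eq_zero (f := fun b => ϖ (x b)) (mem_univ a) ha]
    rw [sum_add_distrib] at h3
    linarith
  have hO : Fintype.card (Fin (k + 1) × Fin (m + 1)) = (k + 1) * (m + 1) := by simp
  have hR : ∀ o : Fin (k + 1) × Fin (m + 1), o ∉ univ ×ˢ {0} → o.2 ≠ 0 :=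
    fun o ho e => ho (mem_product.2 ⟨mem_univ _, mem_singleton.2 e⟩)
  have := close f (univ ×ˢ {0}) (fun o : Fin (k + 1) × Fin (m + 1) => (o.1, ⟨o.2 - 1, by omega⟩))
    (fun o => o.2) (fun o ho => Nat.sub_one_lt (by simpa using hR o ho))
    (T.image fun x o => x o.1 o.2) (12 * (m + 1)) P G Q v (2 * (L' * d)) d hd
    (forall_mem_image.2 fun x hx o ho => ?_) (forall_mem_image.2 fun x hx i => ?_)
    (forall_mem_image.2 fun x hx => hO ▸ Ga_defi _ x fun a => h.defu _ ((mem_filter.1 hx).2.1 a))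
    (forall_mem_image.2 fun x hx => hO ▸ Ga_defi _ x fun a => h.defw _ ((mem_filter.1 hx).2.1 a))
    (by nlinarith) (by rw [hO]; nlinarith [Nat.zero_le (L' * d * (k + 1) * m)]) hy hP hP1 ?_
    (by linarith) hQ hQv hv' ?_
  · rwa [show 3 * (12 * (m + 1) * P) = 36 * (m + 1) * P by ring] at this
  · obtain ⟨r, hr⟩ := Fin.eq_succ_of_ne_zero (hR o ho)
    have := h.chain _ ((mem_filter.1 hx).2.1 o.1) r
    rwa [← hr, show r.castSucc = ⟨o.2 - 1, by omega⟩ from Fin.ext (by simp [hr])] at this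
  · rw [hO]
    exact (single_le_sum (f := fun i => coin fun o : Fin (k + 1) × Fin (m + 1) => f i (x o.1 o.2))
      (fun _ _ => Nat.zero_le _) (mem_univ i)).trans (mem_filter.1 hx).2.2
  · refine Nat.le_of_mul_le_mul_right (hN.trans ((Nat.mul_le_mul_left L hk2.le).trans ?_)) hd1
    rw [hO]
    nlinarith [Nat.mul_le_mul_right (d * (k + 1)) hL, Nat.zero_le (v * (k + 1) * m * d)]
  · rw [card_image_of_injective _ fun x y e => funext₂ fun a r => congrFun e (a, r), hO]
    have h1 : (k : ℝ) ≤ n / d := by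
      have : (1 : ℝ) ≤ L' := by exact_mod_cast hL1
      rw [le_div_iff₀ (by positivity)]
      nlinarith [mul_le_mul_of_nonneg_left this (show (0 : ℝ) ≤ k * d by positivity)]
    have h2 : 2 * p * (k + 1) * (m + 1) * (v : ℝ) ^ (30 * (m + 1)) < 1 :=
      lt_of_le_of_lt (by gcongr) hp
    have h3 := pow_lt_one₀ (by positivity) h2 k.succ_ne_zero
    have h4 : (2 : ℝ) ≤ 2 ^ (k + 1) := le_self_pow₀ one_le_two k.succ_ne_zero
    have h5 : 0 < p ^ (k + 1) := by positivity
    rw [← Nat.cast_lt (α := ℝ), card_product, card_singleton, card_univ, Fintype.card_fin, mul_one]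
    push_cast
    refine lt_of_mul_lt_mul_right (a := 2 ^ (k + 1) * p ^ (k + 1)) (lt_of_eq_of_lt ?_
      (h3.trans_le ?_)) (by positivity)
    · simp only [mul_pow, ← pow_mul, Nat.succ_eq_add_one]; ring
    · nlinarith [mul_le_mul_of_nonneg_right h4 (show 0 ≤ (T.card : ℝ) * p ^ (k + 1) by positivity)]

end Pool.Agent.Work.MP_78fef3_co.X
end

-- merged part: Pool.Agent.Work.MP_78fef3_co.X.Ladder1
section
/-! Weighted four-cycles. A state is `(p, r, p', r')` with `p = (a, b)`, `r = (a', b)`,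
`p' = (a, b')`, `r' = (a', b')`; the rungs are `p` and `r'`. -/

namespace Pool.Agent.Work.MP_78fef3_co.X

open Finset Pool.Agent.Work.MP_78fef3_co.S

variable {E B : Type} [DecidableEq E] [DecidableEq B] [Fintype E]

/-- Heavy four-cycles. -/
def C4 (u w : E → B) (c : ℕ) (s : E × E × E × E) : Prop :=
  c < cod u w (u s.1) (u s.2.1) ∧ w s.1 = w s.2.1 ∧ s.1 ≠ s.2.1 ∧ u s.2.2.1 = u s.1 ∧
    u s.2.2.2 = u s.2.1 ∧ w s.2.2.1 = w s.2.2.2 ∧ s.2.2.1 ≠ s.1

instance (u w : E → B) (c : ℕ) (s : E × E × E × E) : Decidable (C4 u w c s) := by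
  unfold C4
  infer_instance

/-- Loops. -/
def Lp (s : E × E × E × E) : Prop := s.2.1 = s.1 ∧ s.2.2.1 = s.1 ∧ s.2.2.2 = s.1

instance (s : E × E × E × E) : Decidable (Lp s) := by
  unfold Lp
  infer_instance

/-- Weight of a four-cycle. -/
noncomputable def cw (u w : E → B) (c : ℕ) (s : E × E × E × E) : ℝ :=
  if C4 u w c s then 1 / ((cod u w (u s.1) (u s.2.1) : ℝ) - 1) else 0

/-- Number of heavy ordered paths. -/
def nh (u w : E → B) (c : ℕ) : ℕ :=
  (univ.filter fun x : E × E => c < cod u w (u x.1) (u x.2) ∧ w x.1 = w x.2 ∧ x.1 ≠ x.2).card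

/-- The entries of a state. -/
def ent (i : Fin 4) (s : E × E × E × E) : E := ![s.1, s.2.1, s.2.2.1, s.2.2.2] i

variable {u w : E → B} {d1 d2 δ1 δ2 c : ℕ}

theorem L1_cod (u w : E → B) (a a' : B) : cod u w a a' = cod u w a' a := by
  unfold cod
  refine card_bij' (fun x _ => x.swap) (fun x _ => x.swap) (fun x hx => ?_) (fun x hx => ?_)
    (fun _ _ => rfl) fun _ _ => rfl
  · obtain ⟨h1, h2, h3, h4⟩ := (mem_filter.1 hx).2
    exact mem_filter.2 ⟨mem_univ _, h2, h1, h3.symm, h4.symm⟩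
  · obtain ⟨h1, h2, h3, h4⟩ := (mem_filter.1 hx).2
    exact mem_filter.2 ⟨mem_univ _, h2, h1, h3.symm, h4.symm⟩

theorem L1_ne (h : Host u w d1 d2 δ1 δ2) {s : E × E × E × E} (hs : C4 u w c s) :
    s.2.2.1 ≠ s.2.2.2 ∧ s.2.1 ≠ s.2.2.2 := by
  obtain ⟨-, h2, h3, h4, h5, h6, h7⟩ := hs
  refine ⟨fun e => h3 (h.simple _ _ ?_ h2), fun e => h7 (h.simple _ _ h4 ?_)⟩
  · rw [← h4, e, h5]
  · rw [h6, ← e, h2]

/-- The first symmetry. -/
def L1_s1 (s : E × E × E × E) : E × E × E × E := (s.2.1, s.1, s.2.2.2, s.2.2.1)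

/-- The second symmetry. -/
def L1_s2 (s : E × E × E × E) : E × E × E × E := (s.2.2.1, s.2.2.2, s.1, s.2.1)

theorem L1_c1 (h : Host u w d1 d2 δ1 δ2) {s : E × E × E × E} (hs : C4 u w c s) :
    C4 u w c (L1_s1 s) := by
  have hn := L1_ne h hs
  obtain ⟨h1, h2, h3, h4, h5, h6, -⟩ := hs
  exact ⟨(L1_cod u w _ _ ▸ h1 :), h2.symm, h3.symm, h5, h4, h6.symm, hn.2.symm⟩

theorem L1_c2 (h : Host u w d1 d2 δ1 δ2) {s : E × E × E × E} (hs : C4 u w c s) :
    C4 u w c (L1_s2 s) := by
  have hn := L1_ne h hs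
  obtain ⟨h1, h2, -, h4, h5, h6, h7⟩ := hs
  refine ⟨?_, h6, hn.1, h4.symm, h5.symm, h2, h7.symm⟩
  change c < cod u w (u s.2.2.1) (u s.2.2.2)
  rwa [h4, h5]

theorem L1_w1 (h : Host u w d1 d2 δ1 δ2) (s : E × E × E × E) :
    cw u w c (L1_s1 s) = cw u w c s := by
  unfold cw
  by_cases hs : C4 u w c s
  · rw [if_pos hs, if_pos (L1_c1 h hs), L1_cod]
    rfl
  · rw [if_neg hs, if_neg fun h1 => hs (L1_c1 h h1)]

theorem L1_w2 (h : Host u w d1 d2 δ1 δ2) (s : E × E × E × E) :
    cw u w c (L1_s2 s) = cw u w c s := by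
  unfold cw
  by_cases hs : C4 u w c s
  · rw [if_pos hs, if_pos (L1_c2 h hs), ← hs.2.2.2.1, ← hs.2.2.2.2.1]
    rfl
  · rw [if_neg hs, if_neg fun h1 => hs (L1_c2 h h1)]

theorem L1_sum {σ : E × E × E × E → E × E × E × E} (hσ : Function.Involutive σ)
    (hw : ∀ s, cw u w c (σ s) = cw u w c s) (F : E × E × E × E → Prop) [DecidablePred F] :
    ∑ s, (if F (σ s) then cw u w c s else 0) = ∑ s, if F s then cw u w c s else 0 := by
  rw [← Equiv.sum_comp hσ.toPerm fun s => if F s then cw u w c s else 0]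
  refine sum_congr rfl fun s _ => ?_
  rw [Function.Involutive.coe_toPerm, hw]

theorem L1_sum3 (h : Host u w d1 d2 δ1 δ2) (F : E × E × E × E → Prop) [DecidablePred F] :
    ∑ s, (if F (L1_s1 (L1_s2 s)) then cw u w c s else 0) =
      ∑ s, if F s then cw u w c s else 0 :=
  L1_sum (σ := fun s => L1_s1 (L1_s2 s)) (fun _ => rfl)
    (fun s => (L1_w1 h _).trans (L1_w2 h s)) F

theorem L1_row (h : Host u w d1 d2 δ1 δ2) (hc : 1 ≤ c) (p r : E) :
    ∑ x : E × E, cw u w c (p, r, x) =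
      if c < cod u w (u p) (u r) ∧ w p = w r ∧ p ≠ r then 1 else 0 := by
  split_ifs with hP
  · obtain ⟨h1, h2, h3⟩ := hP
    unfold cw
    dsimp only
    rw [← sum_filter, sum_const, nsmul_eq_mul]
    have e1 : (univ.filter fun x : E × E => C4 u w c (p, r, x)) =
        (univ.filter fun x : E × E =>
          u x.1 = u p ∧ u x.2 = u r ∧ w x.1 = w x.2 ∧ x.1 ≠ x.2).erase (p, r) := by
      ext x
      simp only [mem_filter, mem_univ, true_and, mem_erase]
      constructor
      · intro hx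
        exact ⟨fun e => hx.2.2.2.2.2.2 (congrArg Prod.fst e), hx.2.2.2.1, hx.2.2.2.2.1,
          hx.2.2.2.2.2.1, (L1_ne h hx).1⟩
      · rintro ⟨a0, a1, a2, a3, -⟩
        refine ⟨h1, h2, h3, a1, a2, a3, fun e => a0 (Prod.ext e (h.simple _ _ a2 ?_))⟩
        have e' : x.1 = p := e
        rw [← a3, e', h2]
    have e2 : (1 : ℝ) < cod u w (u p) (u r) := by exact_mod_cast hc.trans_lt h1
    rw [e1, card_erase_of_mem (mem_filter.2 ⟨mem_univ _, rfl, rfl, h2, h3⟩)]
    change ((cod u w (u p) (u r) - 1 : ℕ) : ℝ) * (1 / ((cod u w (u p) (u r) : ℝ) - 1)) = 1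
    rw [Nat.cast_sub (hc.trans h1.le), Nat.cast_one, mul_one_div, div_self (by linarith)]
  · exact sum_eq_zero fun x _ => if_neg fun hx => hP ⟨hx.1, hx.2.1, hx.2.2.1⟩

theorem L1_deg (h : Host u w d1 d2 δ1 δ2) (p : E) :
    (univ.filter fun r => c < cod u w (u p) (u r) ∧ w p = w r ∧ p ≠ r).card ≤ d2 :=
  (card_le_card fun _ hr => mem_filter.2 ⟨mem_univ _, (mem_filter.1 hr).2.2.1.symm⟩).trans
    (h.max2 (w p))

theorem L1_nh : nh u w c =
    ∑ p, ∑ r, if c < cod u w (u p) (u r) ∧ w p = w r ∧ p ≠ r then 1 else 0 := by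
  unfold nh
  rw [card_filter, Fintype.sum_prod_type]

theorem L1_marg (h : Host u w d1 d2 δ1 δ2) (hc : 1 ≤ c) (e : E) :
    ∑ s : E × E × E × E, (if s.1 = e then cw u w c s else 0) ≤ d2 := by
  rw [Fintype.sum_prod_type, sum_eq_single e (fun p _ hp => sum_eq_zero fun _ _ => if_neg hp)
    (fun h1 => absurd (mem_univ _) h1)]
  simp only [if_true]
  rw [Fintype.sum_prod_type]
  simp only [L1_row h hc]
  rw [sum_boole]
  exact_mod_cast L1_deg h e

theorem cw_nonneg (hc : 1 ≤ c) (s : E × E × E × E) : 0 ≤ cw u w c s := by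
  unfold cw
  split_ifs with hs
  · have : (1 : ℝ) < cod u w (u s.1) (u s.2.1) := by exact_mod_cast hc.trans_lt hs.1
    exact div_nonneg zero_le_one (by linarith)
  · exact le_rfl

theorem cw_le (hc : 1 ≤ c) (s : E × E × E × E) : cw u w c s ≤ 1 / c := by
  have h0 : (0 : ℝ) < c := by exact_mod_cast hc
  unfold cw
  split_ifs with hs
  · have : (c : ℝ) + 1 ≤ cod u w (u s.1) (u s.2.1) := by exact_mod_cast hs.1
    exact one_div_le_one_div_of_le h0 (by linarith)
  · positivity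

/-- For a heavy path `(p, r)` the weights of the `cod - 1` other paths add up to one. -/
theorem cw_total (h : Host u w d1 d2 δ1 δ2) (hc : 1 ≤ c) : ∑ s, cw u w c s = nh u w c := by
  rw [L1_nh, Fintype.sum_prod_type]
  push_cast
  refine sum_congr rfl fun p _ => ?_
  rw [Fintype.sum_prod_type]
  exact sum_congr rfl fun r _ => L1_row h hc p r

/-- Every entry: at most `d2` heavy paths through the edge. The weight is invariant under
`(p, r, p', r') ↦ (r, p, r', p')` and `(p, r, p', r') ↦ (p', r', p, r)`. -/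
theorem cw_marg (h : Host u w d1 d2 δ1 δ2) (hc : 1 ≤ c) (i : Fin 4) (e : E) :
    ∑ s, (if ent i s = e then cw u w c s else 0) ≤ d2 := by
  have h0 := L1_marg h hc e
  fin_cases i
  · exact h0
  · exact (L1_sum (σ := L1_s1) (fun _ => rfl) (L1_w1 h) fun s => s.1 = e).trans_le h0
  · exact (L1_sum (σ := L1_s2) (fun _ => rfl) (L1_w2 h) fun s => s.1 = e).trans_le h0
  · exact (L1_sum3 h fun s => s.1 = e).trans_le h0

/-- Rung `p` and connector `r` given. -/
theorem cw_01 (h : Host u w d1 d2 δ1 δ2) (hc : 1 ≤ c) (e g : E) :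
    ∑ s, (if s.1 = e ∧ s.2.1 = g then cw u w c s else 0) ≤ 1 := by
  rw [Fintype.sum_prod_type, sum_eq_single e
    (fun p _ hp => sum_eq_zero fun _ _ => if_neg fun h1 => hp h1.1)
    (fun h1 => absurd (mem_univ _) h1), Fintype.sum_prod_type, sum_eq_single g
    (fun p _ hp => sum_eq_zero fun _ _ => if_neg fun h1 => hp h1.2)
    (fun h1 => absurd (mem_univ _) h1)]
  simp only [and_self, if_true]
  rw [L1_row h hc]
  split_ifs
  exacts [le_rfl, zero_le_one]

/-- Rung `p` and connector `p'` given: at most `d2` choices of `r`, then `r'` is determined. -/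
theorem cw_02 (h : Host u w d1 d2 δ1 δ2) (hc : 1 ≤ c) (e g : E) :
    ∑ s, (if s.1 = e ∧ s.2.2.1 = g then cw u w c s else 0) ≤ d2 / c := by
  have h0 : (0 : ℝ) < c := by exact_mod_cast hc
  have h1 : ∀ r, ∑ r', cw u w c (e, r, g, r') ≤ if w r = w e then (1 / c : ℝ) else 0 := by
    intro r
    by_cases h2 : ∃ r', C4 u w c (e, r, g, r')
    · obtain ⟨r₀, h3⟩ := h2
      have h5 : ∀ r' ∈ univ, r' ≠ r₀ → cw u w c (e, r, g, r') = 0 := fun r' _ hr =>
        if_neg fun h4 => hr (h.simple _ _ (h4.2.2.2.2.1.trans h3.2.2.2.2.1.symm)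
          (h4.2.2.2.2.2.1.symm.trans h3.2.2.2.2.2.1))
      rw [if_pos h3.2.1.symm, sum_eq_single r₀ h5 (fun h1 => absurd (mem_univ _) h1)]
      exact cw_le hc _
    · have h5 : ∀ r' ∈ univ, cw u w c (e, r, g, r') = 0 := fun r' _ =>
        if_neg fun h3 => h2 ⟨r', h3⟩
      rw [sum_eq_zero h5]
      split_ifs
      · positivity
      · exact le_rfl
  rw [Fintype.sum_prod_type, sum_eq_single e
    (fun p _ hp => sum_eq_zero fun _ _ => if_neg fun h1 => hp h1.1)
    (fun h1 => absurd (mem_univ _) h1), Fintype.sum_prod_type]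
  refine (sum_le_sum (g := fun r => if w r = w e then (1 / c : ℝ) else 0) fun r _ => ?_).trans ?_
  · rw [Fintype.sum_prod_type, sum_eq_single g
      (fun p _ hp => sum_eq_zero fun _ _ => if_neg fun h1 => hp h1.2)
      (fun h1 => absurd (mem_univ _) h1)]
    simp only [and_self, if_true]
    exact h1 r
  · rw [← sum_filter, sum_const, nsmul_eq_mul, mul_one_div]
    refine div_le_div_of_nonneg_right ?_ h0.le
    exact_mod_cast h.max2 (w e)

theorem cw_32 (h : Host u w d1 d2 δ1 δ2) (hc : 1 ≤ c) (e g : E) :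
    ∑ s, (if s.2.2.2 = e ∧ s.2.2.1 = g then cw u w c s else 0) ≤ 1 := by
  exact (L1_sum3 h fun s => s.1 = e ∧ s.2.1 = g).trans_le (cw_01 h hc e g)

theorem cw_31 (h : Host u w d1 d2 δ1 δ2) (hc : 1 ≤ c) (e g : E) :
    ∑ s, (if s.2.2.2 = e ∧ s.2.1 = g then cw u w c s else 0) ≤ d2 / c := by
  exact (L1_sum3 h fun s => s.1 = e ∧ s.2.2.1 = g).trans_le (cw_02 h hc e g)

theorem nh_ge (h : Host u w d1 d2 δ1 δ2) : δ2 * hv u w c ≤ nh u w c := by
  have h0 : (0 : ℝ) < δ2 := by exact_mod_cast h.pos2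
  rw [L1_nh, hv, mul_sum]
  push_cast
  refine sum_le_sum fun p _ => ?_
  rw [mul_sum]
  refine sum_le_sum fun r _ => ?_
  by_cases h1 : c < cod u w (u p) (u r)
  · rw [if_pos h1]
    by_cases h2 : nb w p r = 0
    · rw [h2, mul_zero]
      split_ifs
      exacts [zero_le_one, le_rfl]
    · rw [if_pos ⟨h1, nb_ne h2⟩]
      have := nb_le h.pos2 h.min2 p r
      rwa [le_div_iff₀ h0, mul_comm] at this
  · rw [if_neg h1, if_neg fun h2 => h1 h2.1, mul_zero]

theorem nh_le (h : Host u w d1 d2 δ1 δ2) : nh u w c ≤ Fintype.card E * d2 := by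
  rw [L1_nh, ← card_univ, ← smul_eq_mul]
  refine sum_le_card_nsmul _ _ _ fun p _ => ?_
  rw [← card_filter]
  exact L1_deg h p

/-- The other facts on a four-cycle in a simple graph. -/
theorem C4.ne (h : Host u w d1 d2 δ1 δ2) {s : E × E × E × E} (hs : C4 u w c s) :
    s.2.2.1 ≠ s.2.2.2 ∧ s.2.1 ≠ s.2.2.2 := by
  exact L1_ne h hs

end Pool.Agent.Work.MP_78fef3_co.X
end

-- merged part: Pool.Agent.Work.MP_78fef3_co.X.Ladder2
section
/-! Ladders. -/

namespace Pool.Agent.Work.MP_78fef3_co.X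

open Finset Pool.Agent.Work.MP_78fef3_co.S

variable {E B : Type} [DecidableEq E] [DecidableEq B] [Fintype E]

private def L2_ord (τ j : ℕ) : Fin 4 :=
  if τ % 2 = 0 then (if j = 0 then 3 else if j = 1 then 1 else if j = 2 then 0 else 2)
  else (if j = 0 then 0 else if j = 1 then 1 else if j = 2 then 3 else 2)

private def L2_xi (τ : ℕ) (s : E × E × E × E) : E := if τ % 2 = 0 then s.1 else s.2.2.2

private def L2_seq (X : ℕ → E × E × E × E) (r : ℕ) : E := ent (L2_ord (r / 4) (r % 4)) (X (r / 4))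

private def L2_ext {α : Type} {l : ℕ} (x : Fin (l + 1) → α) (k : ℕ) : α :=
  if h : k < l + 1 then x ⟨k, h⟩ else x 0

private def L2_bad (s s' : E × E × E × E) : Prop :=
  Lp s ∨ Lp s' ∨ s.2.1 = s'.2.1 ∨ s.2.2.1 = s'.2.2.1

private noncomputable def L2_pi (u w : E → B) (c : ℕ) (a : ℝ) (s : E × E × E × E) : ℝ :=
  cw u w c s + if Lp s then a else 0

omit [DecidableEq E] [Fintype E] in
private theorem L2_pos (X : ℕ → E × E × E × E) (k : ℕ) (i : Fin 4) :
    ∃ j < 4, L2_ord k j = i ∧ L2_seq X (4 * k + j) = ent i (X k) := by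
  have h : ∃ j < 4, L2_ord k j = i := by
    unfold L2_ord
    by_cases h : k % 2 = 0
    · simp only [if_pos h]
      revert i
      decide
    · simp only [if_neg h]
      revert i
      decide
  obtain ⟨j, h1, h2⟩ := h
  refine ⟨j, h1, h2, ?_⟩
  unfold L2_seq
  rw [show (4 * k + j) / 4 = k by omega, show (4 * k + j) % 4 = j by omega, h2]

omit [DecidableEq E] [Fintype E] in
private theorem L2_three {g : E → B} {W : Finset E} {a b c : E} (ha : a ∈ W) (hb : b ∈ W)
    (hc : c ∈ W) (ab : a ≠ b) (ac : a ≠ c) (bc : b ≠ c) (e1 : g b = g a) (e2 : g c = g a) :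
    g a ∉ defi g W := by
  intro h
  have h2 := (mem_filter.1 h).2
  have h3 : 2 < deg g W (g a) := two_lt_card_iff.2 ⟨a, b, c, mem_filter.2 ⟨ha, rfl⟩,
    mem_filter.2 ⟨hb, e1⟩, mem_filter.2 ⟨hc, e2⟩, ab, ac, bc⟩
  omega

private theorem L2_chain {u w : E → B} {c l : ℕ} {X : ℕ → E × E × E × E}
    (h4 : ∀ k ≤ l, C4 u w c (X k)) (hs : ∀ k < l, L2_xi k (X (k + 1)) = L2_xi k (X k))
    (r : ℕ) (hr : r < 4 * l + 3) : Sh u w (L2_seq X (r + 1)) (L2_seq X r) := by
  obtain ⟨k, j, hj, rfl⟩ : ∃ k j, j < 4 ∧ r = 4 * k + j := ⟨r / 4, r % 4, by omega, by omega⟩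
  obtain ⟨-, a1, -, a2, a3, a4, -⟩ := h4 k (by omega)
  unfold L2_seq
  rw [show (4 * k + j) / 4 = k by omega, show (4 * k + j) % 4 = j by omega]
  by_cases h3 : j = 3
  · subst h3
    have e := hs k (by omega)
    rw [show (4 * k + 3 + 1) / 4 = k + 1 by omega, show (4 * k + 3 + 1) % 4 = 0 by omega]
    unfold L2_xi at e
    unfold L2_ord
    by_cases h : k % 2 = 0
    · rw [if_pos h, if_pos h] at e
      rw [if_pos h, if_neg (show ¬ (k + 1) % 2 = 0 by omega)]
      exact Or.inl ((congrArg u e).trans a2.symm)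
    · rw [if_neg h, if_neg h] at e
      rw [if_neg h, if_pos (show (k + 1) % 2 = 0 by omega)]
      exact Or.inr ((congrArg w e).trans a4.symm)
  · rw [show (4 * k + j + 1) / 4 = k by omega, show (4 * k + j + 1) % 4 = j + 1 by omega]
    unfold L2_ord
    by_cases h : k % 2 = 0
    · rw [if_pos h, if_pos h]
      obtain rfl | rfl | rfl : j = 0 ∨ j = 1 ∨ j = 2 := by omega
      exacts [Or.inl a3.symm, Or.inr a1, Or.inl a2]
    · rw [if_neg h, if_neg h]
      obtain rfl | rfl | rfl : j = 0 ∨ j = 1 ∨ j = 2 := by omega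
      exacts [Or.inr a1.symm, Or.inl a3, Or.inr a4]

private theorem L2_defi {u w : E → B} {d1 d2 δ1 δ2 c P : ℕ} (h : Host u w d1 d2 δ1 δ2)
    {X : ℕ → E × E × E × E} {W : Finset E} (h4 : ∀ k ≤ 2 * P, C4 u w c (X k))
    (hs : ∀ k < 2 * P, L2_xi k (X (k + 1)) = L2_xi k (X k))
    (hb : ∀ k < 2 * P, ¬ L2_bad (X k) (X (k + 1)))
    (hW : ∀ k ≤ 2 * P, ∀ i, ent i (X k) ∈ W) (hW' : ∀ e ∈ W, ∃ k ≤ 2 * P, ∃ i, ent i (X k) = e) :
    (defi u W).card ≤ 2 ∧ (defi w W).card ≤ 2 := by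
  have ev : ∀ k < 2 * P, k % 2 = 0 → (X (k + 1)).1 = (X k).1 ∧
      u (X k).1 ∉ defi u W ∧ w (X k).1 ∉ defi w W := by
    intro k hk h0
    have e : (X (k + 1)).1 = (X k).1 := by simpa only [L2_xi, if_pos h0] using hs k hk
    obtain ⟨-, a1, a2, a3, -, -, a6⟩ := h4 k hk.le
    obtain ⟨-, b1, b2, b3, -, -, b6⟩ := h4 (k + 1) hk
    rw [e] at b1 b2 b3 b6
    exact ⟨e, L2_three (hW k hk.le 0) (hW k hk.le 2) (hW (k + 1) hk 2) a6.symm b6.symm
      (fun x => hb k hk (Or.inr (Or.inr (Or.inr x)))) a3 b3,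
      L2_three (hW k hk.le 0) (hW k hk.le 1) (hW (k + 1) hk 1) a2 b2
      (fun x => hb k hk (Or.inr (Or.inr (Or.inl x)))) a1.symm b1.symm⟩
  have od : ∀ k < 2 * P, ¬ k % 2 = 0 → (X (k + 1)).2.2.2 = (X k).2.2.2 ∧
      u (X k).2.2.2 ∉ defi u W ∧ w (X k).2.2.2 ∉ defi w W := by
    intro k hk h0
    have e : (X (k + 1)).2.2.2 = (X k).2.2.2 := by simpa only [L2_xi, if_neg h0] using hs k hk
    obtain ⟨a7, a8⟩ := C4.ne h (h4 k hk.le)
    obtain ⟨b7, b8⟩ := C4.ne h (h4 (k + 1) hk)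
    obtain ⟨-, -, -, -, a4, a5, -⟩ := h4 k hk.le
    obtain ⟨-, -, -, -, b4, b5, -⟩ := h4 (k + 1) hk
    rw [e] at b4 b5 b7 b8
    exact ⟨e, L2_three (hW k hk.le 3) (hW k hk.le 1) (hW (k + 1) hk 1) a8.symm b8.symm
      (fun x => hb k hk (Or.inr (Or.inr (Or.inl x)))) a4.symm b4.symm,
      L2_three (hW k hk.le 3) (hW k hk.le 2) (hW (k + 1) hk 2) a7.symm b7.symm
      (fun x => hb k hk (Or.inr (Or.inr (Or.inr x)))) a5 b5⟩
  have rp : ∀ k < 2 * P, u (X k).1 ∉ defi u W ∧ w (X k).1 ∉ defi w W := by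
    intro k hk
    by_cases h0 : k % 2 = 0
    · exact (ev k hk h0).2
    · obtain ⟨j, rfl⟩ : ∃ j, k = j + 1 := ⟨k - 1, by omega⟩
      rw [(ev j (by omega) (by omega)).1]
      exact (ev j (by omega) (by omega)).2
  have rr : ∀ k ≤ 2 * P, k ≠ 0 → u (X k).2.2.2 ∉ defi u W ∧ w (X k).2.2.2 ∉ defi w W := by
    intro k hk hk0
    by_cases h0 : k % 2 = 0
    · obtain ⟨j, rfl⟩ : ∃ j, k = j + 1 := ⟨k - 1, by omega⟩
      rw [(od j (by omega) (by omega)).1]
      exact (od j (by omega) (by omega)).2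
    · exact (od k (by omega) h0).2
  have key : ∀ g : E → B, (∀ k < 2 * P, g (X k).1 ∉ defi g W) →
      (∀ k ≤ 2 * P, k ≠ 0 → g (X k).2.2.2 ∉ defi g W) →
      (∀ k ≤ 2 * P, ∀ i, g (ent i (X k)) = g (X k).1 ∨ g (ent i (X k)) = g (X k).2.2.2) →
      (defi g W).card ≤ 2 := by
    intro g g1 g2 g3
    refine (card_le_card (t := {g (X (2 * P)).1, g (X 0).2.2.2}) fun v hv => ?_).trans card_le_two
    obtain ⟨e, he, rfl⟩ := mem_image.1 (mem_filter.1 hv).1
    obtain ⟨k, hk, i, rfl⟩ := hW' e he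
    rw [mem_insert, mem_singleton]
    rcases g3 k hk i with e1 | e1 <;> rw [e1] at hv ⊢
    · rcases hk.eq_or_lt with rfl | h1
      · exact Or.inl rfl
      · exact absurd hv (g1 k h1)
    · by_cases h1 : k = 0
      · subst h1
        exact Or.inr rfl
      · exact absurd hv (g2 k hk h1)
  refine ⟨key u (fun k hk => (rp k hk).1) (fun k hk h0 => (rr k hk h0).1) fun k hk i => ?_,
    key w (fun k hk => (rp k hk).2) (fun k hk h0 => (rr k hk h0).2) fun k hk i => ?_⟩
  · obtain ⟨-, -, -, a3, a4, -, -⟩ := h4 k hk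
    fin_cases i
    exacts [Or.inl rfl, Or.inr a4.symm, Or.inl a3, Or.inr rfl]
  · obtain ⟨-, a1, -, -, -, a5, -⟩ := h4 k hk
    fin_cases i
    exacts [Or.inl rfl, Or.inl a1.symm, Or.inr a5, Or.inr rfl]

private theorem L2_lp (a : ℝ) :
    ∑ s : E × E × E × E, (if Lp s then a else 0) = Fintype.card E * a := by
  rw [Fintype.sum_prod_type, sum_congr rfl (g := fun _ => a), sum_const, card_univ, nsmul_eq_mul]
  intro e _
  rw [sum_congr rfl (g := fun t => if t = (e, e, e) then a else 0), sum_ite_eq', if_pos (mem_univ _)]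
  intro t _
  refine if_congr ?_ rfl rfl
  simp only [Lp, Prod.ext_iff]

private theorem L2_cw_lp {u w : E → B} {c : ℕ} {s : E × E × E × E} (hs : Lp s) :
    cw u w c s = 0 := if_neg fun h => h.2.2.1 hs.1.symm

private theorem L2_pi_nonneg {u w : E → B} {c : ℕ} (hc : 1 ≤ c) {a : ℝ} (ha : 0 ≤ a)
    (s : E × E × E × E) : 0 ≤ L2_pi u w c a s :=
  add_nonneg (cw_nonneg hc s) (by split_ifs; exacts [ha, le_rfl])

private theorem L2_pi_eq {u w : E → B} {c : ℕ} {a : ℝ} {s : E × E × E × E} (hs : ¬ Lp s) :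
    L2_pi u w c a s = cw u w c s := by
  rw [L2_pi, if_neg hs, add_zero]

private theorem L2_cm {u w : E → B} {c : ℕ} (hc : 1 ≤ c) {a : ℝ} (ha : 0 ≤ a) (τ : ℕ)
    (s : E × E × E × E) : a ≤ cm (L2_pi u w c a) (L2_xi τ) s := by
  have h1 : L2_xi τ (L2_xi τ s, L2_xi τ s, L2_xi τ s, L2_xi τ s) = L2_xi τ s := ite_self _
  refine le_trans ?_ (single_le_sum (f := fun s' => if L2_xi τ s' = L2_xi τ s then
    L2_pi u w c a s' else 0) (fun s' _ => ?_)
    (mem_univ (L2_xi τ s, L2_xi τ s, L2_xi τ s, L2_xi τ s)))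
  · rw [if_pos h1, L2_pi, if_pos ⟨rfl, rfl, rfl⟩]
    exact le_add_of_nonneg_left (cw_nonneg hc _)
  · split_ifs
    exacts [L2_pi_nonneg hc ha _, le_rfl]

open Classical in
private theorem L2_two {u w : E → B} {d1 d2 δ1 δ2 c : ℕ} (h : Host u w d1 d2 δ1 δ2) (hc : 1 ≤ c)
    {a b : ℝ} (ha : 0 < a) (hb0 : 0 ≤ b) (hb : 1 + (d2 : ℝ) / c ≤ b * a) (τ : ℕ) :
    two (L2_pi u w c a) (L2_xi τ) (fun s s' => if L2_bad s s' then 1 else 0) ≤
      2 * (Fintype.card E * a) + (∑ s, L2_pi u w c a s) * b := by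
  have h0 := L2_pi_nonneg (u := u) (w := w) hc ha.le
  have hm : ∀ s, 0 < cm (L2_pi u w c a) (L2_xi τ) s := fun s => ha.trans_le (L2_cm hc ha.le τ s)
  have e1 : ∑ s, L2_pi u w c a s * (if Lp s then 1 else 0) = Fintype.card E * a := by
    rw [← L2_lp]
    refine sum_congr rfl fun s _ => ?_
    by_cases hs : Lp s
    · rw [if_pos hs, if_pos hs, L2_pi, if_pos hs, L2_cw_lp hs, zero_add, mul_one]
    · rw [if_neg hs, if_neg hs, mul_zero]
  refine (two_mono h0 _ (F' := fun s s' => ((if Lp s then 1 else 0) + (if Lp s' then 1 else 0)) +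
    if ¬ Lp s' ∧ (s.2.1 = s'.2.1 ∨ s.2.2.1 = s'.2.2.1) then 1 else 0)
    fun s s' _ _ _ => ?_).trans ?_
  · unfold L2_bad
    by_cases h1 : Lp s <;> by_cases h2 : Lp s' <;>
      by_cases h3 : s.2.1 = s'.2.1 ∨ s.2.2.1 = s'.2.2.1 <;> simp [h1, h2, h3]
  rw [two_add, two_add, two_left hm, two_right hm, e1, ← two_mul, sum_mul]
  refine add_le_add le_rfl (two_le h0 hm (g := fun _ => b) fun s _ => ?_)
  refine le_trans ?_ (hb.trans (mul_le_mul_of_nonneg_left (L2_cm hc ha.le τ s) hb0))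
  refine (sum_le_sum (g := fun s' =>
    (if L2_xi τ s' = L2_xi τ s ∧ s'.2.1 = s.2.1 then cw u w c s' else 0) +
      if L2_xi τ s' = L2_xi τ s ∧ s'.2.2.1 = s.2.2.1 then cw u w c s' else 0)
    fun s' _ => ?_).trans ?_
  · have h5 := cw_nonneg (u := u) (w := w) hc s'
    by_cases h1 : L2_xi τ s' = L2_xi τ s
    · by_cases h2 : Lp s'
      · simp only [h1, h2, if_true, not_true, false_and, if_false, mul_zero, true_and]
        positivity
      · rw [L2_pi_eq h2]
        by_cases h3 : s'.2.1 = s.2.1 <;> by_cases h4 : s'.2.2.1 = s.2.2.1 <;>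
          simp [h1, h2, h3, h4, h5, eq_comm (a := s.2.1), eq_comm (a := s.2.2.1)]
    · simp [h1]
  rw [sum_add_distrib]
  unfold L2_xi
  by_cases h1 : τ % 2 = 0
  · simp only [if_pos h1]
    exact add_le_add (cw_01 h hc _ _) (cw_02 h hc _ _)
  · simp only [if_neg h1]
    exact (add_le_add (cw_31 h hc _ _) (cw_32 h hc _ _)).trans_eq (add_comm _ _)

private theorem L2_push {α β : Type} [Fintype α] [Fintype β] [DecidableEq β] (m : α → ℝ)
    (f : α → β) (q : β → Prop) [DecidablePred q] :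
    ∑ b, (if q b then ∑ a, (if f a = b then m a else 0) else 0) =
      ∑ a, if q (f a) then m a else 0 := by
  have e : ∀ b, (if q b then ∑ a, (if f a = b then m a else 0) else 0) =
      ∑ a, if f a = b then (if q b then m a else 0) else 0 := fun b => by
    by_cases h : q b <;> simp [h]
  simp only [e]
  rw [sum_comm]
  exact sum_congr rfl fun a _ => by rw [sum_ite_eq, if_pos (mem_univ _)]

/-- The facts on a good walk. -/
private theorem L2_good {u w : E → B} {c l : ℕ} (hl : 1 ≤ l) {a : ℝ}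
    {x : Fin (l + 1) → E × E × E × E} (h1 : mu (L2_pi u w c a) L2_xi x ≠ 0)
    (h2 : ∀ τ : Fin l, ¬ L2_bad (x τ.castSucc) (x τ.succ)) :
    (∀ τ, ¬ Lp (x τ)) ∧ (∀ k ≤ l, C4 u w c (L2_ext x k)) ∧
      (∀ k < l, L2_xi k (L2_ext x (k + 1)) = L2_xi k (L2_ext x k)) ∧
      ∀ k < l, ¬ L2_bad (L2_ext x k) (L2_ext x (k + 1)) := by
  obtain ⟨h3, h4⟩ := mul_ne_zero_iff.1 h1
  have h5 : ∀ τ : Fin l, L2_xi τ (x τ.succ) = L2_xi τ (x τ.castSucc) ∧
      L2_pi u w c a (x τ.succ) ≠ 0 := fun τ => by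
    have h6 := prod_ne_zero_iff.1 h4 τ (mem_univ τ)
    by_cases h7 : L2_xi τ (x τ.succ) = L2_xi τ (x τ.castSucc)
    · rw [if_pos h7] at h6
      exact ⟨h7, (div_ne_zero_iff.1 h6).1⟩
    · exact absurd (if_neg h7) h6
  have h6 : ∀ τ, ¬ Lp (x τ) := fun τ => by
    refine Fin.cases (fun h => h2 ⟨0, hl⟩ (Or.inl h)) (fun σ h => h2 σ (Or.inr (Or.inl h))) τ
  have h7 : ∀ τ, L2_pi u w c a (x τ) ≠ 0 := fun τ =>
    Fin.cases (div_ne_zero_iff.1 h3).1 (fun σ => (h5 σ).2) τ
  have e1 : ∀ (k : ℕ) (hk : k < l), L2_ext x k = x (Fin.castSucc ⟨k, hk⟩) := fun k hk =>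
    dif_pos (by omega)
  have e2 : ∀ (k : ℕ) (hk : k < l), L2_ext x (k + 1) = x (Fin.succ ⟨k, hk⟩) := fun k hk =>
    dif_pos (by omega)
  refine ⟨h6, fun k hk => ?_, fun k hk => ?_, fun k hk => ?_⟩
  · rw [L2_ext, dif_pos (by omega)]
    by_contra h8
    refine h7 ⟨k, by omega⟩ ?_
    rw [L2_pi_eq (h6 _), cw, if_neg h8]
  · rw [e1 k hk, e2 k hk]
    exact (h5 ⟨k, hk⟩).1
  · rw [e1 k hk, e2 k hk]
    exact h2 ⟨k, hk⟩

private theorem L2_point {u w : E → B} {c l : ℕ} (hc : 1 ≤ c) {a N : ℝ} (ha : 0 < a) (hN : 0 < N)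
    (hZ : N ≤ ∑ s, L2_pi u w c a s) {x : Fin (l + 1) → E × E × E × E} (h : ∀ τ, ¬ Lp (x τ)) :
    mu (L2_pi u w c a) L2_xi x ≤ 1 / N * (1 / a) ^ l := by
  have h0 := L2_pi_nonneg (u := u) (w := w) hc ha.le
  have h1 : ∀ τ, L2_pi u w c a (x τ) ≤ 1 := fun τ => by
    rw [L2_pi_eq (h τ)]
    refine (cw_le hc _).trans (div_le_one_of_le₀ (by exact_mod_cast hc) (Nat.cast_nonneg _))
  unfold mu
  refine mul_le_mul (div_le_div₀ zero_le_one (h1 0) hN hZ) ?_ (prod_nonneg fun τ _ => ?_)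
    (by positivity)
  · refine (prod_le_prod (g := fun _ => 1 / a) (fun τ _ => ?_) fun τ _ => ?_).trans_eq ?_
    · split_ifs
      exacts [div_nonneg (h0 _) (cm_nonneg h0 _ _), le_rfl]
    · split_ifs
      exacts [div_le_div₀ zero_le_one (h1 _) ha (L2_cm hc ha.le _ _), by positivity]
    · rw [prod_const, card_univ, Fintype.card_fin]
  · split_ifs
    exacts [div_nonneg (h0 _) (cm_nonneg h0 _ _), le_rfl]

/-- Paper section 5 with `l = 2 P` steps. `h = nh / (F n)` (so `1 ≤ δ2 / F ^ 2 ≤ h ≤ d2`),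
`π s = cw s + if Lp s then h else 0`, `ξ τ s = if τ % 2 = 0 then s.1 else s.2.2.2`; class masses
are at least `h`; total mass `nh + n h`, loops have mass `n h = nh / F`. The chain of a walk `x`
lists for each time `τ` the four entries of `x τ`, in the order `r', r, p, p'` (entries
`3, 1, 0, 2`) for even `τ` and `p, r, r', p'` (entries `0, 1, 3, 2`) for odd `τ`; this map is
injective. A step `τ` is bad if one of the two states is a loop or one of the two connectors
(entries `1`, `2`) is the same in both states; each step is bad with probability at most `3 / F`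
(`walk_two`, `two_le`, `cw_01` …). Good walks: `mu ≠ 0` and no bad step; mass at least
`1 - 6 P / F ≥ 1 / 2`. `ϖ` is the image of `mu` restricted to the good walks, normalised. Every
vertex lies on a rung, so at most two vertices of each layer are deficient: the rung kept
in a good step has three distinct edges at each end. -/
theorem ladder [Nonempty E] {u w : E → B} {d1 d2 δ1 δ2 : ℕ} (h : Host u w d1 d2 δ1 δ2)
    (c F P Λ : ℕ) (hc : 1 ≤ c) (hP : 1 ≤ P) (hF : 16 * P ≤ F) (hΛ : d2 ≤ Λ * δ2)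
    (h1 : F ^ 2 ≤ δ2) (h2 : F ^ 3 * (d2 + c) ≤ δ2 * c)
    (hh : (Fintype.card E : ℝ) ≤ F * hv u w c) :
    ∃ ϖ, Law u w (8 * P + 3) P ((4 * F * Λ : ℕ) / Fintype.card E)
      ((4 * F * Λ : ℕ) / Fintype.card E * ((F : ℝ) ^ 2 / δ2) ^ P) ϖ := by
  classical
  have n0 : (0 : ℝ) < Fintype.card E := by exact_mod_cast Fintype.card_pos
  have F1 : (16 : ℝ) * P ≤ F := by exact_mod_cast hF
  have P1 : (1 : ℝ) ≤ P := by exact_mod_cast hP
  have F0 : (0 : ℝ) < F := by linarith
  have c0 : (0 : ℝ) < c := by exact_mod_cast hc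
  have δ0 : (0 : ℝ) < δ2 := by exact_mod_cast h.pos2
  have d0 : (1 : ℝ) ≤ d2 := by
    obtain ⟨e⟩ := ‹Nonempty E›
    exact_mod_cast h.pos2.trans ((h.min2 e).le.trans (h.max2 _))
  obtain ⟨N, hN⟩ : ∃ N : ℝ, N = nh u w c := ⟨_, rfl⟩
  have N1 : (δ2 : ℝ) * Fintype.card E ≤ F * N := by
    have h3 := mul_le_mul_of_nonneg_left (nh_ge (c := c) h) F0.le
    have h4 := mul_le_mul_of_nonneg_left hh δ0.le
    rw [hN]
    linarith
  have N0 : 0 < N := (pos_iff_pos_of_mul_pos ((mul_pos δ0 n0).trans_le N1)).1 F0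
  obtain ⟨a, ha⟩ : ∃ a : ℝ, a = N / (F * Fintype.card E) := ⟨_, rfl⟩
  have a0 : 0 < a := by rw [ha]; positivity
  have a1 : (Fintype.card E : ℝ) * a = N / F := by rw [ha]; field_simp
  have a2 : 1 / a ≤ (F : ℝ) ^ 2 / δ2 := by
    rw [ha, one_div_div, div_le_div_iff₀ N0 δ0]
    nlinarith
  have a3 : (F : ℝ) ^ 2 / δ2 ≤ 1 := (div_le_one δ0).2 (by exact_mod_cast h1)
  have a4 : 1 + (d2 : ℝ) / c ≤ 1 / F * a := by
    have h3 : (F : ℝ) ^ 3 * (d2 + c) ≤ δ2 * c := by exact_mod_cast h2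
    rw [div_le_div_iff₀ a0 δ0] at a2
    rw [one_add_div c0.ne', one_div_mul_eq_div, div_le_div_iff₀ c0 F0]
    refine le_of_mul_le_mul_left ?_ (pow_pos F0 2)
    nlinarith
  have a5 : 2 * d2 / N ≤ ((4 * F * Λ : ℕ) : ℝ) / Fintype.card E := by
    have h3 : (d2 : ℝ) ≤ Λ * δ2 := by exact_mod_cast hΛ
    have h4 : (0 : ℝ) ≤ Λ := Nat.cast_nonneg _
    rw [div_le_div_iff₀ N0 n0]
    push_cast
    have h5 := mul_le_mul_of_nonneg_right h3 n0.le
    have h6 := mul_le_mul_of_nonneg_left N1 h4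
    have h7 : 0 ≤ (Λ : ℝ) * (F * N) := by positivity
    linarith
  have h0 := L2_pi_nonneg (u := u) (w := w) hc a0.le
  have hm : ∀ τ s, 0 < cm (L2_pi u w c a) (L2_xi τ) s := fun τ s =>
    a0.trans_le (L2_cm hc a0.le τ s)
  have hZ : N ≤ ∑ s, L2_pi u w c a s := by
    rw [hN, ← cw_total h hc]
    exact sum_le_sum fun s _ => le_add_of_nonneg_right (by split_ifs; exacts [a0.le, le_rfl])
  have Z0 := N0.trans_le hZ
  obtain ⟨m, hm'⟩ : ∃ m : (Fin (2 * P + 1) → E × E × E × E) → ℝ, ∀ x, m x =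
      if ∀ τ : Fin (2 * P), ¬ L2_bad (x τ.castSucc) (x τ.succ) then
        mu (L2_pi u w c a) L2_xi x else 0 := ⟨_, fun _ => rfl⟩
  have m0 : ∀ x, 0 ≤ m x := fun x => by
    rw [hm']
    split_ifs
    exacts [mu_nonneg h0 x, le_rfl]
  have m1 : ∀ x, m x ≠ 0 → m x = mu (L2_pi u w c a) L2_xi x ∧
      ∀ τ : Fin (2 * P), ¬ L2_bad (x τ.castSucc) (x τ.succ) := fun x hx => by
    rw [hm'] at hx ⊢
    by_cases h3 : ∀ τ : Fin (2 * P), ¬ L2_bad (x τ.castSucc) (x τ.succ)
    · exact ⟨if_pos h3, h3⟩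
    · exact absurd (if_neg h3) hx
  have m2 := fun x (hx : m x ≠ 0) =>
    L2_good (by omega) ((m1 x hx).1 ▸ hx) (m1 x hx).2
  have hG : 1 / 2 ≤ ∑ x, m x := by
    have h3 := walk_one (l := 2 * P) hm 0 fun _ => 1
    simp only [mul_one] at h3
    rw [div_self Z0.ne'] at h3
    have h4 : ∀ τ : Fin (2 * P), ∑ x : Fin (2 * P + 1) → E × E × E × E,
        mu (L2_pi u w c a) L2_xi x * (if L2_bad (x τ.castSucc) (x τ.succ) then 1 else 0) ≤
          3 / F := fun τ => by
      rw [walk_two hm τ fun s s' => if L2_bad s s' then 1 else 0, div_le_iff₀ Z0]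
      refine (L2_two h hc a0 (by positivity) a4 τ).trans ?_
      rw [a1]
      have h5 := div_le_div_of_nonneg_right hZ F0.le
      have h6 : ∀ z : ℝ, 3 / F * z = 2 * (z / F) + z * (1 / F) := fun z => by ring
      rw [h6]
      linarith
    have h5 : ∑ x : Fin (2 * P + 1) → E × E × E × E, mu (L2_pi u w c a) L2_xi x ≤
        ∑ x, (m x + ∑ τ : Fin (2 * P), mu (L2_pi u w c a) L2_xi x *
          (if L2_bad (x τ.castSucc) (x τ.succ) then 1 else 0)) := by
      refine sum_le_sum fun x _ => ?_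
      have h6 : ∀ τ ∈ (univ : Finset (Fin (2 * P))), 0 ≤ mu (L2_pi u w c a) L2_xi x *
          (if L2_bad (x τ.castSucc) (x τ.succ) then 1 else 0) := fun τ _ =>
        mul_nonneg (mu_nonneg h0 x) (by split_ifs; exacts [zero_le_one, le_rfl])
      rw [hm']
      by_cases h7 : ∀ τ : Fin (2 * P), ¬ L2_bad (x τ.castSucc) (x τ.succ)
      · rw [if_pos h7]
        exact le_add_of_nonneg_right (sum_nonneg h6)
      · rw [if_neg h7, zero_add]
        obtain ⟨τ, hτ⟩ := not_forall.1 h7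
        refine le_trans ?_ (single_le_sum h6 (mem_univ τ))
        rw [if_pos (not_not.1 hτ), mul_one]
    rw [h3, sum_add_distrib, sum_comm] at h5
    have h6 := sum_le_sum fun τ (_ : τ ∈ (univ : Finset (Fin (2 * P)))) => h4 τ
    rw [sum_const, card_univ, Fintype.card_fin, nsmul_eq_mul] at h6
    have h7 : ((2 * P : ℕ) : ℝ) * (3 / F) ≤ 1 / 2 := by
      rw [← mul_div_assoc, div_le_iff₀ F0]
      push_cast
      linarith
    linarith
  have G0 : 0 < ∑ x, m x := lt_of_lt_of_le (by norm_num) hG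
  have hdiv : ∀ z : ℝ, 0 ≤ z → z / ∑ x, m x ≤ 2 * z := fun z hz => by
    rw [div_le_iff₀ G0]
    nlinarith
  obtain ⟨ch, hch⟩ : ∃ ch : (Fin (2 * P + 1) → E × E × E × E) → Fin (8 * P + 3 + 1) → E,
      ∀ x r, ch x r = L2_seq (L2_ext x) r := ⟨_, fun _ _ => rfl⟩
  have c1 : ∀ k ≤ 2 * P, ∀ i, ∃ r, ∀ x, ch x r = ent i (L2_ext x k) := fun k hk i => by
    obtain ⟨j, j1, j2, -⟩ := L2_pos (fun _ => Classical.arbitrary _ : ℕ → E × E × E × E) k i
    refine ⟨⟨4 * k + j, by omega⟩, fun x => ?_⟩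
    rw [hch, L2_seq, show (4 * k + j) / 4 = k by omega, show (4 * k + j) % 4 = j by omega, j2]
  have c2 : Function.Injective ch := fun x y e => funext fun τ => by
    have h3 : ∀ i, ent i (x τ) = ent i (y τ) := fun i => by
      obtain ⟨r, hr⟩ := c1 τ (by omega) i
      have h4 := (hr x).symm.trans ((congrFun e r).trans (hr y))
      rwa [L2_ext, L2_ext, dif_pos τ.2, dif_pos τ.2] at h4
    exact Prod.ext (h3 0) (Prod.ext (h3 1) (Prod.ext (h3 2) (h3 3)))
  have c3 : ∀ γ, (∑ x, if ch x = γ then m x else 0) / ∑ x, m x ≠ 0 → ∃ x, m x ≠ 0 ∧ ch x = γ := by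
    intro γ hγ
    obtain ⟨x, -, hx⟩ := exists_ne_zero_of_sum_ne_zero (div_ne_zero_iff.1 hγ).1
    by_cases h3 : ch x = γ
    · exact ⟨x, by rwa [if_pos h3] at hx, h3⟩
    · exact absurd (if_neg h3) hx
  have c4 : ∀ x, m x ≠ 0 →
      (defi u (univ.image (ch x))).card ≤ 2 ∧ (defi w (univ.image (ch x))).card ≤ 2 := by
    intro x hx
    obtain ⟨-, b1, b2, b3⟩ := m2 x hx
    refine L2_defi h b1 b2 b3 (fun k hk i => ?_) fun e he => ?_
    · obtain ⟨r, hr⟩ := c1 k hk i
      exact mem_image.2 ⟨r, mem_univ _, hr x⟩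
    · obtain ⟨r, -, rfl⟩ := mem_image.1 he
      exact ⟨r / 4, by omega, _, (hch x r).symm⟩
  have c5 : ∀ γ, 0 ≤ ∑ x, if ch x = γ then m x else 0 := fun γ =>
    sum_nonneg fun x _ => by split_ifs; exacts [m0 x, le_rfl]
  refine ⟨fun γ => (∑ x, if ch x = γ then m x else 0) / ∑ x, m x,
    fun γ => div_nonneg (c5 γ) G0.le, ?_, fun γ hγ r => ?_, fun γ hγ => ?_, fun γ hγ => ?_,
    fun r e => ?_, fun γ => ?_⟩
  · rw [← sum_div, sum_comm, div_eq_one_iff_eq G0.ne']
    exact sum_congr rfl fun x _ => by rw [sum_ite_eq, if_pos (mem_univ _)]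
  · obtain ⟨x, hx, rfl⟩ := c3 γ hγ
    obtain ⟨-, b1, b2, -⟩ := m2 x hx
    rw [hch, hch]
    exact L2_chain b1 b2 r (by omega)
  · obtain ⟨x, hx, rfl⟩ := c3 γ hγ
    have h3 := Nat.mul_le_mul_left P (c4 x hx).1
    omega
  · obtain ⟨x, hx, rfl⟩ := c3 γ hγ
    have h3 := Nat.mul_le_mul_left P (c4 x hx).2
    omega
  · have e1 : ∀ γ : Fin (8 * P + 3 + 1) → E,
        (if γ r = e then (∑ x, if ch x = γ then m x else 0) / ∑ x, m x else 0) =
          (if γ r = e then (∑ x, if ch x = γ then m x else 0) else 0) / ∑ x, m x := fun γ => by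
      split_ifs
      exacts [rfl, (zero_div _).symm]
    simp only [e1]
    rw [← sum_div, L2_push m ch fun γ => γ r = e]
    refine (hdiv _ (sum_nonneg fun x _ => by split_ifs; exacts [m0 x, le_rfl])).trans
      (le_trans ?_ a5)
    rw [mul_div_assoc]
    refine mul_le_mul_of_nonneg_left ?_ zero_le_two
    obtain ⟨i, hi⟩ : ∃ i, i = L2_ord (r / 4) (r % 4) := ⟨_, rfl⟩
    obtain ⟨τ, hτ⟩ : ∃ τ : Fin (2 * P + 1), ∀ x, ch x r = ent i (x τ) :=
      ⟨⟨r / 4, by omega⟩, fun x => by rw [hch, L2_seq, L2_ext, dif_pos, hi]⟩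
    refine (sum_le_sum (g := fun x => mu (L2_pi u w c a) L2_xi x *
      if ¬ Lp (x τ) ∧ ent i (x τ) = e then 1 else 0) fun x _ => ?_).trans ?_
    · by_cases hx : m x = 0
      · rw [hx, ite_self]
        exact mul_nonneg (mu_nonneg h0 x) (by split_ifs; exacts [zero_le_one, le_rfl])
      · rw [hτ, ← (m1 x hx).1]
        by_cases h3 : ent i (x τ) = e
        · rw [if_pos h3, if_pos ⟨(m2 x hx).1 τ, h3⟩, mul_one]
        · rw [if_neg h3, if_neg fun h4 => h3 h4.2, mul_zero]
    rw [walk_one hm τ fun s => if ¬ Lp s ∧ ent i s = e then 1 else 0]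
    refine div_le_div₀ (Nat.cast_nonneg _) (le_trans (sum_le_sum fun s _ => ?_)
      (cw_marg h hc i e)) N0 hZ
    have h5 := cw_nonneg (u := u) (w := w) hc s
    by_cases h3 : Lp s
    · rw [if_neg fun h4 => h4.1 h3, mul_zero]
      split_ifs
      exacts [h5, le_rfl]
    · rw [L2_pi_eq h3]
      by_cases h4 : ent i s = e
      · rw [if_pos ⟨h3, h4⟩, if_pos h4, mul_one]
      · rw [if_neg fun h6 => h4 h6.2, if_neg h4, mul_zero]
  · refine (hdiv _ (c5 γ)).trans ?_
    have h3 : (∑ x, if ch x = γ then m x else 0) ≤ 1 / N * (1 / a) ^ (2 * P) := by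
      by_cases h4 : ∃ x, ch x = γ
      · obtain ⟨x, rfl⟩ := h4
        simp only [c2.eq_iff]
        rw [sum_ite_eq', if_pos (mem_univ _)]
        by_cases hx : m x = 0
        · rw [hx]
          positivity
        · rw [(m1 x hx).1]
          exact L2_point hc a0 N0 hZ (m2 x hx).1
      · rw [sum_eq_zero fun x _ => if_neg fun h5 => h4 ⟨x, h5⟩]
        positivity
    have h4 : (1 / a) ^ (2 * P) ≤ ((F : ℝ) ^ 2 / δ2) ^ P :=
      (pow_le_pow_left₀ (by positivity) a2 _).trans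
        (pow_le_pow_of_le_one (by positivity) a3 (by omega))
    have h5 : 2 * (1 / N) ≤ ((4 * F * Λ : ℕ) : ℝ) / Fintype.card E := by
      refine le_trans ?_ a5
      rw [mul_div_assoc]
      exact mul_le_mul_of_nonneg_left (div_le_div_of_nonneg_right d0 N0.le) zero_le_two
    refine (mul_le_mul_of_nonneg_left h3 zero_le_two).trans ?_
    rw [← mul_assoc]
    exact mul_le_mul h5 h4 (by positivity) (by positivity)

end Pool.Agent.Work.MP_78fef3_co.X
end

-- merged part: Pool.Agent.Work.MP_78fef3_co.X.Red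
section
/-! Parallel edges, minimum degrees, subtypes. -/

namespace Pool.Agent.Work.MP_78fef3_co.X

open Finset Pool.Agent.Work.MP_78fef3_co.S

variable {E B : Type} [DecidableEq E] [DecidableEq B]

/-- Three distinct edges of one class. -/
private def Rd_ok {X : Type} (k : E → X) (γ : Fin 3 → E) : Prop :=
  Function.Injective γ ∧ ∀ i j, k (γ i) = k (γ j)

open Classical in
private theorem Rd_count0 {X : Type} [DecidableEq X] [Fintype E] (k : E → X) (e : E) :
    (univ.filter fun γ : Fin 3 → E => γ 0 = e ∧ Rd_ok k γ).card =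
      (((univ.filter fun x => k x = k e).erase e).offDiag).card := by
  refine card_bij (fun γ _ => (γ 1, γ 2)) ?_ ?_ ?_
  · intro γ hγ
    obtain ⟨h0, hi, hk⟩ := (mem_filter.1 hγ).2
    subst h0
    simp only [mem_offDiag, mem_erase, mem_filter, mem_univ, true_and]
    exact ⟨⟨fun h => absurd (hi h) (by decide), hk 1 0⟩, ⟨fun h => absurd (hi h) (by decide), hk 2 0⟩,
      fun h => absurd (hi h) (by decide)⟩
  · intro γ hγ γ' hγ' h
    have h0 := (mem_filter.1 hγ).2.1
    have h0' := (mem_filter.1 hγ').2.1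
    obtain ⟨h1, h2⟩ := Prod.mk.inj h
    funext i
    fin_cases i
    · exact h0.trans h0'.symm
    · exact h1
    · exact h2
  · rintro ⟨x, y⟩ h
    simp only [mem_offDiag, mem_erase, mem_filter, mem_univ, true_and] at h
    obtain ⟨⟨hx, kx⟩, ⟨hy, ky⟩, hxy⟩ := h
    refine ⟨![e, x, y], mem_filter.2 ⟨mem_univ _, rfl, ?_, ?_⟩, rfl⟩
    · intro i j hij
      fin_cases i <;> fin_cases j <;> simp_all
    · intro i j
      fin_cases i <;> fin_cases j <;> simp [kx, ky]

open Classical in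
private theorem Rd_count {X : Type} [DecidableEq X] [Fintype E] (k : E → X) (r : Fin 3) (e : E) :
    ((univ.filter fun γ : Fin 3 → E => γ r = e ∧ Rd_ok k γ).card : ℝ) =
      ((deg k univ (k e) : ℝ) - 1) * ((deg k univ (k e) : ℝ) - 2) := by
  have h1 : (univ.filter fun γ : Fin 3 → E => γ r = e ∧ Rd_ok k γ).card =
      (univ.filter fun γ : Fin 3 → E => γ 0 = e ∧ Rd_ok k γ).card := by
    refine card_bij (fun γ _ => γ ∘ Equiv.swap 0 r) ?_ ?_ ?_
    · intro γ hγ
      obtain ⟨h0, hi, hk⟩ := (mem_filter.1 hγ).2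
      refine mem_filter.2 ⟨mem_univ _, ?_, hi.comp (Equiv.injective _), fun i j => hk _ _⟩
      simpa using h0
    · intro γ _ γ' _ h
      funext i
      have := congrFun h (Equiv.swap 0 r i)
      simpa using this
    · intro γ hγ
      obtain ⟨h0, hi, hk⟩ := (mem_filter.1 hγ).2
      refine ⟨γ ∘ Equiv.swap 0 r,
        mem_filter.2 ⟨mem_univ _, ?_, hi.comp (Equiv.injective _), fun i j => hk _ _⟩, ?_⟩
      · simpa using h0
      · funext i
        simp
  have h2 : 1 ≤ deg k univ (k e) := card_pos.2 ⟨e, by simp⟩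
  rw [h1, Rd_count0, offDiag_card, card_erase_of_mem (by simp)]
  change (((deg k univ (k e) - 1) * (deg k univ (k e) - 1) - (deg k univ (k e) - 1) : ℕ) : ℝ) = _
  rw [Nat.cast_sub (Nat.le_mul_self _), Nat.cast_mul, Nat.cast_sub h2]
  push_cast
  ring

private theorem Rd_defi (g : E → B) (γ : Fin 3 → E) (hi : Function.Injective γ)
    (hg : ∀ i j, g (γ i) = g (γ j)) : (defi g (univ.image γ)).card = 0 := by
  rw [card_eq_zero, defi, filter_eq_empty_iff]
  intro v hv
  obtain ⟨x, hx, rfl⟩ := mem_image.1 hv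
  obtain ⟨i, -, rfl⟩ := mem_image.1 hx
  have : deg g (univ.image γ) (g (γ i)) = 3 := by
    unfold deg
    rw [filter_true_of_mem, card_image_of_injective _ hi]
    · simp
    · intro y hy
      obtain ⟨j, -, rfl⟩ := mem_image.1 hy
      exact hg j i
  omega

private theorem Rd_step (g h : E → B) (S : Finset E) (e : E) (he : e ∈ S) (a b : ℕ)
    (hd : deg g S (g e) ≤ a) :
    ∃ T ⊆ S, T.card < S.card ∧
      (S.card : ℤ) - a * (S.image g).card - b * (S.image h).card ≤
        (T.card : ℤ) - a * (T.image g).card - b * (T.image h).card := by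
  refine ⟨S.filter fun x => ¬ g x = g e, filter_subset _ _, ?_, ?_⟩
  · exact card_lt_card (filter_ssubset.2 ⟨e, he, by simp⟩)
  · have h1 := card_filter_add_card_filter_not (s := S) (fun x => g x = g e)
    have h2 : ((S.filter fun x => ¬ g x = g e).image g).card < (S.image g).card := by
      refine card_lt_card ⟨image_subset_image (filter_subset _ _), fun hh => ?_⟩
      obtain ⟨x, hx, hx'⟩ := mem_image.1 (hh (mem_image_of_mem g he))
      exact (mem_filter.1 hx).2 hx'
    have h3 : ((S.filter fun x => ¬ g x = g e).image h).card ≤ (S.image h).card :=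
      card_le_card (image_subset_image (filter_subset _ _))
    unfold deg at hd
    have h4 : (a : ℤ) * (((S.filter fun x => ¬ g x = g e).image g).card + 1) ≤
        a * (S.image g).card := mul_le_mul_of_nonneg_left (by exact_mod_cast h2) (by positivity)
    have h5 : (b : ℤ) * ((S.filter fun x => ¬ g x = g e).image h).card ≤
        b * (S.image h).card := mul_le_mul_of_nonneg_left (by exact_mod_cast h3) (by positivity)
    have h6 : ((S.filter fun x => g x = g e).card : ℤ) ≤ a := by exact_mod_cast hd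
    have h7 : ((S.filter fun x => g x = g e).card : ℤ) + (S.filter fun x => ¬ g x = g e).card =
        S.card := by exact_mod_cast h1
    linarith


/-- Paper section 4, PAR. `cl e` is the set of edges with the same `u` and `w` as `e`, `E3` the
edges with `3 ≤ |cl e|`. If `n ≤ 2 |E3|` take `ϖ γ = 1 / (|E3| (c - 1) (c - 2))` for injective `γ`
inside one class of size `c ≥ 3`, else `0` (both `defi` are empty). Otherwise keep one edge of
each class of size at most two. -/
theorem par [Fintype E] [Nonempty E] (u w : E → B) (P : ℕ) :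
    (∃ ϖ, Law u w 2 P (2 / Fintype.card E) (2 / Fintype.card E) ϖ) ∨
      ∃ S : Finset E, Fintype.card E ≤ 4 * S.card ∧
        ∀ e ∈ S, ∀ e' ∈ S, u e = u e' → w e = w e' → e = e' := by
  classical
  set k : E → B × B := fun e => (u e, w e) with hk
  set E3 := univ.filter fun e => 3 ≤ deg k univ (k e) with hE3
  have hn : 0 < Fintype.card E := Fintype.card_pos
  by_cases hc : Fintype.card E ≤ 2 * E3.card
  · left
    have hN : (0 : ℝ) < E3.card := by
      have : 0 < E3.card := by omega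
      exact_mod_cast this
    have hn' : (0 : ℝ) < Fintype.card E := by exact_mod_cast hn
    have hle : 1 / (E3.card : ℝ) ≤ 2 / Fintype.card E := by
      rw [div_le_div_iff₀ hN hn']
      have : (Fintype.card E : ℝ) ≤ 2 * E3.card := by exact_mod_cast hc
      linarith
    set q : E → ℝ := fun e =>
      1 / (E3.card * (((deg k univ (k e) : ℝ) - 1) * ((deg k univ (k e) : ℝ) - 2))) with hq
    have h3 : ∀ γ : Fin 3 → E, Rd_ok k γ → 3 ≤ deg k univ (k (γ 0)) := fun γ hγ => by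
      have : (univ.image γ).card ≤ deg k univ (k (γ 0)) := by
        refine card_le_card fun x hx => ?_
        obtain ⟨i, -, rfl⟩ := mem_image.1 hx
        exact mem_filter.2 ⟨mem_univ _, hγ.2 i 0⟩
      rwa [card_image_of_injective _ hγ.1, card_univ, Fintype.card_fin] at this
    have h4 : ∀ e, 3 ≤ deg k univ (k e) →
        (2 : ℝ) ≤ ((deg k univ (k e) : ℝ) - 1) * ((deg k univ (k e) : ℝ) - 2) := fun e he => by
      have : (3 : ℝ) ≤ deg k univ (k e) := by exact_mod_cast he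
      nlinarith
    have hm : ∀ (r : Fin 3) (e : E),
        ∑ γ : Fin 3 → E, (if γ r = e then (if Rd_ok k γ then q (γ 0) else 0) else 0) =
          if 3 ≤ deg k univ (k e) then 1 / (E3.card : ℝ) else 0 := fun r e => by
      have e1 : ∀ γ : Fin 3 → E, (if γ r = e then (if Rd_ok k γ then q (γ 0) else 0) else 0) =
          if γ r = e ∧ Rd_ok k γ then q e else 0 := fun γ => by
        by_cases a : γ r = e
        · by_cases b : Rd_ok k γ
          · rw [if_pos a, if_pos b, if_pos ⟨a, b⟩, ← a]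
            simp only [hq, b.2 0 r]
          · rw [if_pos a, if_neg b, if_neg fun c => b c.2]
        · rw [if_neg a, if_neg fun c => a c.1]
      rw [sum_congr rfl fun γ _ => e1 γ, ← sum_filter, sum_const, nsmul_eq_mul]
      have e2 := Rd_count k r e
      rw [e2]
      split_ifs with a
      · have := h4 e a
        simp only [hq]
        rw [mul_one_div, div_eq_div_iff (by positivity) hN.ne']
        ring
      · have h2 : 1 ≤ deg k univ (k e) := card_pos.2 ⟨e, by simp⟩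
        have : deg k univ (k e) = 1 ∨ deg k univ (k e) = 2 := by omega
        rcases this with b | b <;> rw [b] <;> norm_num
    refine ⟨fun γ => if Rd_ok k γ then q (γ 0) else 0, ?_, ?_, ?_, ?_, ?_, ?_, ?_⟩
    · intro γ
      split_ifs with a
      · have := h4 _ (h3 γ a)
        simp only [hq]
        positivity
      · exact le_rfl
    · have e1 : ∀ γ : Fin 3 → E, (if Rd_ok k γ then q (γ 0) else 0) =
          ∑ e, (if γ 0 = e then (if Rd_ok k γ then q (γ 0) else 0) else 0) := fun γ => by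
        rw [sum_ite_eq, if_pos (mem_univ _)]
      rw [sum_congr rfl fun γ _ => e1 γ, sum_comm, sum_congr rfl fun e _ => hm 0 e, ← sum_filter,
        sum_const, nsmul_eq_mul, ← hE3, mul_one_div, div_self hN.ne']
    · intro γ hγ r
      have a : Rd_ok k γ := by
        by_contra b
        exact hγ (if_neg b)
      exact Or.inl (congrArg Prod.fst (a.2 _ _))
    · intro γ hγ
      have a : Rd_ok k γ := by
        by_contra b
        exact hγ (if_neg b)
      rw [Rd_defi u γ a.1 fun i j => congrArg Prod.fst (a.2 i j)]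
      omega
    · intro γ hγ
      have a : Rd_ok k γ := by
        by_contra b
        exact hγ (if_neg b)
      rw [Rd_defi w γ a.1 fun i j => congrArg Prod.snd (a.2 i j)]
      omega
    · intro r e
      refine (hm r e).le.trans ?_
      split_ifs
      · exact hle
      · positivity
    · intro γ
      split_ifs with a
      · refine le_trans ?_ hle
        have := h4 _ (h3 γ a)
        simp only [hq]
        exact one_div_le_one_div_of_le hN (by nlinarith)
      · positivity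
  · right
    set T := univ.filter fun e => ¬ 3 ≤ deg k univ (k e) with hT
    have h1 : E3.card + T.card = Fintype.card E := by
      rw [hE3, hT, card_filter_add_card_filter_not, card_univ]
    have h2 : T.card ≤ 2 * (T.image k).card := by
      refine card_le_mul_card_image T 2 fun b hb => ?_
      obtain ⟨x, hx, rfl⟩ := mem_image.1 hb
      have a : ¬ 3 ≤ deg k univ (k x) := (mem_filter.1 hx).2
      have b : (T.filter fun y => k y = k x).card ≤ deg k univ (k x) :=
        card_le_card (filter_subset_filter _ (subset_univ _))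
      omega
    obtain ⟨S, -, hi, him⟩ := exists_subset_injOn_image_eq_of_surjOn (f := k) (T : Set E)
      (T.image k) (by rw [coe_image]; exact Set.surjOn_image _ _)
    refine ⟨S, ?_, fun e he e' he' a b => hi he he' (Prod.ext a b)⟩
    rw [← card_image_of_injOn hi, him]
    omega

/-- Paper section 4, CLEAN. Among the subsets maximising
`|S'| - a1 |image u S'| - a2 |image w S'|` take one of least size. -/
theorem clean (u w : E → B) (S : Finset E) (a1 a2 : ℕ)
    (h1 : 4 * a1 * (S.image u).card ≤ S.card) (h2 : 4 * a2 * (S.image w).card ≤ S.card) :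
    ∃ S' ⊆ S, S.card ≤ 2 * S'.card ∧
      ∀ e ∈ S', a1 < deg u S' (u e) ∧ a2 < deg w S' (w e) := by
  obtain ⟨S0, hS0, hmax⟩ := exists_max_image S.powerset
    (fun T => (T.card : ℤ) - a1 * (T.image u).card - a2 * (T.image w).card) ⟨S, by simp⟩
  obtain ⟨S', hS', hmin⟩ := exists_min_image (S.powerset.filter fun T =>
    (S0.card : ℤ) - a1 * (S0.image u).card - a2 * (S0.image w).card ≤
      (T.card : ℤ) - a1 * (T.image u).card - a2 * (T.image w).card) card
    ⟨S0, mem_filter.2 ⟨hS0, le_rfl⟩⟩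
  obtain ⟨hs, hv⟩ := mem_filter.1 hS'
  have hs' := mem_powerset.1 hs
  refine ⟨S', hs', ?_, fun e he => ⟨?_, ?_⟩⟩
  · have a := hmax S (by simp)
    have b1 : (4 : ℤ) * a1 * (S.image u).card ≤ S.card := by exact_mod_cast h1
    have b2 : (4 : ℤ) * a2 * (S.image w).card ≤ S.card := by exact_mod_cast h2
    have c1 : (0 : ℤ) ≤ a1 * (S'.image u).card := by positivity
    have c2 : (0 : ℤ) ≤ a2 * (S'.image w).card := by positivity
    have : (S.card : ℤ) ≤ 2 * S'.card := by linarith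
    exact_mod_cast this
  · by_contra hd
    obtain ⟨T, hT, hc, hw⟩ := Rd_step u w S' e he a1 a2 (not_lt.1 hd)
    have := hmin T (mem_filter.2 ⟨mem_powerset.2 (hT.trans hs'), hv.trans hw⟩)
    omega
  · by_contra hd
    obtain ⟨T, hT, hc, hw⟩ := Rd_step w u S' e he a2 a1 (not_lt.1 hd)
    have := hmin T (mem_filter.2 ⟨mem_powerset.2 (hT.trans hs'), by linarith⟩)
    omega

theorem deg_sub (g : E → B) (A : Finset E) (b : B) :
    deg (fun e : A => g e) univ b = deg g A b := by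
  unfold deg
  rw [← card_map (Function.Embedding.subtype (· ∈ A))]
  congr 1
  ext x
  simp only [mem_map, mem_filter, mem_univ, true_and, Function.Embedding.coe_subtype]
  exact ⟨fun ⟨y, a, b⟩ => b ▸ ⟨y.2, a⟩, fun a => ⟨⟨x, a.1⟩, a.2, rfl⟩⟩

theorem image_sub (g : E → B) (A : Finset E) : (univ.image fun e : A => g e) = A.image g := by
  ext b
  simp only [mem_image, mem_univ, true_and]
  exact ⟨fun ⟨y, a⟩ => ⟨y, y.2, a⟩, fun ⟨y, a, b⟩ => ⟨⟨y, a⟩, b⟩⟩

theorem good_sub (f : Fin 3 → E → B) (A A' : Finset E) (hA : A ⊆ A') {D D' : ℕ} (hD : D ≤ D')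
    (h : GoodIn (fun i (e : A) => f i e) univ D) : GoodIn f A' D' := by
  obtain ⟨S, -, hne, hS⟩ := h
  have key : ∀ i b, deg (f i) (S.map (Function.Embedding.subtype (· ∈ A))) b =
      deg (fun e : A => f i e) S b := fun i b => by
    unfold deg
    rw [filter_map, card_map]
    rfl
  refine ⟨S.map (Function.Embedding.subtype (· ∈ A)), fun x hx => ?_, hne.map, fun i x hx => ?_⟩
  · obtain ⟨y, -, rfl⟩ := mem_map.1 hx
    exact hA y.2
  · obtain ⟨y, hy, rfl⟩ := mem_map.1 hx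
    rw [key]
    exact ⟨(hS i y hy).1, (hS i y hy).2.trans hD⟩

end Pool.Agent.Work.MP_78fef3_co.X
end
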